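import Mathlib

set_option autoImplicit false
set_option linter.unusedSectionVars false

open scoped Pointwise
open Finset

namespace Pool.Agent.Helper482.HszAtom

variable {p : ℕ} [Fact p.Prime]

/-- Admissible sets for the `k`-th isoperimetric number of `S`. -/
def Valid (k : ℕ) (S F : Finset (ZMod p)) : Prop := k ≤ F.card ∧ (F + S).card + k ≤ p

/-- Atoms: admissible sets of least boundary and then of least size. -/
def IsAtom (k : ℕ) (S M : Finset (ZMod p)) : Prop :=
  Valid k S M ∧ ∀ F, Valid k S F → (M + S).card + F.card ≤ (F + S).card + M.card ∧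
    ((M + S).card + F.card = (F + S).card + M.card → M.card ≤ F.card)

theorem exists_atom (k : ℕ) (S : Finset (ZMod p)) (hS : S.Nonempty) (F0 : Finset (ZMod p))
    (hF0 : Valid k S F0) : ∃ M, IsAtom k S M := by
  classical
  obtain ⟨M, hM, hmin⟩ := Finset.exists_min_image
    ((Finset.univ : Finset (Finset (ZMod p))).filter (fun F => Valid k S F))
    (fun F => ((F + S).card - F.card) * (p + 1) + F.card)
    ⟨F0, by simp [hF0]⟩
  rw [Finset.mem_filter] at hM
  refine ⟨M, hM.2, fun F hF => ?_⟩
  have h1 := hmin F (by simp [hF])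
  have a1 : M.card ≤ (M + S).card := Finset.card_le_card_add_right hS
  have a2 : F.card ≤ (F + S).card := Finset.card_le_card_add_right hS
  have b1 : M.card ≤ p := by simpa [ZMod.card] using Finset.card_le_univ M
  have b2 : F.card ≤ p := by simpa [ZMod.card] using Finset.card_le_univ F
  obtain ⟨x, hx⟩ := Nat.exists_eq_add_of_le a1
  obtain ⟨y, hy⟩ := Nat.exists_eq_add_of_le a2
  rw [hx, hy] at h1 ⊢
  simp only [Nat.add_sub_cancel_left] at h1
  have hxy : x ≤ y := by
    by_contra hcon
    push Not at hcon
    have : (y + 1) * (p + 1) ≤ x * (p + 1) := Nat.mul_le_mul_right _ hcon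
    nlinarith
  refine ⟨by omega, fun he => ?_⟩
  have : x = y := by omega
  subst this
  omega

/-- Translate of a set. -/
def tr (M : Finset (ZMod p)) (g : ZMod p) : Finset (ZMod p) := M.image (fun x => x + g)

theorem mem_tr {M : Finset (ZMod p)} {g x : ZMod p} : x ∈ tr M g ↔ x - g ∈ M := by
  unfold tr
  rw [Finset.mem_image]
  constructor
  · rintro ⟨y, hy, rfl⟩
    simpa using hy
  · intro h
    exact ⟨x - g, h, by simp⟩

theorem card_tr (M : Finset (ZMod p)) (g : ZMod p) : (tr M g).card = M.card :=
  Finset.card_image_of_injective _ (add_left_injective g)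

theorem tr_add (M S : Finset (ZMod p)) (g : ZMod p) : tr M g + S = tr (M + S) g := by
  ext x
  rw [mem_tr, Finset.mem_add, Finset.mem_add]
  constructor
  · rintro ⟨a, ha, s, hs, rfl⟩
    rw [mem_tr] at ha
    exact ⟨a - g, ha, s, hs, by abel⟩
  · rintro ⟨a, ha, s, hs, h⟩
    refine ⟨a + g, ?_, s, hs, ?_⟩
    · rw [mem_tr]; simpa using ha
    · have : a + g + s = (a + s) + g := by abel
      rw [this, h]; abel

theorem tr_tr (M : Finset (ZMod p)) (g h : ZMod p) : tr (tr M g) h = tr M (g + h) := by
  ext x
  rw [mem_tr, mem_tr, mem_tr]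
  have : x - h - g = x - (g + h) := by abel
  rw [this]

/-- A nonempty proper subset of `ZMod p` is not invariant under a nonzero translation. -/
theorem tr_ne (M : Finset (ZMod p)) (g : ZMod p) (hg : g ≠ 0) (hne : M.Nonempty)
    (hM : M.card < p) : tr M g ≠ M := by
  intro h
  have h1 : ∀ x, x ∈ M → x + g ∈ M := by
    intro x hx
    rw [← h, mem_tr]
    simpa using hx
  obtain ⟨x0, hx0⟩ := hne
  have h2 : ∀ n : ℕ, x0 + n * g ∈ M := by
    intro n
    induction n with
    | zero => simpa using hx0
    | succ n ih =>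
      have := h1 _ ih
      have e : x0 + ((n + 1 : ℕ) : ZMod p) * g = x0 + n * g + g := by
        push_cast; ring
      rw [e]; exact this
  have h3 : M = Finset.univ := by
    rw [Finset.eq_univ_iff_forall]
    intro z
    have := h2 ((z - x0) / g).val
    rw [ZMod.natCast_zmod_val, div_mul_cancel₀ _ hg] at this
    simpa using this
  rw [h3, Finset.card_univ, ZMod.card] at hM
  omega

/-- Intersection property of atoms. -/
theorem inter_lt (k : ℕ) (hk : 0 < k) (S M : Finset (ZMod p)) (hS : S.Nonempty)
    (hM : IsAtom k S M) (g : ZMod p) (hg : g ≠ 0) : (M ∩ tr M g).card < k := by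
  by_contra hcon
  push Not at hcon
  obtain ⟨⟨hM2, hMG⟩, hmin⟩ := hM
  have hMS : M.card ≤ (M + S).card := Finset.card_le_card_add_right hS
  have hne : tr M g ≠ M := tr_ne M g hg (Finset.card_pos.mp (by omega)) (by omega)
  set M' := tr M g with hM'
  have hcM' : M'.card = M.card := card_tr M g
  have hcMS : (M' + S).card = (M + S).card := by rw [hM', tr_add, card_tr]
  have hlt : (M ∩ M').card < M.card := by
    apply Finset.card_lt_card
    refine ⟨Finset.inter_subset_left, fun hsub => hne ?_⟩
    symm
    apply Finset.eq_of_subset_of_card_le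
    · intro x hx
      exact (Finset.mem_inter.mp (hsub hx)).2
    · rw [hcM']
  have hsub1 : (M ∩ M') + S ⊆ (M + S) ∩ (M' + S) := by
    intro x hx
    obtain ⟨a, ha, s, hs, rfl⟩ := Finset.mem_add.mp hx
    rw [Finset.mem_inter] at ha ⊢
    exact ⟨Finset.add_mem_add ha.1 hs, Finset.add_mem_add ha.2 hs⟩
  have hun : (M ∪ M') + S = (M + S) ∪ (M' + S) := Finset.union_add
  have hv1 : Valid k S (M ∩ M') := by
    refine ⟨hcon, ?_⟩
    have : ((M ∩ M') + S).card ≤ (M + S).card :=
      Finset.card_le_card (hsub1.trans Finset.inter_subset_left)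
    omega
  have h1 := hmin _ hv1
  have h1' : (M + S).card + (M ∩ M').card < ((M ∩ M') + S).card + M.card := by
    rcases lt_or_eq_of_le h1.1 with h | h
    · exact h
    · have := h1.2 h
      omega
  have h2 : ((M ∩ M') + S).card ≤ ((M + S) ∩ (M' + S)).card := Finset.card_le_card hsub1
  have h3 := Finset.card_union_add_card_inter (M + S) (M' + S)
  have h4 := Finset.card_union_add_card_inter M M'
  rw [← hun] at h3
  have h5 : ¬ Valid k S (M ∪ M') := by
    intro hv
    have := (hmin _ hv).1
    omega
  have h6 : p < ((M ∪ M') + S).card + k := by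
    by_contra hc
    push Not at hc
    apply h5
    refine ⟨?_, hc⟩
    omega
  -- the dual set
  set T := (Finset.univ \ (M + S)).image (fun x => -x) with hT
  have hTc : T.card = p - (M + S).card := by
    rw [hT, Finset.card_image_of_injective _ neg_injective, Finset.card_sdiff_of_subset
      (Finset.subset_univ _), Finset.card_univ, ZMod.card]
  have hTS : (T + S).card + M.card ≤ p := by
    have hdis : Disjoint (T + S) (M.image (fun x => -x)) := by
      rw [Finset.disjoint_left]
      intro x hx hx'
      obtain ⟨t, ht, s, hs, rfl⟩ := Finset.mem_add.mp hx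
      rw [hT, Finset.mem_image] at ht
      obtain ⟨u, hu, rfl⟩ := ht
      rw [Finset.mem_image] at hx'
      obtain ⟨m, hm, hms⟩ := hx'
      rw [Finset.mem_sdiff] at hu
      apply hu.2
      have : u = m + s := by
        have h7 : -m = -u + s := hms
        have : m = u - s := by
          rw [← neg_inj, h7]; abel
        rw [this]; abel
      rw [this]
      exact Finset.add_mem_add hm hs
    have := Finset.card_le_univ ((T + S) ∪ (M.image (fun x => -x)))
    rw [Finset.card_union_of_disjoint hdis, Finset.card_image_of_injective _ neg_injective,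
      ZMod.card] at this
    exact this
  have hTv : Valid k S T := by
    refine ⟨?_, ?_⟩ <;> omega
  have h8 := hmin _ hTv
  have h9 := h8.2 (by omega)
  omega

theorem inter_two (k : ℕ) (hk : 0 < k) (S M : Finset (ZMod p)) (hS : S.Nonempty)
    (hM : IsAtom k S M) (g h : ZMod p) (hgh : g ≠ h) : (tr M g ∩ tr M h).card < k := by
  have h1 := inter_lt k hk S M hS hM (h - g) (sub_ne_zero.mpr (Ne.symm hgh))
  have h2 : tr M g ∩ tr M h = tr (M ∩ tr M (h - g)) g := by
    ext x
    rw [Finset.mem_inter, mem_tr, mem_tr, mem_tr, Finset.mem_inter, mem_tr]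
    have : x - g - (h - g) = x - h := by abel
    rw [this]
  rw [h2, card_tr]
  exact h1

theorem atom_size2 (k : ℕ) (hk : 0 < k) (S M : Finset (ZMod p)) (hM : IsAtom k S M)
    (hS : 2 ≤ S.card) : 2 * M.card ≤ (M + S).card + (k - 1) := by
  obtain ⟨a, ha, b, hb, hab⟩ := Finset.one_lt_card.mp (by omega : 1 < S.card)
  have h1 := inter_two k hk S M ⟨a, ha⟩ hM a b hab
  have h2 : tr M a ∪ tr M b ⊆ M + S := by
    intro x hx
    rw [Finset.mem_union, mem_tr, mem_tr] at hx
    rcases hx with h | h
    · have := Finset.add_mem_add h ha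
      simpa using this
    · have := Finset.add_mem_add h hb
      simpa using this
  have h3 := Finset.card_le_card h2
  have h4 := Finset.card_union_add_card_inter (tr M a) (tr M b)
  rw [card_tr, card_tr] at h4
  omega

theorem atom_size3 (k : ℕ) (hk : 0 < k) (S M : Finset (ZMod p)) (hM : IsAtom k S M)
    (hS : 3 ≤ S.card) : 3 * M.card ≤ (M + S).card + 3 * (k - 1) := by
  obtain ⟨a, ha, b, hb, c, hc, hab, hac, hbc⟩ := Finset.two_lt_card.mp (by omega : 2 < S.card)
  have h1 := inter_two k hk S M ⟨a, ha⟩ hM a b hab
  have h1' := inter_two k hk S M ⟨a, ha⟩ hM a c hac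
  have h1'' := inter_two k hk S M ⟨a, ha⟩ hM b c hbc
  have h2 : (tr M a ∪ tr M b) ∪ tr M c ⊆ M + S := by
    intro x hx
    rw [Finset.mem_union, Finset.mem_union, mem_tr, mem_tr, mem_tr] at hx
    rcases hx with (h | h) | h
    · have := Finset.add_mem_add h ha
      simpa using this
    · have := Finset.add_mem_add h hb
      simpa using this
    · have := Finset.add_mem_add h hc
      simpa using this
  have h3 := Finset.card_le_card h2
  have h4 := Finset.card_union_add_card_inter (tr M a) (tr M b)
  have h5 := Finset.card_union_add_card_inter (tr M a ∪ tr M b) (tr M c)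
  have h6 : (tr M a ∪ tr M b) ∩ tr M c ⊆ (tr M a ∩ tr M c) ∪ (tr M b ∩ tr M c) := by
    rw [Finset.union_inter_distrib_right]
  have h7 := Finset.card_le_card h6
  have h8 := Finset.card_union_le (tr M a ∩ tr M c) (tr M b ∩ tr M c)
  rw [card_tr, card_tr] at h4
  rw [card_tr] at h5
  omega

end Pool.Agent.Helper482.HszAtom
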