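import Mathlib

set_option autoImplicit false
set_option linter.unusedSectionVars false

open scoped Pointwise
open Finset

namespace Pool.Agent.Helper482.HszKneser

variable {G : Type*} [AddCommGroup G] [Fintype G] [DecidableEq G]

/-- The elements of a subgroup, as a finset. -/
noncomputable def fs (H : AddSubgroup G) : Finset G := by
  classical exact Finset.univ.filter (fun x => x ∈ H)

theorem mem_fs {H : AddSubgroup G} {x : G} : x ∈ fs H ↔ x ∈ H := by
  simp [fs]

theorem fs_nonempty (H : AddSubgroup G) : (fs H).Nonempty := ⟨0, mem_fs.mpr H.zero_mem⟩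

theorem fs_card_pos (H : AddSubgroup G) : 0 < (fs H).card := Finset.card_pos.mpr (fs_nonempty H)

theorem fs_mono {H K : AddSubgroup G} (h : H ≤ K) : fs H ⊆ fs K := by
  intro x hx
  exact mem_fs.mpr (h (mem_fs.mp hx))

/-- The stabiliser of a finite set under translation. -/
def stab (C : Finset G) : AddSubgroup G where
  carrier := {g | ∀ x, x ∈ C ↔ x + g ∈ C}
  zero_mem' := by simp
  add_mem' := by
    intro a b ha hb x
    rw [ha x, hb (x + a), add_assoc]
  neg_mem' := by
    intro a ha x
    have := ha (x + -a)
    rw [neg_add_cancel_right] at this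
    exact this.symm

theorem mem_stab {C : Finset G} {g : G} : g ∈ stab C ↔ ∀ x, x ∈ C ↔ x + g ∈ C := Iff.rfl

theorem mem_stab_of_forall {C : Finset G} {g : G} (h : ∀ x ∈ C, x + g ∈ C) : g ∈ stab C := by
  have himg : C.image (fun x => x + g) = C := by
    apply Finset.eq_of_subset_of_card_le
    · intro y hy
      rw [Finset.mem_image] at hy
      obtain ⟨x, hx, rfl⟩ := hy
      exact h x hx
    · rw [Finset.card_image_of_injective _ (add_left_injective g)]
  intro x
  refine ⟨h x, fun hx => ?_⟩
  rw [← himg, Finset.mem_image] at hx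
  obtain ⟨y, hy, hxy⟩ := hx
  rwa [← add_right_cancel hxy]

theorem stab_add {C : Finset G} {x g : G} (hg : g ∈ stab C) (hx : x ∈ C) : x + g ∈ C :=
  (mem_stab.mp hg x).mp hx

/-- Grid counting: the main combinatorial estimate behind the union lemma. -/
theorem grid (H1 H2 : AddSubgroup G) (C1 C2 : Finset G) (h1 : H1 ≤ stab C1) (h2 : H2 ≤ stab C2)
    (c : G) :
    ((fs H2).filter (fun x => c + x ∉ C1)).card * ((fs H1).filter (fun y => c + y ∈ C2)).card
      ≤ (fs (H1 ⊓ H2)).card * (C2 \ C1).card := by
  set S := ((fs H2).filter (fun x => c + x ∉ C1)) ×ˢ ((fs H1).filter (fun y => c + y ∈ C2))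
    with hS
  set f : G × G → G := fun z => c + z.1 + z.2 with hf
  rw [← Finset.card_product]
  have hmem : ∀ z ∈ S, z.1 ∈ H2 ∧ c + z.1 ∉ C1 ∧ z.2 ∈ H1 ∧ c + z.2 ∈ C2 := by
    intro z hz
    rw [hS, Finset.mem_product, Finset.mem_filter, Finset.mem_filter, mem_fs, mem_fs] at hz
    exact ⟨hz.1.1, hz.1.2, hz.2.1, hz.2.2⟩
  have himg : S.image f ⊆ C2 \ C1 := by
    intro w hw
    rw [Finset.mem_image] at hw
    obtain ⟨z, hz, rfl⟩ := hw
    obtain ⟨hz1, hz2, hz3, hz4⟩ := hmem z hz
    rw [Finset.mem_sdiff]
    constructor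
    · have := stab_add (h2 hz1) hz4
      simp only [hf]
      rwa [add_right_comm]
    · intro hcon
      apply hz2
      simp only [hf] at hcon
      exact (mem_stab.mp (h1 hz3) _).mpr hcon
  calc S.card ≤ (fs (H1 ⊓ H2)).card * (S.image f).card := by
        apply Finset.card_le_mul_card_image
        intro w hw
        rw [Finset.mem_image] at hw
        obtain ⟨z0, hz0, rfl⟩ := hw
        obtain ⟨hz1, hz2, hz3, hz4⟩ := hmem z0 hz0
        apply Finset.card_le_card_of_injOn (fun z => z.1 - z0.1)
        · intro z hz
          rw [Finset.mem_coe, Finset.mem_filter] at hz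
          obtain ⟨hzS, hzf⟩ := hz
          obtain ⟨k1, k2, k3, k4⟩ := hmem z hzS
          rw [Finset.mem_coe, mem_fs, AddSubgroup.mem_inf]
          refine ⟨?_, H2.sub_mem k1 hz1⟩
          have : z.1 - z0.1 = z0.2 - z.2 := by
            simp only [hf] at hzf
            have h3 : z.1 + z.2 = z0.1 + z0.2 := by
              rw [add_assoc, add_assoc] at hzf
              exact add_left_cancel hzf
            rw [sub_eq_sub_iff_add_eq_add, h3, add_comm]
          show z.1 - z0.1 ∈ H1
          rw [this]
          exact H1.sub_mem hz3 k3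
        · intro z hz z' hz' hzz
          rw [Finset.mem_coe, Finset.mem_filter] at hz hz'
          have e1 : z.1 = z'.1 := by simpa using hzz
          have e2 : z.2 = z'.2 := by
            have := hz.2.trans hz'.2.symm
            simp only [hf, e1] at this
            exact add_left_cancel this
          exact Prod.ext e1 e2
    _ ≤ _ := Nat.mul_le_mul_left _ (Finset.card_le_card himg)

theorem filter_split (H : AddSubgroup G) (c : G) (C : Finset G) :
    ((fs H).filter (fun x => c + x ∈ C)).card + ((fs H).filter (fun x => c + x ∉ C)).card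
      = (fs H).card := by
  rw [Finset.card_filter_add_card_filter_not]

/-- A nonempty filtered part of `H1` has at least `|H1 ⊓ H2|` elements. -/
theorem filter_ge (H1 H2 : AddSubgroup G) (P : G → Prop) [DecidablePred P] (c : G)
    (hP : ∀ x z, z ∈ H2 → (P x ↔ P (x + z)))
    (x0 : G) (hx0 : x0 ∈ H1) (hPx : P (c + x0)) :
    (fs (H1 ⊓ H2)).card ≤ ((fs H1).filter (fun x => P (c + x))).card := by
  apply Finset.card_le_card_of_injOn (fun z => x0 + z)
  · intro z hz
    rw [Finset.mem_coe, mem_fs, AddSubgroup.mem_inf] at hz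
    rw [Finset.mem_coe, Finset.mem_filter, mem_fs]
    refine ⟨H1.add_mem hx0 hz.1, ?_⟩
    rw [← add_assoc]
    exact (hP _ _ hz.2).mp hPx
  · intro z _ z' _ h
    exact add_left_cancel h

theorem aux (H1 H2 : AddSubgroup G) (C1 C2 : Finset G) (h1 : H1 ≤ stab C1) (h2 : H2 ≤ stab C2)
    (c : G) (hc2 : c ∈ C2) (hc1 : c ∉ C1)
    (hD1 : (C2 \ C1).card + (fs (H1 ⊓ H2)).card < (fs H1).card)
    (hD2 : (C1 \ C2).card + (fs (H1 ⊓ H2)).card < (fs H2).card) :
    (fs H2).card < (fs H1).card := by
  set q := (fs (H1 ⊓ H2)).card with hq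
  set a := ((fs H2).filter (fun x => c + x ∉ C1)).card with ha
  set a' := ((fs H2).filter (fun x => c + x ∈ C1)).card with ha'
  set b := ((fs H1).filter (fun y => c + y ∈ C2)).card with hb
  set b' := ((fs H1).filter (fun y => c + y ∉ C2)).card with hb'
  have hqpos : 0 < q := fs_card_pos _
  have e1 : a' + a = (fs H2).card := filter_split H2 c C1
  have e2 : b + b' = (fs H1).card := filter_split H1 c C2
  have g1 : a * b ≤ q * (C2 \ C1).card := grid H1 H2 C1 C2 h1 h2 c
  have g2 : b' * a' ≤ q * (C1 \ C2).card := by
    have := grid H2 H1 C2 C1 h2 h1 c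
    rwa [inf_comm] at this
  have i1 : q ≤ a := by
    rw [hq, inf_comm]
    apply filter_ge H2 H1 (fun x => x ∉ C1) c
    · intro x z hz
      rw [not_iff_not]
      exact mem_stab.mp (h1 hz) x
    · exact H2.zero_mem
    · simpa using hc1
  have i2 : q ≤ b := by
    apply filter_ge H1 H2 (fun x => x ∈ C2) c
    · intro x z hz
      exact mem_stab.mp (h2 hz) x
    · exact H1.zero_mem
    · simpa using hc2
  have i3 : b' = 0 ∨ q ≤ b' := by
    rcases Nat.eq_zero_or_pos b' with h | h
    · exact Or.inl h
    · right
      obtain ⟨y, hy⟩ := Finset.card_pos.mp h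
      rw [Finset.mem_filter, mem_fs] at hy
      apply filter_ge H1 H2 (fun x => x ∉ C2) c
      · intro x z hz
        rw [not_iff_not]
        exact mem_stab.mp (h2 hz) x
      · exact hy.1
      · exact hy.2
  have i4 : a' = 0 ∨ q ≤ a' := by
    rcases Nat.eq_zero_or_pos a' with h | h
    · exact Or.inl h
    · right
      obtain ⟨y, hy⟩ := Finset.card_pos.mp h
      rw [Finset.mem_filter, mem_fs] at hy
      rw [hq, inf_comm]
      apply filter_ge H2 H1 (fun x => x ∈ C1) c
      · intro x z hz
        exact mem_stab.mp (h1 hz) x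
      · exact hy.1
      · exact hy.2
  rw [← e1, ← e2]
  rw [← e2] at hD1
  rw [← e1] at hD2
  rcases i3 with i3 | i3
  · exfalso
    rw [i3] at hD1
    have : q * b ≤ q * (C2 \ C1).card := le_trans (Nat.mul_le_mul_right b i1) g1
    have := Nat.le_of_mul_le_mul_left this hqpos
    omega
  · rcases i4 with i4 | i4
    · rw [i4]
      have : q * a ≤ q * (C2 \ C1).card := by
        calc q * a = a * q := Nat.mul_comm _ _
          _ ≤ a * b := Nat.mul_le_mul_left a i2
          _ ≤ _ := g1
      have := Nat.le_of_mul_le_mul_left this hqpos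
      omega
    · exfalso
      obtain ⟨x, hx⟩ := Nat.exists_eq_add_of_le i1
      obtain ⟨y, hy⟩ := Nat.exists_eq_add_of_le i2
      obtain ⟨z, hz⟩ := Nat.exists_eq_add_of_le i3
      obtain ⟨w, hw⟩ := Nat.exists_eq_add_of_le i4
      rw [hx, hy] at g1
      rw [hz, hw] at g2
      rw [hy, hz] at hD1
      rw [hx, hw] at hD2
      have j1 : (C2 \ C1).card + 1 ≤ y + z + q := by omega
      have j2 : (C1 \ C2).card + 1 ≤ x + w + q := by omega
      nlinarith [Nat.mul_le_mul_left q j1, Nat.mul_le_mul_left q j2, Nat.zero_le (x * y),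
        Nat.zero_le (z * w)]

theorem inf_le_stab_union (C1 C2 : Finset G) :
    stab C1 ⊓ stab C2 ≤ stab (C1 ∪ C2) := by
  intro g hg
  rw [AddSubgroup.mem_inf] at hg
  intro x
  rw [Finset.mem_union, Finset.mem_union, mem_stab.mp hg.1 x, mem_stab.mp hg.2 x]

/-- Kneser's union lemma. -/
theorem union_lemma (C1 C2 : Finset G) (n : ℕ)
    (h1 : n ≤ C1.card + (fs (stab C1)).card) (h2 : n ≤ C2.card + (fs (stab C2)).card) :
    n ≤ (C1 ∪ C2).card + (fs (stab (C1 ∪ C2))).card := by
  by_cases hs1 : C1 ⊆ C2
  · rwa [Finset.union_eq_right.mpr hs1]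
  by_cases hs2 : C2 ⊆ C1
  · rwa [Finset.union_eq_left.mpr hs2]
  by_contra hcon
  push Not at hcon
  have hq : (fs (stab C1 ⊓ stab C2)).card ≤ (fs (stab (C1 ∪ C2))).card :=
    Finset.card_le_card (fs_mono (inf_le_stab_union C1 C2))
  have e1 : (C1 ∪ C2).card = C1.card + (C2 \ C1).card := by
    rw [Finset.union_comm, ← Finset.sdiff_union_self_eq_union, Finset.card_union_of_disjoint
      Finset.sdiff_disjoint]
    omega
  have e2 : (C1 ∪ C2).card = C2.card + (C1 \ C2).card := by
    rw [← Finset.sdiff_union_self_eq_union, Finset.card_union_of_disjoint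
      Finset.sdiff_disjoint]
    omega
  obtain ⟨c, hc1, hc2⟩ := Finset.not_subset.mp hs2
  obtain ⟨d, hd1, hd2⟩ := Finset.not_subset.mp hs1
  have k1 := aux (stab C1) (stab C2) C1 C2 le_rfl le_rfl c hc1 hc2 (by omega) (by omega)
  have k2 := aux (stab C2) (stab C1) C2 C1 le_rfl le_rfl d hd1 hd2
    (by rw [inf_comm]; omega) (by rw [inf_comm]; omega)
  omega

/-- For every `b0 ∈ B` there is a large set between `A + b0` and `A + B`. -/
theorem exists_piece (n : ℕ) : ∀ (A B : Finset G), B.card = n → A.Nonempty → ∀ b0 ∈ B,
    ∃ C : Finset G, (∀ a ∈ A, a + b0 ∈ C) ∧ C ⊆ A + B ∧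
      A.card + B.card ≤ C.card + (fs (stab C)).card := by
  induction n using Nat.strong_induction_on with
  | _ n ih =>
    intro A B hB hA b0 hb0
    by_cases hall : ∀ a ∈ A, ∀ b ∈ B, b + (a - b0) ∈ A
    · refine ⟨A.image (fun a => a + b0), ?_, ?_, ?_⟩
      · intro a ha
        exact Finset.mem_image_of_mem _ ha
      · intro x hx
        rw [Finset.mem_image] at hx
        obtain ⟨a, ha, rfl⟩ := hx
        exact Finset.add_mem_add ha hb0
      · rw [Finset.card_image_of_injective _ (add_left_injective b0)]
        apply Nat.add_le_add_left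
        apply Finset.card_le_card_of_injOn (fun b => b - b0)
        · intro b hb
          rw [Finset.mem_coe, mem_fs]
          apply mem_stab_of_forall
          intro x hx
          rw [Finset.mem_image] at hx ⊢
          obtain ⟨a, ha, rfl⟩ := hx
          refine ⟨b + (a - b0), hall a ha b hb, ?_⟩
          show b + (a - b0) + b0 = a + b0 + (b - b0)
          abel
        · intro b _ b' _ h
          exact sub_left_injective h
    · push Not at hall
      obtain ⟨a, ha, b, hb, hab⟩ := hall
      set e := a - b0 with he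
      set A' := A ∪ B.image (fun x => x + e) with hA'
      set B' := B.filter (fun x => x + e ∈ A) with hB'
      have hb0' : b0 ∈ B' := by
        rw [hB', Finset.mem_filter]
        refine ⟨hb0, ?_⟩
        rw [he]
        simpa using ha
      have hlt : B'.card < n := by
        rw [← hB]
        apply Finset.card_lt_card
        refine ⟨Finset.filter_subset _ _, fun hsub => ?_⟩
        have := hsub hb
        rw [hB', Finset.mem_filter] at this
        exact hab this.2
      have hA'ne : A'.Nonempty := ⟨a, Finset.mem_union_left _ ha⟩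
      obtain ⟨C, hC1, hC2, hC3⟩ := ih B'.card hlt A' B' rfl hA'ne b0 hb0'
      refine ⟨C, fun x hx => hC1 x (Finset.mem_union_left _ hx), ?_, ?_⟩
      · intro x hx
        obtain ⟨u, hu, v, hv, rfl⟩ := Finset.mem_add.mp (hC2 hx)
        rw [hB', Finset.mem_filter] at hv
        rw [hA', Finset.mem_union, Finset.mem_image] at hu
        rcases hu with hu | ⟨w, hw, rfl⟩
        · exact Finset.add_mem_add hu hv.1
        · have : w + e + v = (v + e) + w := by abel
          rw [this]
          exact Finset.add_mem_add hv.2 hw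
      · have hcard : A'.card + B'.card = A.card + B.card := by
          have h1 := Finset.card_union_add_card_inter A (B.image (fun x => x + e))
          have h2 : (A ∩ B.image (fun x => x + e)).card = B'.card := by
            have : A ∩ B.image (fun x => x + e) = B'.image (fun x => x + e) := by
              ext y
              simp only [Finset.mem_inter, Finset.mem_image, hB', Finset.mem_filter]
              constructor
              · rintro ⟨hy, x, hx, rfl⟩
                exact ⟨x, ⟨hx, hy⟩, rfl⟩
              · rintro ⟨x, ⟨hx, hy⟩, rfl⟩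
                exact ⟨hy, x, hx, rfl⟩
            rw [this, Finset.card_image_of_injective _ (add_left_injective e)]
          have h3 : (B.image (fun x => x + e)).card = B.card :=
            Finset.card_image_of_injective _ (add_left_injective e)
          rw [hA']
          omega
        omega

/-- **Kneser's theorem** (first form). -/
theorem kneser (A B : Finset G) (hA : A.Nonempty) (hB : B.Nonempty) :
    A.card + B.card ≤ (A + B).card + (fs (stab (A + B))).card := by
  classical
  have hpiece : ∀ b ∈ B, ∃ C : Finset G, (∀ a ∈ A, a + b ∈ C) ∧ C ⊆ A + B ∧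
      A.card + B.card ≤ C.card + (fs (stab C)).card :=
    fun b hb => exists_piece B.card A B rfl hA b hb
  choose! C hC1 hC2 hC3 using hpiece
  have key : ∀ T : Finset G, T.Nonempty → T ⊆ B →
      A.card + B.card ≤ (T.biUnion C).card + (fs (stab (T.biUnion C))).card := by
    intro T hT
    induction hT using Finset.Nonempty.cons_induction with
    | singleton b =>
      intro hsub
      rw [Finset.singleton_biUnion]
      exact hC3 b (hsub (Finset.mem_singleton_self b))
    | cons b T hb hT ih =>
      intro hsub
      rw [Finset.cons_eq_insert, Finset.biUnion_insert]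
      apply union_lemma
      · exact hC3 b (hsub (Finset.mem_cons_self b T))
      · exact ih (fun x hx => hsub (Finset.mem_cons.mpr (Or.inr hx)))
  have hU : B.biUnion C = A + B := by
    apply Finset.Subset.antisymm
    · intro x hx
      rw [Finset.mem_biUnion] at hx
      obtain ⟨b, hb, hx⟩ := hx
      exact hC2 b hb hx
    · intro x hx
      obtain ⟨a, ha, b, hb, rfl⟩ := Finset.mem_add.mp hx
      rw [Finset.mem_biUnion]
      exact ⟨b, hb, hC1 b hb a ha⟩
  have := key B hB (Finset.Subset.refl B)
  rwa [hU] at this

theorem add_fs_stab (C : Finset G) (H : AddSubgroup G) (hH : H ≤ stab C) : C + fs H = C := by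
  apply Finset.Subset.antisymm
  · intro x hx
    obtain ⟨c, hc, g, hg, rfl⟩ := Finset.mem_add.mp hx
    exact stab_add (hH (mem_fs.mp hg)) hc
  · intro x hx
    have := Finset.add_mem_add hx (mem_fs.mpr H.zero_mem)
    rwa [add_zero] at this

/-- **Kneser's theorem** (second form). -/
theorem kneser' (A B : Finset G) (hA : A.Nonempty) (hB : B.Nonempty) :
    (A + fs (stab (A + B))).card + (B + fs (stab (A + B))).card
      ≤ (A + B).card + (fs (stab (A + B))).card := by
  set H := stab (A + B) with hH
  have hHH : fs H + fs H = fs H := by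
    apply add_fs_stab
    intro g hg x
    rw [mem_fs, mem_fs]
    exact ⟨fun hx => H.add_mem hx hg, fun hx => by
      have := H.sub_mem hx hg
      rwa [add_sub_cancel_right] at this⟩
  have e : (A + fs H) + (B + fs H) = A + B := by
    have h1 : (A + B) + fs H = A + B := add_fs_stab _ _ le_rfl
    calc (A + fs H) + (B + fs H) = (A + B) + (fs H + fs H) := by
          rw [add_add_add_comm]
      _ = A + B := by rw [hHH, h1]
  have := kneser (A + fs H) (B + fs H) (hA.add (fs_nonempty H)) (hB.add (fs_nonempty H))
  rw [e] at this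
  exact this

theorem kneser_aperiodic (A B : Finset G) (hA : A.Nonempty) (hB : B.Nonempty)
    (h : stab (A + B) = ⊥) : A.card + B.card ≤ (A + B).card + 1 := by
  have := kneser A B hA hB
  have h1 : (fs (stab (A + B))).card = 1 := by
    rw [h]
    rw [Finset.card_eq_one]
    refine ⟨0, ?_⟩
    ext x
    simp [mem_fs]
  omega

end Pool.Agent.Helper482.HszKneser

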