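import Mathlib
import Pool.Agent.Helper482.HszKneser

set_option autoImplicit false
set_option linter.unusedSectionVars false

open scoped Pointwise
open Finset

namespace Pool.Agent.Helper482.HszInt

open Pool.Agent.Helper482.HszKneser

theorem cd_nat (X Y : Finset ℕ) (hX : X.Nonempty) (hY : Y.Nonempty) :
    X.card + Y.card ≤ (X + Y).card + 1 := by
  have := cauchy_davenport_add_of_linearOrder_isCancelAdd hX hY
  omega

section ls

variable {N : ℕ} [NeZero N]

/-- Reduction modulo `N`. -/
def im (N : ℕ) (X : Finset ℕ) : Finset (ZMod N) := X.image (fun n : ℕ => (n : ZMod N))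

theorem mem_im {X : Finset ℕ} {z : ZMod N} : z ∈ im N X ↔ ∃ n ∈ X, (n : ZMod N) = z := by
  unfold im
  rw [Finset.mem_image]

theorem cast_inj_lt {a b : ℕ} (ha : a < N) (hb : b < N) (h : (a : ZMod N) = b) : a = b := by
  rw [ZMod.natCast_eq_natCast_iff'] at h
  rwa [Nat.mod_eq_of_lt ha, Nat.mod_eq_of_lt hb] at h

theorem card_le_im_of_not_mem (X : Finset ℕ) (hX : ∀ x ∈ X, x ≤ N) (hN : N ∉ X) :
    X.card ≤ (im N X).card := by
  unfold im
  rw [Finset.card_image_of_injOn]
  intro a ha b hb h
  have ha' : a < N := lt_of_le_of_ne (hX a ha) (fun h => hN (h ▸ ha))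
  have hb' : b < N := lt_of_le_of_ne (hX b hb) (fun h => hN (h ▸ hb))
  exact cast_inj_lt ha' hb' h

theorem card_le_im (X : Finset ℕ) (hX : ∀ x ∈ X, x ≤ N) :
    X.card ≤ (im N X).card + 1 := by
  have h1 := card_le_im_of_not_mem (X.erase N) (fun x hx => hX x (Finset.mem_of_mem_erase hx))
    (Finset.notMem_erase N X)
  have h2 : (im N (X.erase N)).card ≤ (im N X).card := by
    apply Finset.card_le_card
    intro z hz
    rw [mem_im] at hz ⊢
    obtain ⟨n, hn, rfl⟩ := hz
    exact ⟨n, Finset.mem_of_mem_erase hn, rfl⟩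
  have h3 := Finset.pred_card_le_card_erase (s := X) (a := N)
  omega

theorem fiber_count (A B : Finset ℕ) (h0A : 0 ∈ A) (hNA : N ∈ A) (h0B : 0 ∈ B)
    (hB : ∀ b ∈ B, b ≤ N) (Z : Finset (ZMod N)) (hZ : Z ⊆ im N A + im N B) :
    Z.card + (B.filter (fun b : ℕ => (b : ZMod N) ∈ Z)).card
      ≤ ((A + B).filter (fun c : ℕ => (c : ZMod N) ∈ Z)).card := by
  classical
  have hN0 : 0 < N := Nat.pos_of_ne_zero (NeZero.ne N)
  set W := (B.filter (fun b : ℕ => (b : ZMod N) ∈ Z)).image (fun b => b + N) with hW
  set F := (A + B).filter (fun c : ℕ => (c : ZMod N) ∈ Z) with hF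
  have hWc : W.card = (B.filter (fun b : ℕ => (b : ZMod N) ∈ Z)).card := by
    rw [hW, Finset.card_image_of_injective _ (add_left_injective N)]
  have hWF : W ⊆ F := by
    intro w hw
    rw [hW, Finset.mem_image] at hw
    obtain ⟨b, hb, rfl⟩ := hw
    rw [Finset.mem_filter] at hb
    rw [hF, Finset.mem_filter]
    refine ⟨?_, by simpa using hb.2⟩
    rw [add_comm b N]
    exact Finset.add_mem_add hNA hb.1
  have hE : Z ⊆ (F \ W).image (fun n : ℕ => (n : ZMod N)) := by
    intro z hz
    obtain ⟨u, hu, v, hv, huv⟩ := Finset.mem_add.mp (hZ hz)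
    obtain ⟨a, ha, rfl⟩ := mem_im.mp hu
    obtain ⟨b, hb, rfl⟩ := mem_im.mp hv
    rw [Finset.mem_image]
    by_cases h1 : a + b ∈ W
    · rw [hW, Finset.mem_image] at h1
      obtain ⟨b', hb', hab⟩ := h1
      rw [Finset.mem_filter] at hb'
      have hz' : (b' : ZMod N) = z := by
        rw [← huv]
        have : ((b' + N : ℕ) : ZMod N) = ((a + b : ℕ) : ZMod N) := by rw [hab]
        push_cast at this
        simpa using this
      by_cases h2 : b' ∈ W
      · rw [hW, Finset.mem_image] at h2
        obtain ⟨b'', hb'', hbb⟩ := h2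
        have hle := hB b' hb'.1
        have hb0 : b'' = 0 := by omega
        have hbN : b' = N := by omega
        refine ⟨0, ?_, ?_⟩
        · rw [Finset.mem_sdiff, hF, Finset.mem_filter]
          refine ⟨⟨?_, ?_⟩, ?_⟩
          · simpa using Finset.add_mem_add h0A h0B
          · have := hb'.2
            rw [hbN] at this
            simpa using this
          · rw [hW, Finset.mem_image]
            rintro ⟨t, _, ht⟩
            omega
        · rw [← hz', hbN]
          simp
      · refine ⟨b', ?_, hz'⟩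
        rw [Finset.mem_sdiff, hF, Finset.mem_filter]
        refine ⟨⟨?_, hb'.2⟩, h2⟩
        simpa using Finset.add_mem_add h0A hb'.1
    · refine ⟨a + b, ?_, by push_cast; exact huv⟩
      rw [Finset.mem_sdiff, hF, Finset.mem_filter]
      refine ⟨⟨Finset.add_mem_add ha hb, ?_⟩, h1⟩
      push_cast
      rw [huv]
      exact hz
  have h1 : Z.card ≤ (F \ W).card := le_trans (Finset.card_le_card hE) Finset.card_image_le
  have h2 : (F \ W).card + W.card = F.card := Finset.card_sdiff_add_card_eq_card hWF
  omega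

theorem im_add (A B : Finset ℕ) : im N (A + B) = im N A + im N B := by
  ext z
  rw [mem_im, Finset.mem_add]
  constructor
  · rintro ⟨n, hn, rfl⟩
    obtain ⟨a, ha, b, hb, rfl⟩ := Finset.mem_add.mp hn
    exact ⟨a, mem_im.mpr ⟨a, ha, rfl⟩, b, mem_im.mpr ⟨b, hb, rfl⟩, by push_cast; rfl⟩
  · rintro ⟨u, hu, v, hv, rfl⟩
    obtain ⟨a, ha, rfl⟩ := mem_im.mp hu
    obtain ⟨b, hb, rfl⟩ := mem_im.mp hv
    exact ⟨a + b, Finset.add_mem_add ha hb, by push_cast; rfl⟩

/-- A subgroup containing the residues of all members of a family with no common divisor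
is everything. -/
theorem top_of_gcd (A B : Finset ℕ)
    (hg : ∀ d : ℕ, (∀ x ∈ A, d ∣ x) → (∀ x ∈ B, d ∣ x) → d = 1)
    (H : AddSubgroup (ZMod N)) (hA : ∀ a ∈ A, (a : ZMod N) ∈ H) (hB : ∀ b ∈ B, (b : ZMod N) ∈ H) :
    ∀ z : ZMod N, z ∈ H := by
  obtain ⟨g, hgen⟩ := Int.subgroup_cyclic (H.comap (Int.castAddHom (ZMod N)))
  have hdiv : ∀ n : ℕ, (n : ZMod N) ∈ H → g.natAbs ∣ n := by
    intro n hn
    have h1 : (n : ℤ) ∈ H.comap (Int.castAddHom (ZMod N)) := by
      rw [AddSubgroup.mem_comap]
      simpa using hn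
    rw [hgen, AddSubgroup.mem_closure_singleton] at h1
    obtain ⟨k, hk⟩ := h1
    rw [← Int.natCast_dvd_natCast, ← hk]
    simp
  have h1 : g.natAbs = 1 := hg _ (fun x hx => hdiv x (hA x hx)) (fun x hx => hdiv x (hB x hx))
  have h2 : (1 : ℤ) ∈ H.comap (Int.castAddHom (ZMod N)) := by
    rw [hgen, AddSubgroup.mem_closure_singleton]
    rcases Int.natAbs_eq g with h | h
    · exact ⟨1, by rw [h, h1]; simp⟩
    · exact ⟨-1, by rw [h, h1]; simp⟩
  have h3 : (1 : ZMod N) ∈ H := by
    rw [AddSubgroup.mem_comap] at h2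
    simpa using h2
  intro z
  have h4 := H.nsmul_mem h3 z.val
  have h5 : z.val • (1 : ZMod N) = z := by
    rw [nsmul_eq_mul, mul_one]
    exact ZMod.natCast_zmod_val z
  rwa [h5] at h4

/-- The Lev-Smeliansky type bound. -/
theorem ls1 (A B : Finset ℕ) (h0A : 0 ∈ A) (hNA : N ∈ A) (h0B : 0 ∈ B)
    (hA : ∀ a ∈ A, a ≤ N) (hB : ∀ b ∈ B, b ≤ N)
    (hg : ∀ d : ℕ, (∀ x ∈ A, d ∣ x) → (∀ x ∈ B, d ∣ x) → d = 1)
    (hne : im N A + im N B ≠ Finset.univ) :
    (A.card + 2 * B.card ≤ (A + B).card + 3 ∧
      (N ∉ B → A.card + 2 * B.card ≤ (A + B).card + 2)) ∨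
    2 * A.card + B.card ≤ (A + B).card + 2 := by
  classical
  have hN0 : 0 < N := Nat.pos_of_ne_zero (NeZero.ne N)
  set H := stab (im N A + im N B) with hH
  have h0im : (0 : ZMod N) ∈ im N A + im N B := by
    rw [Finset.mem_add]
    exact ⟨0, mem_im.mpr ⟨0, h0A, by simp⟩, 0, mem_im.mpr ⟨0, h0B, by simp⟩, by simp⟩
  by_cases hu : ∀ a ∈ A, (a : ZMod N) ∈ H
  · right
    have hex : ∃ b ∈ B, (b : ZMod N) ∉ H := by
      by_contra hcon
      push Not at hcon
      apply hne
      rw [Finset.eq_univ_iff_forall]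
      intro z
      have hz := top_of_gcd A B hg H hu hcon z
      have := stab_add hz h0im
      simpa using this
    obtain ⟨b1, hb1, hb1H⟩ := hex
    set B0 := B.filter (fun b : ℕ => (b : ZMod N) ∈ H) with hB0
    set B1 := B.filter (fun b : ℕ => (b : ZMod N) ∉ H) with hB1
    have hc : B0.card + B1.card = B.card := by
      rw [hB0, hB1]
      exact Finset.card_filter_add_card_filter_not _
    have h1 : A.card + B0.card ≤ (A + B0).card + 1 := by
      apply cd_nat
      · exact ⟨0, h0A⟩
      · exact ⟨0, by rw [hB0, Finset.mem_filter]; exact ⟨h0B, by simp [H.zero_mem]⟩⟩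
    have h2 : A.card + B1.card ≤ (A + B1).card + 1 := by
      apply cd_nat
      · exact ⟨0, h0A⟩
      · exact ⟨b1, by rw [hB1, Finset.mem_filter]; exact ⟨hb1, hb1H⟩⟩
    have hdis : Disjoint (A + B0) (A + B1) := by
      rw [Finset.disjoint_left]
      intro c hc0 hc1
      obtain ⟨a, ha, b, hb, rfl⟩ := Finset.mem_add.mp hc0
      obtain ⟨a', ha', b', hb', hab⟩ := Finset.mem_add.mp hc1
      rw [hB0, Finset.mem_filter] at hb
      rw [hB1, Finset.mem_filter] at hb'
      apply hb'.2
      have e1 : ((a' + b' : ℕ) : ZMod N) = ((a + b : ℕ) : ZMod N) := by rw [hab]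
      push_cast at e1
      have e2 : (b' : ZMod N) = (a : ZMod N) + b - a' := by rw [← e1]; ring
      rw [e2]
      exact H.sub_mem (H.add_mem (hu a ha) hb.2) (hu a' ha')
    have hsub : (A + B0) ∪ (A + B1) ⊆ A + B := by
      apply Finset.union_subset
      · exact Finset.add_subset_add_left (Finset.filter_subset _ _)
      · exact Finset.add_subset_add_left (Finset.filter_subset _ _)
    have h3 := Finset.card_le_card hsub
    rw [Finset.card_union_of_disjoint hdis] at h3
    omega
  · left
    push Not at hu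
    obtain ⟨a2, ha2, ha2H⟩ := hu
    have hK := kneser' (im N A) (im N B) ⟨0, mem_im.mpr ⟨0, h0A, by simp⟩⟩
      ⟨0, mem_im.mpr ⟨0, h0B, by simp⟩⟩
    rw [← hH] at hK
    have hh := fs_card_pos H
    -- two cosets in the first set
    have hcos : ∀ (g : ZMod N), ((fs H).image (fun x => g + x)).card = (fs H).card := by
      intro g
      exact Finset.card_image_of_injective _ (add_right_injective g)
    have hmemcos : ∀ (g z : ZMod N), z ∈ (fs H).image (fun x => g + x) ↔ z - g ∈ H := by
      intro g z
      rw [Finset.mem_image]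
      constructor
      · rintro ⟨x, hx, rfl⟩
        simpa using mem_fs.mp hx
      · intro h
        exact ⟨z - g, mem_fs.mpr h, by ring⟩
    have h2h : 2 * (fs H).card ≤ (im N A + fs H).card := by
      have hd : Disjoint ((fs H).image (fun x => (0 : ZMod N) + x))
          ((fs H).image (fun x => (a2 : ZMod N) + x)) := by
        rw [Finset.disjoint_left]
        intro z hz hz'
        rw [hmemcos] at hz hz'
        apply ha2H
        have := H.sub_mem hz hz'
        simpa using this
      have hs : (fs H).image (fun x => (0 : ZMod N) + x) ∪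
          (fs H).image (fun x => (a2 : ZMod N) + x) ⊆ im N A + fs H := by
        apply Finset.union_subset
        · intro z hz
          rw [Finset.mem_image] at hz
          obtain ⟨x, hx, rfl⟩ := hz
          exact Finset.add_mem_add (mem_im.mpr ⟨0, h0A, by simp⟩) hx
        · intro z hz
          rw [Finset.mem_image] at hz
          obtain ⟨x, hx, rfl⟩ := hz
          exact Finset.add_mem_add (mem_im.mpr ⟨a2, ha2, rfl⟩) hx
      have := Finset.card_le_card hs
      rw [Finset.card_union_of_disjoint hd, hcos, hcos] at this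
      omega
    have hex : ∃ z ∈ im N A + im N B, z ∉ im N B + fs H := by
      by_contra hcon
      push Not at hcon
      have := Finset.card_le_card hcon
      omega
    obtain ⟨z, hz, hzB⟩ := hex
    obtain ⟨u, hu, v, hv, huv⟩ := Finset.mem_add.mp hz
    obtain ⟨a1, ha1, rfl⟩ := mem_im.mp hu
    obtain ⟨b1, hb1, rfl⟩ := mem_im.mp hv
    set A1 := A.filter (fun a : ℕ => (a : ZMod N) - a1 ∈ H) with hA1
    set B1 := B.filter (fun b : ℕ => (b : ZMod N) - b1 ∈ H) with hB1
    set Z := (im N A + im N B).filter (fun t => t - z ∉ H) with hZ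
    -- the first class is not the trivial one
    have ha1H : (a1 : ZMod N) ∉ H := by
      intro h
      apply hzB
      rw [← huv, add_comm (a1 : ZMod N) (b1 : ZMod N)]
      exact Finset.add_mem_add (mem_im.mpr ⟨b1, hb1, rfl⟩) (mem_fs.mpr h)
    have hZc : (im N A + im N B).card ≤ Z.card + (fs H).card := by
      have h1 : (im N A + im N B).filter (fun t => t - z ∈ H) ⊆
          (fs H).image (fun x => z + x) := by
        intro t ht
        rw [hmemcos]
        exact (Finset.mem_filter.mp ht).2
      have h2 := Finset.card_le_card h1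
      rw [hcos] at h2
      have h3 : ((im N A + im N B).filter (fun t => t - z ∈ H)).card + Z.card
          = (im N A + im N B).card := by
        rw [hZ]
        exact Finset.card_filter_add_card_filter_not _
      omega
    have hFC := fiber_count A B h0A hNA h0B hB Z (Finset.filter_subset _ _)
    have hBZ : B.filter (fun b : ℕ => (b : ZMod N) ∈ Z) = B := by
      apply Finset.filter_true_of_mem
      intro b hb
      rw [hZ, Finset.mem_filter]
      refine ⟨?_, ?_⟩
      · rw [Finset.mem_add]
        exact ⟨0, mem_im.mpr ⟨0, h0A, by simp⟩, b, mem_im.mpr ⟨b, hb, rfl⟩, by simp⟩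
      · intro h
        apply hzB
        have h' := H.neg_mem h
        rw [Finset.mem_add]
        exact ⟨b, mem_im.mpr ⟨b, hb, rfl⟩, -((b : ZMod N) - z), mem_fs.mpr h', by ring⟩
    rw [hBZ] at hFC
    -- the special class
    have hCs : A1.card + B1.card ≤
        ((A + B).filter (fun c : ℕ => (c : ZMod N) ∉ Z)).card + 1 := by
      have h1 : A1.card + B1.card ≤ (A1 + B1).card + 1 := by
        apply cd_nat
        · exact ⟨a1, by rw [hA1, Finset.mem_filter]; exact ⟨ha1, by simp [H.zero_mem]⟩⟩
        · exact ⟨b1, by rw [hB1, Finset.mem_filter]; exact ⟨hb1, by simp [H.zero_mem]⟩⟩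
      have h2 : A1 + B1 ⊆ (A + B).filter (fun c : ℕ => (c : ZMod N) ∉ Z) := by
        intro c hc
        obtain ⟨a, ha, b, hb, rfl⟩ := Finset.mem_add.mp hc
        rw [hA1, Finset.mem_filter] at ha
        rw [hB1, Finset.mem_filter] at hb
        rw [Finset.mem_filter]
        refine ⟨Finset.add_mem_add ha.1 hb.1, ?_⟩
        intro hin
        rw [hZ, Finset.mem_filter] at hin
        apply hin.2
        rw [← huv]
        push_cast
        have := H.add_mem ha.2 hb.2
        convert this using 1
        ring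
      have := Finset.card_le_card h2
      omega
    have htot : ((A + B).filter (fun c : ℕ => (c : ZMod N) ∈ Z)).card
        + ((A + B).filter (fun c : ℕ => (c : ZMod N) ∉ Z)).card = (A + B).card :=
      Finset.card_filter_add_card_filter_not _
    -- lower bounds for the thickened sets
    have hcosA : (im N (A \ A1)).card + (fs H).card ≤ (im N A + fs H).card := by
      have hd : Disjoint (im N (A \ A1)) ((fs H).image (fun x => (a1 : ZMod N) + x)) := by
        rw [Finset.disjoint_left]
        intro t ht ht'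
        rw [hmemcos] at ht'
        obtain ⟨n, hn, rfl⟩ := mem_im.mp ht
        rw [Finset.mem_sdiff, hA1, Finset.mem_filter] at hn
        exact hn.2 ⟨hn.1, ht'⟩
      have hs : im N (A \ A1) ∪ (fs H).image (fun x => (a1 : ZMod N) + x) ⊆ im N A + fs H := by
        apply Finset.union_subset
        · intro t ht
          obtain ⟨n, hn, rfl⟩ := mem_im.mp ht
          rw [Finset.mem_add]
          exact ⟨n, mem_im.mpr ⟨n, (Finset.mem_sdiff.mp hn).1, rfl⟩, 0,
            mem_fs.mpr H.zero_mem, by simp⟩
        · intro t ht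
          rw [Finset.mem_image] at ht
          obtain ⟨x, hx, rfl⟩ := ht
          exact Finset.add_mem_add (mem_im.mpr ⟨a1, ha1, rfl⟩) hx
      have := Finset.card_le_card hs
      rw [Finset.card_union_of_disjoint hd, hcos] at this
      exact this
    have hcosB : (im N (B \ B1)).card + (fs H).card ≤ (im N B + fs H).card := by
      have hd : Disjoint (im N (B \ B1)) ((fs H).image (fun x => (b1 : ZMod N) + x)) := by
        rw [Finset.disjoint_left]
        intro t ht ht'
        rw [hmemcos] at ht'
        obtain ⟨n, hn, rfl⟩ := mem_im.mp ht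
        rw [Finset.mem_sdiff, hB1, Finset.mem_filter] at hn
        exact hn.2 ⟨hn.1, ht'⟩
      have hs : im N (B \ B1) ∪ (fs H).image (fun x => (b1 : ZMod N) + x) ⊆ im N B + fs H := by
        apply Finset.union_subset
        · intro t ht
          obtain ⟨n, hn, rfl⟩ := mem_im.mp ht
          rw [Finset.mem_add]
          exact ⟨n, mem_im.mpr ⟨n, (Finset.mem_sdiff.mp hn).1, rfl⟩, 0,
            mem_fs.mpr H.zero_mem, by simp⟩
        · intro t ht
          rw [Finset.mem_image] at ht
          obtain ⟨x, hx, rfl⟩ := ht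
          exact Finset.add_mem_add (mem_im.mpr ⟨b1, hb1, rfl⟩) hx
      have := Finset.card_le_card hs
      rw [Finset.card_union_of_disjoint hd, hcos] at this
      exact this
    have hA3 := card_le_im (N := N) (A \ A1) (fun x hx => hA x (Finset.mem_sdiff.mp hx).1)
    have hB3 := card_le_im (N := N) (B \ B1) (fun x hx => hB x (Finset.mem_sdiff.mp hx).1)
    have hA4 : (A \ A1).card + A1.card = A.card :=
      Finset.card_sdiff_add_card_eq_card (Finset.filter_subset _ _)
    have hB4 : (B \ B1).card + B1.card = B.card :=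
      Finset.card_sdiff_add_card_eq_card (Finset.filter_subset _ _)
    refine ⟨by omega, fun hNB => ?_⟩
    have hB5 := card_le_im_of_not_mem (N := N) (B \ B1)
      (fun x hx => hB x (Finset.mem_sdiff.mp hx).1) (fun h => hNB (Finset.mem_sdiff.mp h).1)
    omega

theorem univ_count (A B : Finset ℕ) (h0A : 0 ∈ A) (hNA : N ∈ A) (h0B : 0 ∈ B)
    (hB : ∀ b ∈ B, b ≤ N) (hu : im N A + im N B = Finset.univ) :
    N + B.card ≤ (A + B).card := by
  have h := fiber_count A B h0A hNA h0B hB Finset.univ (by rw [hu])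
  simp only [Finset.mem_univ, Finset.filter_true, Finset.card_univ, ZMod.card] at h
  exact h

theorem univ_pq (A B : Finset ℕ) (h0A : 0 ∈ A) (h0B : 0 ∈ B) (hA : ∀ a ∈ A, a ≤ N)
    (hB : ∀ b ∈ B, b ≤ N) (hu : im N A + im N B = Finset.univ) (z : ℕ) (hz : z < N) :
    z ∈ A + B ∨ z + N ∈ A + B := by
  have h1 : (z : ZMod N) ∈ im N (A + B) := by
    rw [im_add, hu]
    exact Finset.mem_univ _
  obtain ⟨c, hc, hcz⟩ := mem_im.mp h1
  obtain ⟨a, ha, b, hb, hab⟩ := Finset.mem_add.mp hc
  have h2 : c ≤ 2 * N := by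
    have := hA a ha
    have := hB b hb
    omega
  rw [ZMod.natCast_eq_natCast_iff'] at hcz
  rw [Nat.mod_eq_of_lt hz] at hcz
  have h3 := Nat.div_add_mod c N
  rw [hcz] at h3
  have hq : c / N ≤ 2 := by
    by_contra hq
    push Not at hq
    have : N * 3 ≤ N * (c / N) := Nat.mul_le_mul_left _ hq
    omega
  interval_cases hcase : c / N
  · left
    have : z = c := by omega
    rw [this]; exact hc
  · right
    have : z + N = c := by omega
    rw [this]; exact hc
  · left
    have : z = 0 := by omega
    rw [this]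
    simpa using Finset.add_mem_add h0A h0B

end ls

end Pool.Agent.Helper482.HszInt
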