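import Mathlib
import Pool.Agent.Helper482.HszInt

set_option autoImplicit false
set_option linter.unusedSectionVars false

open scoped Pointwise
open Finset

namespace Pool.Agent.Helper482.HszInt

theorem cnt_left (A B : Finset ℕ) (x : ℕ) (hx : x ∉ A + B) :
    (A.filter (fun a => a ≤ x)).card + (B.filter (fun a => a ≤ x)).card ≤ x + 1 := by
  classical
  have hinj : ((B.filter (fun a => a ≤ x)).image (fun t => x - t)).card
      = (B.filter (fun a => a ≤ x)).card := by
    apply Finset.card_image_of_injOn
    intro s hs t ht hst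
    rw [Finset.mem_coe, Finset.mem_filter] at hs ht
    simp only at hst
    omega
  have hdis : Disjoint (A.filter (fun a => a ≤ x))
      ((B.filter (fun a => a ≤ x)).image (fun t => x - t)) := by
    rw [Finset.disjoint_left]
    intro a ha ha'
    rw [Finset.mem_filter] at ha
    rw [Finset.mem_image] at ha'
    obtain ⟨t, ht, hat⟩ := ha'
    rw [Finset.mem_filter] at ht
    apply hx
    have : x = a + t := by omega
    rw [this]
    exact Finset.add_mem_add ha.1 ht.1
  have hsub : (A.filter (fun a => a ≤ x)) ∪
      ((B.filter (fun a => a ≤ x)).image (fun t => x - t)) ⊆ Finset.range (x + 1) := by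
    intro z hz
    rw [Finset.mem_range]
    rw [Finset.mem_union, Finset.mem_filter, Finset.mem_image] at hz
    rcases hz with h | ⟨t, _, h⟩
    · omega
    · omega
  have := Finset.card_le_card hsub
  rw [Finset.card_union_of_disjoint hdis, hinj, Finset.card_range] at this
  exact this

theorem cnt_right (A B : Finset ℕ) (N b y : ℕ) (hA : ∀ a ∈ A, a ≤ N) (hB : ∀ x ∈ B, x ≤ b)
    (hbN : b ≤ N) (hyb : y ≤ b + 1) (hy : y + N ∉ A + B) :
    (A.filter (fun a => N + y ≤ a + b)).card + (B.filter (fun a => y ≤ a)).card + y ≤ b + 1 := by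
  classical
  have hinj : ((B.filter (fun a => y ≤ a)).image (fun t => N + y - t)).card
      = (B.filter (fun a => y ≤ a)).card := by
    apply Finset.card_image_of_injOn
    intro s hs t ht hst
    rw [Finset.mem_coe, Finset.mem_filter] at hs ht
    have := hB s hs.1
    have := hB t ht.1
    simp only at hst
    omega
  have hdis : Disjoint (A.filter (fun a => N + y ≤ a + b))
      ((B.filter (fun a => y ≤ a)).image (fun t => N + y - t)) := by
    rw [Finset.disjoint_left]
    intro a ha ha'
    rw [Finset.mem_filter] at ha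
    rw [Finset.mem_image] at ha'
    obtain ⟨t, ht, hat⟩ := ha'
    rw [Finset.mem_filter] at ht
    have := hB t ht.1
    apply hy
    have : y + N = a + t := by omega
    rw [this]
    exact Finset.add_mem_add ha.1 ht.1
  have hsub : (A.filter (fun a => N + y ≤ a + b)) ∪
      ((B.filter (fun a => y ≤ a)).image (fun t => N + y - t)) ⊆
        Finset.Ico (N + y - b) (N + 1) := by
    intro z hz
    rw [Finset.mem_Ico]
    rw [Finset.mem_union, Finset.mem_filter, Finset.mem_image] at hz
    rcases hz with h | ⟨t, ht, h⟩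
    · have := hA z h.1
      omega
    · rw [Finset.mem_filter] at ht
      have := hB t ht.1
      omega
  have := Finset.card_le_card hsub
  rw [Finset.card_union_of_disjoint hdis, hinj, Nat.card_Ico] at this
  omega

theorem wo_core (A B : Finset ℕ) (N b m : ℕ) (h0A : 0 ∈ A) (hNA : N ∈ A) (hA : ∀ a ∈ A, a ≤ N)
    (h0B : 0 ∈ B) (hB : ∀ x ∈ B, x ≤ b) (hbN : b ≤ N)
    (hPQ : ∀ z, z < N → z ∈ A + B ∨ z + N ∈ A + B)
    (hC : (A + B).card ≤ A.card + B.card + m) (hN : N ≤ A.card + m) (hBm : m + 2 ≤ B.card)
    (x y : ℕ) (hyx : y < x) (hxb : x ≤ b) (hxN : x < N) (hx : x ∉ A + B) (hy : y + N ∉ A + B)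
    (hmid : ∀ z, y < z → z < x → z ∈ A + B ∧ z + N ∈ A + B) :
    B.card + N ≤ m + 3 + b := by
  classical
  have hb := cnt_left A B x hx
  have hc := cnt_right A B N b y hA hB hbN (by omega) hy
  -- the union of the two halves
  set U1 := (Finset.range (N + 1)).filter (fun z => z ∈ A + B) with hU1
  set U2 := (Finset.range (N + 1)).filter (fun z => z + N ∈ A + B) with hU2
  have h1 : U1.card + U2.card ≤ (A + B).card + 1 := by
    have e1 : (U2.image (fun z => z + N)).card = U2.card :=
      Finset.card_image_of_injective _ (add_left_injective N)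
    have e2 : U1 ∪ U2.image (fun z => z + N) ⊆ A + B := by
      apply Finset.union_subset
      · intro z hz
        rw [hU1, Finset.mem_filter] at hz
        exact hz.2
      · intro z hz
        rw [Finset.mem_image] at hz
        obtain ⟨w, hw, rfl⟩ := hz
        rw [hU2, Finset.mem_filter] at hw
        exact hw.2
    have e3 : U1 ∩ U2.image (fun z => z + N) ⊆ {N} := by
      intro z hz
      rw [Finset.mem_inter, Finset.mem_image, hU1, Finset.mem_filter, Finset.mem_range] at hz
      obtain ⟨⟨hz1, _⟩, w, _, hw⟩ := hz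
      rw [Finset.mem_singleton]
      omega
    have e4 := Finset.card_union_add_card_inter U1 (U2.image (fun z => z + N))
    have e5 := Finset.card_le_card e2
    have e6 := Finset.card_le_card e3
    rw [Finset.card_singleton] at e6
    omega
  have hNC : N ∈ A + B := by simpa using Finset.add_mem_add hNA h0B
  have h2 : Finset.range (N + 1) ⊆ U1 ∪ U2 := by
    intro z hz
    rw [Finset.mem_union, hU1, hU2, Finset.mem_filter, Finset.mem_filter]
    rw [Finset.mem_range] at hz
    by_cases hzN : z = N
    · left
      rw [hzN]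
      exact ⟨by simp, hNC⟩
    · rcases hPQ z (by omega) with h | h
      · left; exact ⟨by simp; omega, h⟩
      · right; exact ⟨by simp; omega, h⟩
  have h3 : B ∪ Finset.Ioo y x ⊆ U1 ∩ U2 := by
    intro z hz
    rw [Finset.mem_inter, hU1, hU2, Finset.mem_filter, Finset.mem_filter, Finset.mem_range]
    rw [Finset.mem_union, Finset.mem_Ioo] at hz
    rcases hz with h | h
    · have hzb := hB z h
      refine ⟨⟨by omega, by simpa using Finset.add_mem_add h0A h⟩, by omega, ?_⟩
      rw [add_comm z N]
      exact Finset.add_mem_add hNA h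
    · have := hmid z h.1 h.2
      exact ⟨⟨by omega, this.1⟩, by omega, this.2⟩
  have h4 := Finset.card_union_add_card_inter U1 U2
  have h5 := Finset.card_le_card h2
  have h6 := Finset.card_le_card h3
  have h7 := Finset.card_union_add_card_inter B (Finset.Ioo y x)
  rw [Finset.card_range] at h5
  rw [Nat.card_Ioo] at h7
  -- covering B
  have h8 : B ⊆ (B.filter (fun a => a ≤ x)) ∪ (B.filter (fun a => y ≤ a)) := by
    intro z hz
    rw [Finset.mem_union, Finset.mem_filter, Finset.mem_filter]
    rcases le_total z x with h | h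
    · left; exact ⟨hz, h⟩
    · right; exact ⟨hz, by omega⟩
  have h9 : B ∩ Finset.Ioo y x ⊆ (B.filter (fun a => a ≤ x)) ∩ (B.filter (fun a => y ≤ a)) := by
    intro z hz
    rw [Finset.mem_inter, Finset.mem_Ioo] at hz
    rw [Finset.mem_inter, Finset.mem_filter, Finset.mem_filter]
    exact ⟨⟨hz.1, by omega⟩, hz.1, by omega⟩
  have h10 := Finset.card_union_add_card_inter (B.filter (fun a => a ≤ x))
    (B.filter (fun a => y ≤ a))
  have h11 := Finset.card_le_card h8
  have h12 := Finset.card_le_card h9
  -- covering A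
  have h13 : A ⊆ (A.filter (fun a => a ≤ x)) ∪ (A.filter (fun a => N + y ≤ a + b)) ∪
      Finset.Ioo x (N + y - b) := by
    intro z hz
    rw [Finset.mem_union, Finset.mem_union, Finset.mem_filter, Finset.mem_filter,
      Finset.mem_Ioo]
    by_cases h : z ≤ x
    · left; left; exact ⟨hz, h⟩
    · by_cases h' : N + y ≤ z + b
      · left; right; exact ⟨hz, h'⟩
      · right; omega
  have h14 := Finset.card_le_card h13
  have h15 := Finset.card_union_le ((A.filter (fun a => a ≤ x)) ∪
    (A.filter (fun a => N + y ≤ a + b))) (Finset.Ioo x (N + y - b))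
  have h16 := Finset.card_union_le (A.filter (fun a => a ≤ x))
    (A.filter (fun a => N + y ≤ a + b))
  rw [Nat.card_Ioo] at h15
  omega

theorem wo (A B : Finset ℕ) (N b m : ℕ) (h0A : 0 ∈ A) (hNA : N ∈ A) (hA : ∀ a ∈ A, a ≤ N)
    (h0B : 0 ∈ B) (hB : ∀ x ∈ B, x ≤ b) (hbN : b ≤ N)
    (hPQ : ∀ z, z < N → z ∈ A + B ∨ z + N ∈ A + B)
    (hC : (A + B).card ≤ A.card + B.card + m) (hN : N ≤ A.card + m) (hBm : m + 2 ≤ B.card) :
    ∀ (n x y : ℕ), x - y ≤ n → y < x → x ≤ b → x < N → x ∉ A + B → y + N ∉ A + B →
    B.card + N ≤ m + 3 + b := by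
  intro n
  induction n with
  | zero => intro x y h1 h2; omega
  | succ n ih =>
    intro x y h1 h2 h3 h4 h5 h6
    by_cases hmid : ∀ z, y < z → z < x → z ∈ A + B ∧ z + N ∈ A + B
    · exact wo_core A B N b m h0A hNA hA h0B hB hbN hPQ hC hN hBm x y h2 h3 h4 h5 h6 hmid
    · push Not at hmid
      obtain ⟨z, hz1, hz2, hz3⟩ := hmid
      by_cases hzC : z ∈ A + B
      · exact ih x z (by omega) hz2 h3 h4 h5 (hz3 hzC)
      · exact ih z y (by omega) hz1 (by omega) (by omega) hzC h6

theorem normalized (A B : Finset ℕ) (N b m : ℕ) (h0A : 0 ∈ A) (hNA : N ∈ A)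
    (hA : ∀ a ∈ A, a ≤ N) (h0B : 0 ∈ B) (hbB : b ∈ B) (hB : ∀ x ∈ B, x ≤ b) (hbN : b ≤ N)
    (hN1 : 0 < N)
    (hg : ∀ d : ℕ, (∀ x ∈ A, d ∣ x) → (∀ x ∈ B, d ∣ x) → d = 1)
    (hAm : m + 3 ≤ A.card) (hBm : m + 3 ≤ B.card) (hAB : 2 * m + 7 ≤ A.card + B.card)
    (hC : (A + B).card ≤ A.card + B.card + m) :
    N ≤ A.card + m ∧ b ≤ B.card + m ∧
      ∃ s : ℕ, ∀ i : ℕ, i + 1 < A.card + B.card → s + i ∈ A + B := by
  classical
  haveI : NeZero N := ⟨hN1.ne'⟩
  have hBN : ∀ x ∈ B, x ≤ N := fun x hx => (hB x hx).trans hbN
  have hu : im N A + im N B = Finset.univ := by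
    by_contra hne
    have h1 := ls1 A B h0A hNA h0B hA hBN hg hne
    by_cases hNB : N ∈ B
    · have hne' : im N B + im N A ≠ Finset.univ := by rwa [add_comm]
      have h2 := ls1 B A h0B hNB h0A hBN hA (fun d hd1 hd2 => hg d hd2 hd1) hne'
      rw [add_comm B A] at h2
      omega
    · rcases h1 with ⟨_, h1⟩ | h1
      · have := h1 hNB
        omega
      · omega
  have hcount := univ_count A B h0A hNA h0B hBN hu
  have hNle : N ≤ A.card + m := by omega
  have hPQ := univ_pq A B h0A h0B hA hBN hu
  have hno : ∀ x y : ℕ, y < x → x ≤ b → x < N → x ∉ A + B → y + N ∉ A + B → False := by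
    intro x y h1 h2 h3 h4 h5
    have h6 := wo A B N b m h0A hNA hA h0B hB hbN hPQ hC hNle (by omega) (x - y) x y le_rfl
      h1 h2 h3 h4 h5
    rcases Nat.lt_or_ge b N with h7 | h7
    · omega
    · have hbN' : b = N := le_antisymm hbN h7
      subst hbN'
      have hu' : im b B + im b A = Finset.univ := by rwa [add_comm]
      have hcount' := univ_count B A h0B hbB h0A hA hu'
      have h8 := wo B A b b m h0B hbB hB h0A hA le_rfl
        (by intro z hz; rw [add_comm B A]; exact hPQ z hz)
        (by rw [add_comm B A]; omega) (by rw [add_comm B A] at hcount'; omega) (by omega)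
        (x - y) x y le_rfl h1 h2 h3
        (by rw [add_comm B A]; exact h4) (by rw [add_comm B A]; exact h5)
      omega
  have hCle : ∀ c ∈ A + B, c ≤ N + b := by
    intro c hc
    obtain ⟨a, ha, x, hx, rfl⟩ := Finset.mem_add.mp hc
    have := hA a ha
    have := hB x hx
    omega
  -- the first missing element above N
  have hext : ∃ z, z + N ∉ A + B := ⟨b + 1, fun h => by have := hCle _ h; omega⟩
  obtain ⟨t, ht, htmin⟩ : ∃ t, t + N ∉ A + B ∧ ∀ z, z < t → z + N ∈ A + B :=
    ⟨Nat.find hext, Nat.find_spec hext, fun z hz => by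
      have := Nat.find_min hext hz
      simpa using this⟩
  have htb : t ≤ b + 1 := by
    by_contra hcon
    push Not at hcon
    have := hCle _ (htmin (b + 1) hcon)
    omega
  have hexs : ∃ s, ∀ z, s ≤ z → z < N → z ∈ A + B := ⟨N, fun z h1 h2 => by omega⟩
  obtain ⟨s, hs, hsmin⟩ : ∃ s, (∀ z, s ≤ z → z < N → z ∈ A + B) ∧
      (0 < s → s - 1 ∉ A + B ∧ s - 1 < N) := by
    refine ⟨Nat.find hexs, Nat.find_spec hexs, ?_⟩
    intro hpos
    have h1 := Nat.find_spec hexs
    have h2 := Nat.find_min hexs (m := Nat.find hexs - 1) (by omega)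
    push Not at h2
    obtain ⟨z, hz1, hz2, hz3⟩ := h2
    have hz4 : z = Nat.find hexs - 1 := by
      by_contra hne
      exact hz3 (h1 z (by omega) hz2)
    rw [← hz4]
    exact ⟨hz3, hz2⟩
  have hst : s ≤ t := by
    rcases Nat.eq_zero_or_pos s with h0 | hpos
    · omega
    · obtain ⟨h1, h2⟩ := hsmin hpos
      have h3 : s - 1 + N ∈ A + B := by
        rcases hPQ _ h2 with h | h
        · exact absurd h h1
        · exact h
      have h4 := hCle _ h3
      by_contra hcon
      push Not at hcon
      rcases Nat.lt_or_ge t (s - 1) with h5 | h5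
      · exact hno (s - 1) t h5 (by omega) h2 h1 ht
      · have : t = s - 1 := by omega
        rw [this] at ht
        exact ht h3
  have hleft : (A.filter (fun a => a < s)).card + (B.filter (fun a => a < s)).card ≤ s := by
    rcases Nat.eq_zero_or_pos s with h0 | hpos
    · subst h0
      simp
    · have h1 := cnt_left A B (s - 1) (hsmin hpos).1
      have h2 : ∀ X : Finset ℕ, X.filter (fun a => a < s) = X.filter (fun a => a ≤ s - 1) := by
        intro X
        apply Finset.filter_congr
        intro a _
        omega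
      rw [h2 A, h2 B]
      omega
  have hright := cnt_right A B N b t hA hB hbN htb ht
  have hAcov : A ⊆ (A.filter (fun a => a < s)) ∪ (A.filter (fun a => N + t ≤ a + b)) ∪
      Finset.Ico s (N + t - b) := by
    intro z hz
    rw [Finset.mem_union, Finset.mem_union, Finset.mem_filter, Finset.mem_filter,
      Finset.mem_Ico]
    by_cases h : z < s
    · left; left; exact ⟨hz, h⟩
    · by_cases h' : N + t ≤ z + b
      · left; right; exact ⟨hz, h'⟩
      · right; omega
  have hBcov : B ⊆ (B.filter (fun a => a < s)) ∪ (B.filter (fun a => t ≤ a)) ∪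
      Finset.Ico s t := by
    intro z hz
    rw [Finset.mem_union, Finset.mem_union, Finset.mem_filter, Finset.mem_filter,
      Finset.mem_Ico]
    by_cases h : z < s
    · left; left; exact ⟨hz, h⟩
    · by_cases h' : t ≤ z
      · left; right; exact ⟨hz, h'⟩
      · right; omega
  have hA14 := Finset.card_le_card hAcov
  have hA15 := Finset.card_union_le ((A.filter (fun a => a < s)) ∪
    (A.filter (fun a => N + t ≤ a + b))) (Finset.Ico s (N + t - b))
  have hA16 := Finset.card_union_le (A.filter (fun a => a < s))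
    (A.filter (fun a => N + t ≤ a + b))
  rw [Nat.card_Ico] at hA15
  have hB14 := Finset.card_le_card hBcov
  have hB15 := Finset.card_union_le ((B.filter (fun a => a < s)) ∪
    (B.filter (fun a => t ≤ a))) (Finset.Ico s t)
  have hB16 := Finset.card_union_le (B.filter (fun a => a < s))
    (B.filter (fun a => t ≤ a))
  rw [Nat.card_Ico] at hB15
  have hlong : A.card + B.card + s ≤ N + 1 + t := by omega
  have hmem : ∀ z, s ≤ z → z < N + t → z ∈ A + B := by
    intro z h1 h2
    rcases Nat.lt_or_ge z N with h3 | h3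
    · exact hs z h1 h3
    · have := htmin (z - N) (by omega)
      rwa [Nat.sub_add_cancel h3] at this
  refine ⟨hNle, ?_, s, fun i hi => hmem _ (by omega) (by omega)⟩
  -- counting the holes
  set HL := (Finset.range s).filter (fun z => z ∉ A + B) with hHL
  set HR := (Finset.Ico (N + t) (N + b + 1)).filter (fun z => z ∉ A + B) with hHR
  have hcov : Finset.range (N + b + 1) ⊆ (A + B) ∪ (HL ∪ HR) := by
    intro z hz
    rw [Finset.mem_range] at hz
    by_cases hzC : z ∈ A + B
    · exact Finset.mem_union_left _ hzC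
    · apply Finset.mem_union_right
      rw [Finset.mem_union, hHL, hHR, Finset.mem_filter, Finset.mem_filter, Finset.mem_range,
        Finset.mem_Ico]
      by_cases h1 : z < s
      · left; exact ⟨h1, hzC⟩
      · right
        refine ⟨⟨?_, hz⟩, hzC⟩
        by_contra h2
        exact hzC (hmem z (by omega) (by omega))
  have hc1 := Finset.card_le_card hcov
  have hc2 := Finset.card_union_le (A + B) (HL ∪ HR)
  have hc3 := Finset.card_union_le HL HR
  rw [Finset.card_range] at hc1
  have hinj : (HR.image (fun z => z - b)).card = HR.card := by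
    apply Finset.card_image_of_injOn
    intro u hu v hv huv
    rw [Finset.mem_coe, hHR, Finset.mem_filter, Finset.mem_Ico] at hu hv
    simp only at huv
    omega
  have hdis : Disjoint HL (HR.image (fun z => z - b)) := by
    rw [Finset.disjoint_left]
    intro u hu hu'
    rw [hHL, Finset.mem_filter, Finset.mem_range] at hu
    rw [Finset.mem_image] at hu'
    obtain ⟨v, hv, hvu⟩ := hu'
    rw [hHR, Finset.mem_filter, Finset.mem_Ico] at hv
    omega
  have hdisA : Disjoint A (HL ∪ HR.image (fun z => z - b)) := by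
    rw [Finset.disjoint_left]
    intro u hu hu'
    rw [Finset.mem_union, Finset.mem_image] at hu'
    rcases hu' with h | ⟨v, hv, hvu⟩
    · rw [hHL, Finset.mem_filter] at h
      exact h.2 (by simpa using Finset.add_mem_add hu h0B)
    · rw [hHR, Finset.mem_filter, Finset.mem_Ico] at hv
      apply hv.2
      have : v = u + b := by omega
      rw [this]
      exact Finset.add_mem_add hu hbB
  have hsubN : A ∪ (HL ∪ HR.image (fun z => z - b)) ⊆ Finset.range (N + 1) := by
    intro u hu
    rw [Finset.mem_range]
    rw [Finset.mem_union, Finset.mem_union, Finset.mem_image] at hu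
    rcases hu with h | h | ⟨v, hv, hvu⟩
    · have := hA u h
      omega
    · rw [hHL, Finset.mem_filter, Finset.mem_range] at h
      have hsN : s ≤ N := by
        rcases Nat.eq_zero_or_pos s with h0 | hpos
        · omega
        · have := (hsmin hpos).2
          omega
      omega
    · rw [hHR, Finset.mem_filter, Finset.mem_Ico] at hv
      omega
  have hc4 := Finset.card_le_card hsubN
  rw [Finset.card_union_of_disjoint hdisA, Finset.card_union_of_disjoint hdis, hinj,
    Finset.card_range] at hc4
  omega

end Pool.Agent.Helper482.HszInt
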