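import Mathlib
import Pool.Agent.Helper482.HszInt2

set_option autoImplicit false
set_option linter.unusedSectionVars false

open scoped Pointwise
open Finset

namespace Pool.Agent.Helper482.HszInt

theorem normalized' (A B : Finset ℕ) (m : ℕ) (h0A : 0 ∈ A) (h0B : 0 ∈ B)
    (hg : ∀ d : ℕ, (∀ x ∈ A, d ∣ x) → (∀ x ∈ B, d ∣ x) → d = 1)
    (hAm : m + 3 ≤ A.card) (hBm : m + 3 ≤ B.card) (hAB : 2 * m + 7 ≤ A.card + B.card)
    (hC : (A + B).card ≤ A.card + B.card + m) :
    (∀ x ∈ A, x ≤ A.card + m) ∧ (∀ x ∈ B, x ≤ B.card + m) ∧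
      ∃ s : ℕ, ∀ i : ℕ, i + 1 < A.card + B.card → s + i ∈ A + B := by
  have key : ∀ (A B : Finset ℕ) (h0A : 0 ∈ A) (h0B : 0 ∈ B),
      (∀ d : ℕ, (∀ x ∈ A, d ∣ x) → (∀ x ∈ B, d ∣ x) → d = 1) →
      m + 3 ≤ A.card → m + 3 ≤ B.card → 2 * m + 7 ≤ A.card + B.card →
      (A + B).card ≤ A.card + B.card + m → B.max' ⟨0, h0B⟩ ≤ A.max' ⟨0, h0A⟩ →
      (∀ x ∈ A, x ≤ A.card + m) ∧ (∀ x ∈ B, x ≤ B.card + m) ∧
      ∃ s : ℕ, ∀ i : ℕ, i + 1 < A.card + B.card → s + i ∈ A + B := by
    intro A B h0A h0B hg hAm hBm hAB hC hmax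
    have hN1 : 0 < A.max' ⟨0, h0A⟩ := by
      by_contra hcon
      have h0 : A.max' ⟨0, h0A⟩ = 0 := by omega
      have hsub : A ⊆ {0} := by
        intro x hx
        have := Finset.le_max' A x hx
        rw [Finset.mem_singleton]
        omega
      have := Finset.card_le_card hsub
      rw [Finset.card_singleton] at this
      omega
    obtain ⟨h1, h2, h3⟩ := normalized A B (A.max' ⟨0, h0A⟩) (B.max' ⟨0, h0B⟩) m h0A
      (Finset.max'_mem _ _) (fun a ha => Finset.le_max' _ _ ha) h0B (Finset.max'_mem _ _)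
      (fun a ha => Finset.le_max' _ _ ha) hmax hN1 hg hAm hBm hAB hC
    exact ⟨fun x hx => (Finset.le_max' _ _ hx).trans h1,
      fun x hx => (Finset.le_max' _ _ hx).trans h2, h3⟩
  rcases le_total (B.max' ⟨0, h0B⟩) (A.max' ⟨0, h0A⟩) with h | h
  · exact key A B h0A h0B hg hAm hBm hAB hC h
  · obtain ⟨h1, h2, s, h3⟩ := key B A h0B h0A (fun d hd1 hd2 => hg d hd2 hd1) hBm hAm
      (by omega) (by rw [add_comm B A]; omega) h
    refine ⟨h2, h1, s, fun i hi => ?_⟩
    rw [add_comm A B]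
    exact h3 i (by omega)

/-- The `3k-4` theorem for pairs of integer sets, with a long progression in the sumset. -/
theorem zmain (m : ℕ) (A B : Finset ℤ) (hAm : m + 3 ≤ A.card) (hBm : m + 3 ≤ B.card)
    (hAB : 2 * m + 7 ≤ A.card + B.card) (hC : (A + B).card ≤ A.card + B.card + m) :
    ∃ (d : ℕ) (a0 b0 c0 : ℤ), 0 < d ∧ (∀ x ∈ A, ∃ i : ℕ, i ≤ A.card + m ∧ x = a0 + i * d) ∧
      (∀ x ∈ B, ∃ i : ℕ, i ≤ B.card + m ∧ x = b0 + i * d) ∧
      (∀ i : ℕ, i + 1 < A.card + B.card → c0 + i * d ∈ A + B) := by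
  classical
  have hAne : A.Nonempty := Finset.card_pos.mp (by omega)
  have hBne : B.Nonempty := Finset.card_pos.mp (by omega)
  set a0 := A.min' hAne with ha0
  set b0 := B.min' hBne with hb0
  have ha0A : a0 ∈ A := Finset.min'_mem _ _
  have hb0B : b0 ∈ B := Finset.min'_mem _ _
  have hAle : ∀ x ∈ A, a0 ≤ x := fun x hx => Finset.min'_le _ _ hx
  have hBle : ∀ x ∈ B, b0 ≤ x := fun x hx => Finset.min'_le _ _ hx
  set g := Nat.gcd (A.gcd (fun x => (x - a0).natAbs)) (B.gcd (fun x => (x - b0).natAbs)) with hg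
  have hgA : ∀ x ∈ A, g ∣ (x - a0).natAbs := fun x hx =>
    (Nat.gcd_dvd_left _ _).trans (Finset.gcd_dvd hx)
  have hgB : ∀ x ∈ B, g ∣ (x - b0).natAbs := fun x hx =>
    (Nat.gcd_dvd_right _ _).trans (Finset.gcd_dvd hx)
  have hgpos : 0 < g := by
    by_contra hcon
    have hg0 : g = 0 := by omega
    have hsub : A ⊆ {a0} := by
      intro x hx
      have := hgA x hx
      rw [hg0, zero_dvd_iff, Int.natAbs_eq_zero] at this
      rw [Finset.mem_singleton]
      omega
    have := Finset.card_le_card hsub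
    rw [Finset.card_singleton] at this
    omega
  set A' := A.image (fun x => (x - a0).natAbs / g) with hA'
  set B' := B.image (fun x => (x - b0).natAbs / g) with hB'
  have hrA : ∀ x ∈ A, x = a0 + ((x - a0).natAbs / g : ℕ) * (g : ℤ) := by
    intro x hx
    have h1 := Nat.div_mul_cancel (hgA x hx)
    have h2 : (((x - a0).natAbs / g : ℕ) : ℤ) * (g : ℤ) = ((x - a0).natAbs : ℤ) := by
      exact_mod_cast h1
    rw [h2, Int.natAbs_of_nonneg (by have := hAle x hx; omega)]
    ring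
  have hrB : ∀ x ∈ B, x = b0 + ((x - b0).natAbs / g : ℕ) * (g : ℤ) := by
    intro x hx
    have h1 := Nat.div_mul_cancel (hgB x hx)
    have h2 : (((x - b0).natAbs / g : ℕ) : ℤ) * (g : ℤ) = ((x - b0).natAbs : ℤ) := by
      exact_mod_cast h1
    rw [h2, Int.natAbs_of_nonneg (by have := hBle x hx; omega)]
    ring
  have hcA : A'.card = A.card := by
    rw [hA']
    apply Finset.card_image_of_injOn
    intro x hx y hy hxy
    simp only at hxy
    rw [hrA x hx, hrA y hy, hxy]
  have hcB : B'.card = B.card := by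
    rw [hB']
    apply Finset.card_image_of_injOn
    intro x hx y hy hxy
    simp only at hxy
    rw [hrB x hx, hrB y hy, hxy]
  have hgZ : (g : ℤ) ≠ 0 := by exact_mod_cast hgpos.ne'
  have himg : (A' + B').image (fun n : ℕ => a0 + b0 + (n : ℤ) * g) = A + B := by
    ext z
    rw [Finset.mem_image, Finset.mem_add]
    constructor
    · rintro ⟨n, hn, rfl⟩
      obtain ⟨u, hu, v, hv, rfl⟩ := Finset.mem_add.mp hn
      rw [hA', Finset.mem_image] at hu
      rw [hB', Finset.mem_image] at hv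
      obtain ⟨x, hx, rfl⟩ := hu
      obtain ⟨y, hy, rfl⟩ := hv
      refine ⟨x, hx, y, hy, ?_⟩
      rw [Nat.cast_add]
      have e1 := hrA x hx
      have e2 := hrB y hy
      generalize (((x - a0).natAbs / g : ℕ) : ℤ) = X at e1 ⊢
      generalize (((y - b0).natAbs / g : ℕ) : ℤ) = Y at e2 ⊢
      rw [e1, e2]
      ring
    · rintro ⟨x, hx, y, hy, rfl⟩
      refine ⟨(x - a0).natAbs / g + (y - b0).natAbs / g, ?_, ?_⟩
      · apply Finset.add_mem_add
        · rw [hA', Finset.mem_image]; exact ⟨x, hx, rfl⟩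
        · rw [hB', Finset.mem_image]; exact ⟨y, hy, rfl⟩
      · rw [Nat.cast_add]
        have e1 := hrA x hx
        have e2 := hrB y hy
        generalize (((x - a0).natAbs / g : ℕ) : ℤ) = X at e1 ⊢
        generalize (((y - b0).natAbs / g : ℕ) : ℤ) = Y at e2 ⊢
        rw [e1, e2]
        ring
  have hcC : (A' + B').card = (A + B).card := by
    rw [← himg, Finset.card_image_of_injective]
    intro x y hxy
    simp only [add_right_inj, mul_eq_mul_right_iff] at hxy
    rcases hxy with h | h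
    · exact_mod_cast h
    · exact absurd h hgZ
  have h0A' : 0 ∈ A' := by
    rw [hA', Finset.mem_image]
    exact ⟨a0, ha0A, by simp⟩
  have h0B' : 0 ∈ B' := by
    rw [hB', Finset.mem_image]
    exact ⟨b0, hb0B, by simp⟩
  have hgcd : ∀ d : ℕ, (∀ x ∈ A', d ∣ x) → (∀ x ∈ B', d ∣ x) → d = 1 := by
    intro d hd1 hd2
    have h1 : ∀ x ∈ A, d * g ∣ (x - a0).natAbs := by
      intro x hx
      have h2 := hd1 _ (Finset.mem_image_of_mem _ hx)
      have h3 := Nat.mul_dvd_mul_right h2 g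
      rwa [Nat.div_mul_cancel (hgA x hx)] at h3
    have h1' : ∀ x ∈ B, d * g ∣ (x - b0).natAbs := by
      intro x hx
      have h2 := hd2 _ (Finset.mem_image_of_mem _ hx)
      have h3 := Nat.mul_dvd_mul_right h2 g
      rwa [Nat.div_mul_cancel (hgB x hx)] at h3
    have h4 : d * g ∣ g := Nat.dvd_gcd (Finset.dvd_gcd h1) (Finset.dvd_gcd h1')
    have h5 := Nat.le_of_dvd hgpos h4
    have h6 : d ≤ 1 := by
      by_contra hcon
      push Not at hcon
      have : 2 * g ≤ d * g := Nat.mul_le_mul_right _ hcon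
      omega
    have h7 : d ≠ 0 := by
      rintro rfl
      rw [zero_mul, zero_dvd_iff] at h4
      omega
    omega
  obtain ⟨h1, h2, s, h3⟩ := normalized' A' B' m h0A' h0B' hgcd (by omega) (by omega) (by omega)
    (by omega)
  refine ⟨g, a0, b0, a0 + b0 + s * g, hgpos, ?_, ?_, ?_⟩
  · intro x hx
    refine ⟨(x - a0).natAbs / g, ?_, hrA x hx⟩
    have := h1 _ (Finset.mem_image_of_mem _ hx)
    omega
  · intro x hx
    refine ⟨(x - b0).natAbs / g, ?_, hrB x hx⟩
    have := h2 _ (Finset.mem_image_of_mem _ hx)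
    omega
  · intro i hi
    have h4 := h3 i (by omega)
    rw [← himg, Finset.mem_image]
    refine ⟨s + i, h4, ?_⟩
    push_cast
    ring

end Pool.Agent.Helper482.HszInt
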