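import Mathlib
import Pool.Agent.Helper482.HszInt3
import Pool.Agent.Helper482.HszAtom

set_option autoImplicit false
set_option linter.unusedSectionVars false

open scoped Pointwise
open Finset

namespace Pool.Agent.Helper482.HszMod

variable {p : ℕ} [Fact p.Prime]

/-- Containment in an arithmetic progression of difference `d` and length `n`. -/
def InAP (S : Finset (ZMod p)) (d : ZMod p) (n : ℕ) : Prop :=
  ∃ a : ZMod p, ∀ x ∈ S, ∃ i : ℕ, i < n ∧ x = a + i * d

theorem InAP.mono {S : Finset (ZMod p)} {d : ZMod p} {n n' : ℕ} (h : InAP S d n) (hn : n ≤ n') :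
    InAP S d n' := by
  obtain ⟨a, ha⟩ := h
  refine ⟨a, fun x hx => ?_⟩
  obtain ⟨i, hi, hx⟩ := ha x hx
  exact ⟨i, by omega, hx⟩

/-- The negative of a set. -/
def ng (S : Finset (ZMod p)) : Finset (ZMod p) := S.image (fun x => -x)

theorem mem_ng {S : Finset (ZMod p)} {x : ZMod p} : x ∈ ng S ↔ -x ∈ S := by
  unfold ng
  rw [Finset.mem_image]
  constructor
  · rintro ⟨y, hy, rfl⟩
    simpa using hy
  · intro h
    exact ⟨-x, h, by simp⟩

theorem card_ng (S : Finset (ZMod p)) : (ng S).card = S.card :=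
  Finset.card_image_of_injective _ neg_injective

theorem ng_ng (S : Finset (ZMod p)) : ng (ng S) = S := by
  ext x
  rw [mem_ng, mem_ng, neg_neg]

theorem InAP.neg {S : Finset (ZMod p)} {d : ZMod p} {n : ℕ} (h : InAP S d n) :
    InAP (ng S) d n := by
  obtain ⟨a, ha⟩ := h
  rcases Nat.eq_zero_or_pos n with h0 | hpos
  · subst h0
    refine ⟨0, fun x hx => ?_⟩
    obtain ⟨i, hi, _⟩ := ha _ (mem_ng.mp hx)
    omega
  · refine ⟨-a - ((n - 1 : ℕ) : ZMod p) * d, fun x hx => ?_⟩
    obtain ⟨i, hi, hx⟩ := ha _ (mem_ng.mp hx)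
    refine ⟨n - 1 - i, by omega, ?_⟩
    rw [Nat.cast_sub (by omega : i ≤ n - 1)]
    have : x = -(a + i * d) := by rw [← hx, neg_neg]
    rw [this]
    ring

theorem InAP.neg' {S : Finset (ZMod p)} {d : ZMod p} {n : ℕ} (h : InAP (ng S) d n) :
    InAP S d n := by
  have := h.neg
  rwa [ng_ng] at this

/-- Complement of a progression. -/
theorem compl_ap (Y : Finset (ZMod p)) (c d : ZMod p) (hd : d ≠ 0) (L : ℕ)
    (h : ∀ i : ℕ, i < L → c + i * d ∉ Y) : InAP Y d (p - L) := by
  refine ⟨c + L * d, fun y hy => ?_⟩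
  set j := ((y - c) / d).val with hj
  have hjp : j < p := ZMod.val_lt _
  have hy2 : y = c + j * d := by
    rw [hj, ZMod.natCast_zmod_val, div_mul_cancel₀ _ hd]
    ring
  have hjL : L ≤ j := by
    by_contra hcon
    push Not at hcon
    apply h j hcon
    rw [← hy2]
    exact hy
  refine ⟨j - L, by omega, ?_⟩
  rw [Nat.cast_sub hjL, hy2]
  ring

theorem cast_inj_int {a b : ℤ} (h : (a : ZMod p) = b) (hab : |a - b| < p) : a = b := by
  have h1 : ((a - b : ℤ) : ZMod p) = 0 := by
    push_cast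
    rw [h, sub_self]
  rw [ZMod.intCast_zmod_eq_zero_iff_dvd] at h1
  have := Int.eq_zero_of_abs_lt_dvd h1 hab
  omega

/-- Rectification: sets inside two progressions of the same difference whose total length
does not wrap around. -/
theorem rect (m : ℕ) (S T : Finset (ZMod p)) (lam : ZMod p) (hlam : lam ≠ 0) (s t : ℕ)
    (hs : InAP S lam s) (ht : InAP T lam t) (hst : s + t ≤ p + 1)
    (hSm : m + 3 ≤ S.card) (hTm : m + 3 ≤ T.card) (hSTm : 2 * m + 7 ≤ S.card + T.card)
    (hC : (S + T).card ≤ S.card + T.card + m) :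
    ∃ d : ZMod p, d ≠ 0 ∧ InAP S d (S.card + m + 1) ∧ InAP T d (T.card + m + 1) ∧
      ∃ c : ZMod p, ∀ i : ℕ, i + 1 < S.card + T.card → c + i * d ∈ S + T := by
  classical
  obtain ⟨cS, hcS⟩ := hs
  obtain ⟨cT, hcT⟩ := ht
  set A : Finset ℤ := ((Finset.range s).filter (fun i : ℕ => cS + i * lam ∈ S)).image
    (fun i : ℕ => (i : ℤ)) with hA
  set B : Finset ℤ := ((Finset.range t).filter (fun i : ℕ => cT + i * lam ∈ T)).image
    (fun i : ℕ => (i : ℤ)) with hB
  have hmemA : ∀ n : ℤ, n ∈ A ↔ 0 ≤ n ∧ n < s ∧ cS + n * lam ∈ S := by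
    intro n
    rw [hA, Finset.mem_image]
    constructor
    · rintro ⟨i, hi, rfl⟩
      rw [Finset.mem_filter, Finset.mem_range] at hi
      refine ⟨by omega, by omega, by simpa using hi.2⟩
    · rintro ⟨h1, h2, h3⟩
      obtain ⟨k, rfl⟩ := Int.eq_ofNat_of_zero_le h1
      refine ⟨k, ?_, rfl⟩
      rw [Finset.mem_filter, Finset.mem_range]
      exact ⟨by omega, by simpa using h3⟩
  have hmemB : ∀ n : ℤ, n ∈ B ↔ 0 ≤ n ∧ n < t ∧ cT + n * lam ∈ T := by
    intro n
    rw [hB, Finset.mem_image]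
    constructor
    · rintro ⟨i, hi, rfl⟩
      rw [Finset.mem_filter, Finset.mem_range] at hi
      refine ⟨by omega, by omega, by simpa using hi.2⟩
    · rintro ⟨h1, h2, h3⟩
      obtain ⟨k, rfl⟩ := Int.eq_ofNat_of_zero_le h1
      refine ⟨k, ?_, rfl⟩
      rw [Finset.mem_filter, Finset.mem_range]
      exact ⟨by omega, by simpa using h3⟩
  have hSne : S.Nonempty := Finset.card_pos.mp (by omega)
  have hTne : T.Nonempty := Finset.card_pos.mp (by omega)
  have hspos : 0 < s := by
    obtain ⟨x, hx⟩ := hSne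
    obtain ⟨i, hi, _⟩ := hcS x hx
    omega
  have htpos : 0 < t := by
    obtain ⟨x, hx⟩ := hTne
    obtain ⟨i, hi, _⟩ := hcT x hx
    omega
  have hinj : ∀ (c : ZMod p) (a b : ℤ), c + a * lam = c + b * lam → |a - b| < p → a = b := by
    intro c a b h1 h2
    have h3 : (a : ZMod p) * lam = b * lam := add_left_cancel h1
    exact cast_inj_int (mul_right_cancel₀ hlam h3) h2
  have himS : A.image (fun n : ℤ => cS + n * lam) = S := by
    ext x
    rw [Finset.mem_image]
    constructor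
    · rintro ⟨n, hn, rfl⟩
      exact ((hmemA n).mp hn).2.2
    · intro hx
      obtain ⟨i, hi, hxi⟩ := hcS x hx
      refine ⟨(i : ℤ), (hmemA _).mpr ⟨by omega, by omega, ?_⟩, ?_⟩
      · simpa [← hxi] using hx
      · rw [hxi]; simp
  have himT : B.image (fun n : ℤ => cT + n * lam) = T := by
    ext x
    rw [Finset.mem_image]
    constructor
    · rintro ⟨n, hn, rfl⟩
      exact ((hmemB n).mp hn).2.2
    · intro hx
      obtain ⟨i, hi, hxi⟩ := hcT x hx
      refine ⟨(i : ℤ), (hmemB _).mpr ⟨by omega, by omega, ?_⟩, ?_⟩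
      · simpa [← hxi] using hx
      · rw [hxi]; simp
  have hcA : A.card = S.card := by
    have h := Finset.card_image_of_injOn (s := A) (f := fun n : ℤ => cS + n * lam) (by
      intro a ha b hb hab
      have ha' := (hmemA a).mp ha
      have hb' := (hmemA b).mp hb
      exact hinj cS a b hab (by rw [abs_lt]; omega))
    rw [himS] at h
    exact h.symm
  have hcB : B.card = T.card := by
    have h := Finset.card_image_of_injOn (s := B) (f := fun n : ℤ => cT + n * lam) (by
      intro a ha b hb hab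
      have ha' := (hmemB a).mp ha
      have hb' := (hmemB b).mp hb
      exact hinj cT a b hab (by rw [abs_lt]; omega))
    rw [himT] at h
    exact h.symm
  have himC : (A + B).image (fun n : ℤ => (cS + cT) + n * lam) = S + T := by
    ext x
    rw [Finset.mem_image, Finset.mem_add]
    constructor
    · rintro ⟨n, hn, rfl⟩
      obtain ⟨a, ha, b, hb, rfl⟩ := Finset.mem_add.mp hn
      refine ⟨cS + a * lam, ((hmemA a).mp ha).2.2, cT + b * lam, ((hmemB b).mp hb).2.2, ?_⟩
      push_cast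
      ring
    · rintro ⟨y, hy, z, hz, rfl⟩
      rw [← himS, Finset.mem_image] at hy
      rw [← himT, Finset.mem_image] at hz
      obtain ⟨a, ha, rfl⟩ := hy
      obtain ⟨b, hb, rfl⟩ := hz
      refine ⟨a + b, Finset.add_mem_add ha hb, ?_⟩
      push_cast
      ring
  have hcC : (A + B).card = (S + T).card := by
    rw [← himC, Finset.card_image_of_injOn]
    intro a ha b hb hab
    obtain ⟨a1, ha1, a2, ha2, haa⟩ := Finset.mem_add.mp ha
    obtain ⟨b1, hb1, b2, hb2, hbb⟩ := Finset.mem_add.mp hb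
    have h1 := (hmemA a1).mp ha1
    have h2 := (hmemB a2).mp ha2
    have h3 := (hmemA b1).mp hb1
    have h4 := (hmemB b2).mp hb2
    exact hinj (cS + cT) a b hab (by rw [abs_lt]; omega)
  obtain ⟨d, a0, b0, c0, hd, h1, h2, h3⟩ := HszInt.zmain m A B (by omega) (by omega) (by omega)
    (by omega)
  -- the difference is not divisible by p
  have hdp : (d : ZMod p) ≠ 0 := by
    obtain ⟨x, hx, y, hy, hxy⟩ := Finset.one_lt_card.mp (by omega : 1 < A.card)
    obtain ⟨i, _, hxi⟩ := h1 x hx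
    obtain ⟨j, _, hyj⟩ := h1 y hy
    have hx' := (hmemA x).mp hx
    have hy' := (hmemA y).mp hy
    intro h0
    rw [ZMod.natCast_eq_zero_iff] at h0
    have h0' : (p : ℤ) ∣ x - y := by
      have : x - y = (i - j) * d := by rw [hxi, hyj]; ring
      rw [this]
      exact Dvd.dvd.mul_left (by exact_mod_cast h0) _
    have := Int.eq_zero_of_abs_lt_dvd h0' (by rw [abs_lt]; omega)
    omega
  refine ⟨d * lam, mul_ne_zero hdp hlam, ?_, ?_, ?_⟩
  · refine ⟨cS + a0 * lam, fun x hx => ?_⟩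
    rw [← himS, Finset.mem_image] at hx
    obtain ⟨n, hn, rfl⟩ := hx
    obtain ⟨i, hi, hni⟩ := h1 n hn
    refine ⟨i, by omega, ?_⟩
    rw [hni]
    push_cast
    ring
  · refine ⟨cT + b0 * lam, fun x hx => ?_⟩
    rw [← himT, Finset.mem_image] at hx
    obtain ⟨n, hn, rfl⟩ := hx
    obtain ⟨i, hi, hni⟩ := h2 n hn
    refine ⟨i, by omega, ?_⟩
    rw [hni]
    push_cast
    ring
  · refine ⟨(cS + cT) + c0 * lam, fun i hi => ?_⟩
    have h4 := h3 i (by omega)
    rw [← himC, Finset.mem_image]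
    refine ⟨_, h4, ?_⟩
    push_cast
    ring

/-- Dirichlet: a small set is contained in a short interval after dilation. -/
theorem dirichlet (X : Finset (ZMod p)) (hp : 8 ^ X.card < p) :
    ∃ mu : ZMod p, mu ≠ 0 ∧ ∀ Y ⊆ X, InAP Y mu (2 * (p / 8) + 1) := by
  classical
  have hp0 : 0 < p := (Fact.out : p.Prime).pos
  set f : ZMod p → (X → Fin 8) := fun l x =>
    ⟨8 * (l * x.1).val / p, by
      have := ZMod.val_lt (l * x.1)
      rw [Nat.div_lt_iff_lt_mul hp0]
      omega⟩ with hf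
  obtain ⟨l1, l2, hne, hfe⟩ := Fintype.exists_ne_map_eq_of_card_lt f (by
    rw [Fintype.card_fun, Fintype.card_fin, Fintype.card_coe, ZMod.card]
    exact hp)
  have hl : l1 - l2 ≠ 0 := sub_ne_zero.mpr hne
  refine ⟨(l1 - l2)⁻¹, inv_ne_zero hl, fun Y hY => ?_⟩
  refine ⟨-((p / 8 : ℕ) : ZMod p) * (l1 - l2)⁻¹, fun y hy => ?_⟩
  have h1 := congrFun hfe ⟨y, hY hy⟩
  simp only [hf, Fin.mk.injEq] at h1
  set v1 := (l1 * y).val with hv1
  set v2 := (l2 * y).val with hv2
  have h2 : 8 * v1 < 8 * v2 + p := by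
    have e1 := Nat.div_add_mod (8 * v1) p
    have e2 := Nat.div_add_mod (8 * v2) p
    have e3 := Nat.mod_lt (8 * v1) hp0
    rw [h1] at e1
    omega
  have h3 : 8 * v2 < 8 * v1 + p := by
    have e1 := Nat.div_add_mod (8 * v1) p
    have e2 := Nat.div_add_mod (8 * v2) p
    have e3 := Nat.mod_lt (8 * v2) hp0
    rw [h1] at e1
    omega
  refine ⟨p / 8 + v1 - v2, by omega, ?_⟩
  rw [Nat.cast_sub (by omega), Nat.cast_add, hv1, hv2, ZMod.natCast_zmod_val,
    ZMod.natCast_zmod_val]
  have h4 : (l1 - l2) * (l1 - l2)⁻¹ = 1 := mul_inv_cancel₀ hl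
  have h5 : y = (l1 * y - l2 * y) * (l1 - l2)⁻¹ := by
    calc y = y * ((l1 - l2) * (l1 - l2)⁻¹) := by rw [h4, mul_one]
      _ = (l1 * y - l2 * y) * (l1 - l2)⁻¹ := by ring
  conv_lhs => rw [h5]
  ring

/-- The dual step. -/
theorem dual (m : ℕ) (X Y : Finset (ZMod p)) (hX : m + 3 ≤ X.card) (hY : 0 < Y.card)
    (hR : (X + Y).card + (m + 4) ≤ p) (hXY : (X + Y).card ≤ X.card + Y.card + m)
    (lam : ZMod p) (hlam : lam ≠ 0) (s t : ℕ) (hs : InAP (ng X) lam s)
    (ht : InAP (Finset.univ \ (X + Y)) lam t) (hst : s + t ≤ p + 1) :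
    ∃ d : ZMod p, d ≠ 0 ∧ InAP X d (X.card + m + 1) ∧ InAP Y d (Y.card + m + 1) := by
  classical
  set R := Finset.univ \ (X + Y) with hRdef
  have hRc : R.card = p - (X + Y).card := by
    rw [hRdef, Finset.card_sdiff_of_subset (Finset.subset_univ _), Finset.card_univ, ZMod.card]
  have hdis : Disjoint (ng X + R) Y := by
    rw [Finset.disjoint_left]
    intro z hz hzY
    obtain ⟨x, hx, r, hr, rfl⟩ := Finset.mem_add.mp hz
    rw [hRdef, Finset.mem_sdiff] at hr
    apply hr.2
    rw [mem_ng] at hx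
    have := Finset.add_mem_add hx hzY
    simpa using this
  have hc1 : (ng X + R).card + Y.card ≤ p := by
    have := Finset.card_le_univ ((ng X + R) ∪ Y)
    rw [Finset.card_union_of_disjoint hdis, ZMod.card] at this
    exact this
  obtain ⟨d, hd, h1, _, c, h3⟩ := rect m (ng X) R lam hlam s t hs ht hst
    (by rw [card_ng]; exact hX) (by omega) (by rw [card_ng]; omega)
    (by rw [card_ng]; omega)
  rw [card_ng] at h1 h3
  refine ⟨d, hd, h1.neg', ?_⟩
  have h4 : InAP Y d (p - (X.card + R.card - 1)) := by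
    apply compl_ap Y c d hd
    intro i hi hiY
    exact (Finset.disjoint_left.mp hdis) (h3 i (by omega)) hiY
  apply h4.mono
  have : X.card ≤ (X + Y).card := Finset.card_le_card_add_right (Finset.card_pos.mp hY)
  omega

end Pool.Agent.Helper482.HszMod
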