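import Mathlib
import Pool.Agent.Helper482.HszMod

set_option autoImplicit false
set_option linter.unusedSectionVars false

open scoped Pointwise
open Finset

namespace Pool.Agent.Helper482.HszMain

open Pool.Agent.Helper482.HszMod Pool.Agent.Helper482.HszAtom

variable {p : ℕ} [Fact p.Prime]

/-- Averaging over the starting point of a progression. -/
theorem averaging (Y : Finset (ZMod p)) (mu : ZMod p) (n : ℕ) :
    ∑ z : ZMod p, ((Finset.range n).filter (fun i : ℕ => z + i * mu ∈ Y)).card = n * Y.card := by
  classical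
  have h1 : ∀ z : ZMod p, ((Finset.range n).filter (fun i : ℕ => z + i * mu ∈ Y)).card
      = ∑ i ∈ Finset.range n, (if z + (i : ZMod p) * mu ∈ Y then 1 else 0) := by
    intro z
    rw [Finset.card_filter]
  simp_rw [h1]
  rw [Finset.sum_comm]
  have h2 : ∀ i ∈ Finset.range n,
      (∑ z : ZMod p, (if z + (i : ZMod p) * mu ∈ Y then 1 else 0)) = Y.card := by
    intro i _
    rw [← Finset.card_filter]
    have h3 : (Finset.univ.filter (fun z : ZMod p => z + (i : ZMod p) * mu ∈ Y))
        = Y.image (fun y => y - (i : ZMod p) * mu) := by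
      ext z
      rw [Finset.mem_filter, Finset.mem_image]
      constructor
      · rintro ⟨_, h⟩
        exact ⟨_, h, by ring⟩
      · rintro ⟨y, hy, rfl⟩
        exact ⟨Finset.mem_univ _, by simpa using hy⟩
    rw [h3, Finset.card_image_of_injective _ (sub_left_injective)]
  rw [Finset.sum_congr rfl h2, Finset.sum_const, Finset.card_range, smul_eq_mul]

/-- The windows argument. -/
theorem windows (X Y : Finset (ZMod p)) (mu c : ZMod p) (L m : ℕ) (I : Finset ℕ)
    (hI : I ⊆ Finset.range (L + 1)) (hIc : I.card + m = L)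
    (hXY : ∀ x ∈ X, ∀ i ∈ I, x - c - (i : ZMod p) * mu ∉ Y)
    (hX : ∀ z : ZMod p, ∃ i : ℕ, i < L ∧ z + i * mu ∈ X) :
    L * Y.card ≤ 2 * (m + 1) * p := by
  classical
  -- one window
  have hwin : ∀ x ∈ X, ∀ z : ZMod p, ∀ k : ℕ, x = z + c + (k : ZMod p) * mu →
      ((Finset.range L).filter (fun j : ℕ => z + j * mu ∈ Y ∧ j ≤ k ∧ k ≤ j + L)).card
        ≤ m + 1 := by
    intro x hx z k hk
    have h1 : (((Finset.range L).filter
        (fun j : ℕ => z + j * mu ∈ Y ∧ j ≤ k ∧ k ≤ j + L)).image (fun j => k - j)).card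
        = ((Finset.range L).filter
        (fun j : ℕ => z + j * mu ∈ Y ∧ j ≤ k ∧ k ≤ j + L)).card := by
      apply Finset.card_image_of_injOn
      intro a ha b hb hab
      rw [Finset.mem_coe, Finset.mem_filter] at ha hb
      simp only at hab
      omega
    have h2 : (((Finset.range L).filter
        (fun j : ℕ => z + j * mu ∈ Y ∧ j ≤ k ∧ k ≤ j + L)).image (fun j => k - j))
        ⊆ Finset.range (L + 1) \ I := by
      intro i hi
      rw [Finset.mem_image] at hi
      obtain ⟨j, hj, rfl⟩ := hi
      rw [Finset.mem_filter] at hj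
      obtain ⟨_, hjY, hjk, hkL⟩ := hj
      rw [Finset.mem_sdiff, Finset.mem_range]
      refine ⟨by omega, fun hin => ?_⟩
      apply hXY x hx _ hin
      rw [Nat.cast_sub hjk, hk]
      have : z + c + (k : ZMod p) * mu - c - ((k : ZMod p) - (j : ZMod p)) * mu
          = z + j * mu := by ring
      rw [this]
      exact hjY
    have h3 := Finset.card_le_card h2
    rw [h1, Finset.card_sdiff_of_subset hI, Finset.card_range] at h3
    omega
  have hblock : ∀ z : ZMod p,
      ((Finset.range L).filter (fun i : ℕ => z + i * mu ∈ Y)).card ≤ 2 * (m + 1) := by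
    intro z
    obtain ⟨i', hi', hi'X⟩ := hX (z + c)
    have hPne : ((Finset.range L).filter (fun i : ℕ => z + c + i * mu ∈ X)).Nonempty :=
      ⟨i', by rw [Finset.mem_filter, Finset.mem_range]; exact ⟨hi', hi'X⟩⟩
    obtain ⟨i0, hi0, hmax⟩ := Finset.exists_max_image _ (fun i : ℕ => i) hPne
    rw [Finset.mem_filter, Finset.mem_range] at hi0
    obtain ⟨j1, hj1, hj1X⟩ := hX (z + c + ((i0 + 1 : ℕ) : ZMod p) * mu)
    have hi1X : z + c + ((i0 + 1 + j1 : ℕ) : ZMod p) * mu ∈ X := by
      have : z + c + ((i0 + 1 + j1 : ℕ) : ZMod p) * mu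
          = z + c + ((i0 + 1 : ℕ) : ZMod p) * mu + j1 * mu := by
        push_cast; ring
      rw [this]; exact hj1X
    have hi1L : L ≤ i0 + 1 + j1 := by
      by_contra hcon
      push Not at hcon
      have := hmax (i0 + 1 + j1) (by
        rw [Finset.mem_filter, Finset.mem_range]
        exact ⟨hcon, hi1X⟩)
      omega
    have hw1 := hwin _ hi0.2 z i0 rfl
    have hw2 := hwin _ hi1X z (i0 + 1 + j1) rfl
    have hsub : (Finset.range L).filter (fun i : ℕ => z + i * mu ∈ Y) ⊆
        ((Finset.range L).filter (fun j : ℕ => z + j * mu ∈ Y ∧ j ≤ i0 ∧ i0 ≤ j + L)) ∪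
        ((Finset.range L).filter (fun j : ℕ => z + j * mu ∈ Y ∧ j ≤ i0 + 1 + j1 ∧
          i0 + 1 + j1 ≤ j + L)) := by
      intro j hj
      rw [Finset.mem_filter, Finset.mem_range] at hj
      rw [Finset.mem_union, Finset.mem_filter, Finset.mem_filter, Finset.mem_range]
      rcases Nat.lt_or_ge i0 j with h | h
      · right
        exact ⟨hj.1, hj.2, by omega, by omega⟩
      · left
        exact ⟨hj.1, hj.2, h, by omega⟩
    have h1 := Finset.card_le_card hsub
    have h2 := Finset.card_union_le
      ((Finset.range L).filter (fun j : ℕ => z + j * mu ∈ Y ∧ j ≤ i0 ∧ i0 ≤ j + L))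
      ((Finset.range L).filter (fun j : ℕ => z + j * mu ∈ Y ∧ j ≤ i0 + 1 + j1 ∧
          i0 + 1 + j1 ≤ j + L))
    omega
  rw [← averaging Y mu L]
  calc ∑ z : ZMod p, ((Finset.range L).filter (fun i : ℕ => z + i * mu ∈ Y)).card
      ≤ ∑ _z : ZMod p, 2 * (m + 1) := Finset.sum_le_sum (fun z _ => hblock z)
    _ = 2 * (m + 1) * p := by
        rw [Finset.sum_const, Finset.card_univ, ZMod.card, smul_eq_mul, mul_comm]

/-- The boundary argument. -/
theorem runs (T R : Finset (ZMod p)) (lam s0 : ZMod p) (L : ℕ)
    (hTR : ∀ t ∈ T, s0 + t ∉ R)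
    (hbd : (T.filter (fun t => t + lam ∉ T)).card ≤ L)
    (hT : ∀ z : ZMod p, ∃ i : ℕ, i < L ∧ z + i * lam ∈ T)
    (hR : ∀ z : ZMod p, ∃ i : ℕ, i < L ∧ z + i * lam ∈ R) : p ≤ 2 * L * L := by
  classical
  set D := T.filter (fun t => t + lam ∉ T) with hD
  have h1 : ∀ z : ZMod p, 1 ≤
      ((Finset.range (2 * L)).filter (fun i : ℕ => z + i * lam ∈ D)).card := by
    intro z
    rw [Nat.succ_le_iff, Finset.card_pos]
    obtain ⟨i1, hi1, hi1T⟩ := hT z
    obtain ⟨j, hj, hjR⟩ := hR (s0 + (z + ((i1 + 1 : ℕ) : ZMod p) * lam))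
    have hnot : z + ((i1 + 1 + j : ℕ) : ZMod p) * lam ∉ T := by
      intro h
      apply hTR _ h
      have : s0 + (z + ((i1 + 1 + j : ℕ) : ZMod p) * lam)
          = s0 + (z + ((i1 + 1 : ℕ) : ZMod p) * lam) + j * lam := by
        push_cast; ring
      rw [this]; exact hjR
    -- first exit after i1
    have hex : ∃ k : ℕ, z + ((i1 + 1 + k : ℕ) : ZMod p) * lam ∉ T := ⟨j, hnot⟩
    have hk1 := Nat.find_spec hex
    have hk2 : Nat.find hex ≤ j := Nat.find_min' hex hnot
    refine ⟨i1 + Nat.find hex, ?_⟩
    rw [Finset.mem_filter, Finset.mem_range, hD, Finset.mem_filter]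
    refine ⟨by omega, ?_, ?_⟩
    · rcases Nat.eq_zero_or_pos (Nat.find hex) with h0 | hpos
      · rw [h0, Nat.add_zero]; exact hi1T
      · have h2 := Nat.find_min hex (m := Nat.find hex - 1) (by omega)
        push Not at h2
        have e : i1 + 1 + (Nat.find hex - 1) = i1 + Nat.find hex := by omega
        rw [e] at h2
        exact h2
    · have e : z + ((i1 + Nat.find hex : ℕ) : ZMod p) * lam + lam
          = z + ((i1 + 1 + Nat.find hex : ℕ) : ZMod p) * lam := by
        push_cast; ring
      rw [e]
      exact hk1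
  have h2 := averaging D lam (2 * L)
  have h3 : ∑ _z : ZMod p, 1 ≤
      ∑ z : ZMod p, ((Finset.range (2 * L)).filter (fun i : ℕ => z + i * lam ∈ D)).card :=
    Finset.sum_le_sum (fun z _ => h1 z)
  rw [h2, Finset.sum_const, Finset.card_univ, ZMod.card, smul_eq_mul, mul_one] at h3
  calc p ≤ 2 * L * D.card := h3
    _ ≤ 2 * L * L := Nat.mul_le_mul_left _ hbd

/-- The conclusion for a pair of sets. -/
def Concl (m : ℕ) (S T : Finset (ZMod p)) : Prop :=
  ∃ d : ZMod p, d ≠ 0 ∧ InAP S d (S.card + m + 1) ∧ InAP T d (T.card + m + 1)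

/-- If `S` is in a short progression then both sets are, with a common difference. -/
theorem step2 (m : ℕ) (hp1 : 128 * (m + 1) * (m + 1) < p) (hp2 : 8 ^ (8 * (m + 1)) < p)
    (S T : Finset (ZMod p)) (hS : m + 3 ≤ S.card) (hT : m + 4 ≤ T.card)
    (hC : (S + T).card ≤ S.card + T.card + m) (hR : (S + T).card + (m + 4) ≤ p)
    (lam : ZMod p) (hlam : lam ≠ 0) (hSA : InAP S lam (S.card + m + 1)) : Concl m S T := by
  classical
  set L := S.card + m with hL
  set R := Finset.univ \ (S + T) with hRdef
  have hRc : R.card = p - (S + T).card := by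
    rw [hRdef, Finset.card_sdiff_of_subset (Finset.subset_univ _), Finset.card_univ, ZMod.card]
  have hSle : S.card ≤ (S + T).card :=
    Finset.card_le_card_add_right (Finset.card_pos.mp (by omega))
  have hLp : L < p := by omega
  by_cases hTg : ∀ z : ZMod p, ∃ i : ℕ, i < L ∧ z + i * lam ∈ T
  swap
  · push Not at hTg
    obtain ⟨z, hz⟩ := hTg
    have h1 : InAP T lam (p - L) := compl_ap T z lam hlam L hz
    obtain ⟨d, hd, h2, h3, _⟩ := rect m S T lam hlam (L + 1) (p - L) hSA h1 (by omega) hS
      (by omega) (by omega) hC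
    exact ⟨d, hd, h2, h3⟩
  by_cases hRg : ∀ z : ZMod p, ∃ i : ℕ, i < L ∧ z + i * lam ∈ R
  swap
  · push Not at hRg
    obtain ⟨z, hz⟩ := hRg
    have h1 : InAP R lam (p - L) := compl_ap R z lam hlam L hz
    exact dual m S T hS (by omega) hR hC lam hlam (L + 1) (p - L) hSA.neg h1 (by omega)
  -- no gaps
  obtain ⟨cS, hcS⟩ := hSA
  set I := (Finset.range (L + 1)).filter (fun i : ℕ => cS + i * lam ∈ S) with hI
  have hIsub : I ⊆ Finset.range (L + 1) := Finset.filter_subset _ _
  have himg : I.image (fun i : ℕ => cS + (i : ZMod p) * lam) = S := by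
    ext x
    rw [Finset.mem_image]
    constructor
    · rintro ⟨i, hi, rfl⟩
      exact (Finset.mem_filter.mp hi).2
    · intro hx
      obtain ⟨i, hi, hxi⟩ := hcS x hx
      refine ⟨i, ?_, hxi.symm⟩
      rw [hI, Finset.mem_filter, Finset.mem_range]
      exact ⟨hi, by rw [← hxi]; exact hx⟩
  have hIc : I.card = S.card := by
    have h := Finset.card_image_of_injOn (s := I) (f := fun i : ℕ => cS + (i : ZMod p) * lam) (by
      intro a ha b hb hab
      have ha' := hIsub ha
      have hb' := hIsub hb
      rw [Finset.mem_range] at ha' hb'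
      have h3 : ((a : ℤ) : ZMod p) * lam = ((b : ℤ) : ZMod p) * lam := by
        have := add_left_cancel hab
        simpa using this
      have h4 := cast_inj_int (mul_right_cancel₀ hlam h3) (by rw [abs_lt]; omega)
      exact_mod_cast h4)
    rw [himg] at h
    exact h.symm
  have hSTR : ∀ s ∈ S, ∀ t ∈ T, s + t ∉ R := by
    intro s hs t ht h
    rw [hRdef, Finset.mem_sdiff] at h
    exact h.2 (Finset.add_mem_add hs ht)
  -- bound for T
  have hw1 : L * T.card ≤ 2 * (m + 1) * p := by
    apply windows R T lam cS L m I hIsub (by omega)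
    · intro r hr i hi hin
      have hs := (Finset.mem_filter.mp hi).2
      have := hSTR _ hs _ hin
      apply this
      have e : cS + (i : ZMod p) * lam + (r - cS - (i : ZMod p) * lam) = r := by ring
      rw [e]; exact hr
    · exact hRg
  -- bound for R
  have hw2 : L * R.card ≤ 2 * (m + 1) * p := by
    apply windows T R (-lam) (-cS) L m I hIsub (by omega)
    · intro t ht i hi hin
      have hs := (Finset.mem_filter.mp hi).2
      have := hSTR _ hs _ ht
      apply this
      have e : cS + (i : ZMod p) * lam + t = t - -cS - (i : ZMod p) * -lam := by ring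
      rw [e]; exact hin
    · intro z
      obtain ⟨i, hi, hiT⟩ := hTg (z - ((L - 1 : ℕ) : ZMod p) * lam)
      refine ⟨L - 1 - i, by omega, ?_⟩
      rw [Nat.cast_sub (by omega : i ≤ L - 1)]
      have e : z + (((L - 1 : ℕ) : ZMod p) - (i : ZMod p)) * -lam
          = z - ((L - 1 : ℕ) : ZMod p) * lam + i * lam := by ring
      rw [e]; exact hiT
  -- two consecutive indices
  have hcons : ∃ i ∈ I, i + 1 ∈ I := by
    by_contra hcon
    push Not at hcon
    have hd : Disjoint I (I.image (fun i => i + 1)) := by
      rw [Finset.disjoint_left]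
      intro i hi hi'
      rw [Finset.mem_image] at hi'
      obtain ⟨j, hj, rfl⟩ := hi'
      exact hcon j hj hi
    have hs : I ∪ I.image (fun i => i + 1) ⊆ Finset.range (L + 2) := by
      intro i hi
      rw [Finset.mem_union, Finset.mem_image] at hi
      rw [Finset.mem_range]
      rcases hi with h | ⟨j, hj, rfl⟩
      · have := hIsub h
        rw [Finset.mem_range] at this
        omega
      · have := hIsub hj
        rw [Finset.mem_range] at this
        omega
    have := Finset.card_le_card hs
    rw [Finset.card_union_of_disjoint hd, Finset.card_image_of_injective _ (add_left_injective 1),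
      Finset.card_range] at this
    omega
  have hw3 : p ≤ 2 * L * L := by
    obtain ⟨i, hi, hi1⟩ := hcons
    have hs := (Finset.mem_filter.mp hi).2
    have hs1 := (Finset.mem_filter.mp hi1).2
    apply runs T R lam (cS + (i : ZMod p) * lam) L
    · intro t ht
      exact hSTR _ hs _ ht
    · have hd : Disjoint (T.image (fun t => cS + (i : ZMod p) * lam + t))
          ((T.filter (fun t => t + lam ∉ T)).image
            (fun t => cS + (i : ZMod p) * lam + (t + lam))) := by
        rw [Finset.disjoint_left]
        intro x hx hx'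
        rw [Finset.mem_image] at hx hx'
        obtain ⟨t, ht, rfl⟩ := hx
        obtain ⟨t', ht', htt⟩ := hx'
        rw [Finset.mem_filter] at ht'
        apply ht'.2
        have := add_left_cancel htt
        rw [this]; exact ht
      have hsub : (T.image (fun t => cS + (i : ZMod p) * lam + t)) ∪
          ((T.filter (fun t => t + lam ∉ T)).image
            (fun t => cS + (i : ZMod p) * lam + (t + lam))) ⊆ S + T := by
        apply Finset.union_subset
        · intro x hx
          rw [Finset.mem_image] at hx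
          obtain ⟨t, ht, rfl⟩ := hx
          exact Finset.add_mem_add hs ht
        · intro x hx
          rw [Finset.mem_image] at hx
          obtain ⟨t, ht, rfl⟩ := hx
          have := Finset.add_mem_add hs1 (Finset.mem_filter.mp ht).1
          have e : cS + (i : ZMod p) * lam + (t + lam)
              = cS + ((i + 1 : ℕ) : ZMod p) * lam + t := by
            push_cast; ring
          rw [e]; exact this
      have h1 := Finset.card_le_card hsub
      rw [Finset.card_union_of_disjoint hd, Finset.card_image_of_injective _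
        (add_right_injective _), Finset.card_image_of_injective] at h1
      · omega
      · intro a b hab
        simp only at hab
        exact add_right_cancel (add_left_cancel hab)
    · exact hTg
    · exact hRg
  -- numerical contradiction or small sets
  have hsum : p ≤ L + T.card + R.card := by omega
  have h2L : p < 2 * L := by
    by_contra hcon
    push Not at hcon
    have e1 : L * (p - L) ≤ L * (T.card + R.card) := Nat.mul_le_mul_left _ (by omega)
    have e2 : L * (T.card + R.card) ≤ 4 * (m + 1) * p := by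
      rw [Nat.mul_add]
      calc L * T.card + L * R.card ≤ 2 * (m + 1) * p + 2 * (m + 1) * p := by omega
        _ = 4 * (m + 1) * p := by ring
    have e3 : L * p ≤ L * (2 * (p - L)) := Nat.mul_le_mul_left _ (by omega)
    have e4 : L * p ≤ 8 * (m + 1) * p := by
      calc L * p ≤ L * (2 * (p - L)) := e3
        _ = 2 * (L * (p - L)) := by ring
        _ ≤ 2 * (4 * (m + 1) * p) := Nat.mul_le_mul_left _ (e1.trans e2)
        _ = 8 * (m + 1) * p := by ring
    have e5 : L ≤ 8 * (m + 1) := Nat.le_of_mul_le_mul_right e4 (by omega)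
    have e6 : 2 * L * L ≤ 128 * (m + 1) * (m + 1) := by
      calc 2 * L * L ≤ 2 * (8 * (m + 1)) * (8 * (m + 1)) := by
            apply Nat.mul_le_mul
            · exact Nat.mul_le_mul_left _ e5
            · exact e5
        _ = 128 * (m + 1) * (m + 1) := by ring
    omega
  have hTs : T.card < 4 * (m + 1) := by
    by_contra hcon
    push Not at hcon
    have e1 : L * (4 * (m + 1)) ≤ L * T.card := Nat.mul_le_mul_left _ hcon
    have e2 : 2 * (m + 1) * p < 2 * (m + 1) * (2 * L) :=
      Nat.mul_lt_mul_of_pos_left h2L (by omega)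
    have e3 : 2 * (m + 1) * (2 * L) = L * (4 * (m + 1)) := by ring
    omega
  have hRs : R.card < 4 * (m + 1) := by
    by_contra hcon
    push Not at hcon
    have e1 : L * (4 * (m + 1)) ≤ L * R.card := Nat.mul_le_mul_left _ hcon
    have e2 : 2 * (m + 1) * p < 2 * (m + 1) * (2 * L) :=
      Nat.mul_lt_mul_of_pos_left h2L (by omega)
    have e3 : 2 * (m + 1) * (2 * L) = L * (4 * (m + 1)) := by ring
    omega
  have hun : (ng T ∪ R).card ≤ 8 * (m + 1) := by
    have := Finset.card_union_le (ng T) R
    rw [card_ng] at this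
    omega
  obtain ⟨mu, hmu, hmuY⟩ := dirichlet (ng T ∪ R)
    (lt_of_le_of_lt (Nat.pow_le_pow_right (by norm_num) hun) hp2)
  have hTS : T + S = S + T := add_comm T S
  obtain ⟨d, hd, h1, h2⟩ := dual m T S (by omega) (by omega) (by rw [hTS]; exact hR)
    (by rw [hTS]; omega) mu hmu (2 * (p / 8) + 1) (2 * (p / 8) + 1)
    (hmuY _ Finset.subset_union_left) (by rw [hTS]; exact hmuY _ Finset.subset_union_right)
    (by omega)
  exact ⟨d, hd, h2, h1⟩

/-- The main theorem for pairs. -/
theorem pair (m : ℕ) (hp1 : 128 * (m + 1) * (m + 1) < p) (hp2 : 8 ^ (10 * m + 21) < p) :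
    ∀ (n : ℕ) (S T : Finset (ZMod p)), S.card ≤ n → m + 3 ≤ S.card → m + 4 ≤ T.card →
      (S + T).card ≤ S.card + T.card + m → (S + T).card + (m + 4) ≤ p → Concl m S T := by
  classical
  intro n
  induction n with
  | zero => intro S T h1 h2; omega
  | succ n ih =>
    intro S T hn hS hT hC hR
    have hp3 : 8 ^ (8 * (m + 1)) < p :=
      lt_of_le_of_lt (Nat.pow_le_pow_right (by norm_num) (by omega)) hp2
    have hSne : S.Nonempty := Finset.card_pos.mp (by omega)
    have hTv : Valid (m + 4) S T := ⟨hT, by rw [add_comm T S]; exact hR⟩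
    obtain ⟨M, hM⟩ := exists_atom (m + 4) S hSne T hTv
    have hMT := (hM.2 T hTv).1
    rw [add_comm T S] at hMT
    have hMv := hM.1
    have hM1 : m + 4 ≤ M.card := hMv.1
    have hM2 : (M + S).card + (m + 4) ≤ p := hMv.2
    have hMC : (M + S).card ≤ M.card + S.card + m := by omega
    have hSA : ∃ lam : ZMod p, lam ≠ 0 ∧ InAP S lam (S.card + m + 1) := by
      rcases Nat.lt_or_ge (4 * m + 9) S.card with hbig | hsmall
      · have h3 := atom_size3 (m + 4) (by omega) S M hM (by omega)
        obtain ⟨d, hd, _, h4⟩ := ih M S (by omega) (by omega) (by omega) hMC hM2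
        exact ⟨d, hd, h4⟩
      · have h3 := atom_size2 (m + 4) (by omega) S M hM (by omega)
        have hun : (M ∪ S).card ≤ 10 * m + 21 := by
          have := Finset.card_union_le M S
          omega
        obtain ⟨mu, hmu, hmuY⟩ := dirichlet (M ∪ S)
          (lt_of_le_of_lt (Nat.pow_le_pow_right (by norm_num) hun) hp2)
        obtain ⟨d, hd, _, h4, _⟩ := rect m M S mu hmu (2 * (p / 8) + 1) (2 * (p / 8) + 1)
          (hmuY _ Finset.subset_union_left) (hmuY _ Finset.subset_union_right) (by omega)
          (by omega) (by omega) (by omega) hMC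
        exact ⟨d, hd, h4⟩
    obtain ⟨lam, hlam, hSA⟩ := hSA
    exact step2 m hp1 hp3 S T hS hT hC hR lam hlam hSA

end Pool.Agent.Helper482.HszMain
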