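import Mathlib

set_option autoImplicit false

namespace Pool.Agent.Helper482.Hyp

open Finset

/-- Properties of limits of autocorrelations of sets avoiding the hyperbola. -/
structure Good (η : ℝ) (Φ : ℚ × ℚ → ℝ) : Prop where
  psd : ∀ (s : Finset (ℚ × ℚ)) (c : ℚ × ℚ → ℝ),
    η * (∑ h ∈ s, c h) ^ 2 ≤ ∑ h ∈ s, ∑ h' ∈ s, c h * c h' * Φ (h - h')
  symm : ∀ h, Φ (-h) = Φ h
  bdd : ∀ h, |Φ h| ≤ 1
  zero : ∀ q : ℚ, 0 < q → Φ (q, q⁻¹) = 0

noncomputable def form (Ψ : ℚ × ℚ → ℝ) : LinearMap.BilinForm ℝ ((ℚ × ℚ) →₀ ℝ) :=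
  Finsupp.linearCombination ℝ
    (fun h => Finsupp.linearCombination ℝ (fun h' => Ψ (h - h')))

noncomputable def e (h : ℚ × ℚ) : (ℚ × ℚ) →₀ ℝ := Finsupp.single h 1

lemma form_e (Ψ : ℚ × ℚ → ℝ) (h h' : ℚ × ℚ) : form Ψ (e h) (e h') = Ψ (h - h') := by
  simp [form, e]

lemma form_comm (Ψ : ℚ × ℚ → ℝ) (hs : ∀ h, Ψ (-h) = Ψ h) (f g : (ℚ × ℚ) →₀ ℝ) :
    form Ψ f g = form Ψ g f := by
  simp only [form, Finsupp.linearCombination_apply, Finsupp.sum, LinearMap.coe_sum,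
    Finset.sum_apply, LinearMap.smul_apply, smul_eq_mul]
  simp only [Finset.mul_sum]
  rw [Finset.sum_comm]
  refine Finset.sum_congr rfl fun x _ => Finset.sum_congr rfl fun y _ => ?_
  have : Ψ (y - x) = Ψ (x - y) := by rw [← neg_sub, hs]
  rw [this]; ring

lemma form_nonneg (Ψ : ℚ × ℚ → ℝ)
    (hp : ∀ (s : Finset (ℚ × ℚ)) (c : ℚ × ℚ → ℝ),
      0 ≤ ∑ h ∈ s, ∑ h' ∈ s, c h * c h' * Ψ (h - h')) (f : (ℚ × ℚ) →₀ ℝ) :
    0 ≤ form Ψ f f := by
  have := hp f.support f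
  simp only [form, Finsupp.linearCombination_apply, Finsupp.sum, LinearMap.coe_sum,
    Finset.sum_apply, LinearMap.smul_apply, smul_eq_mul]
  simp only [Finset.mul_sum]
  refine this.trans_eq ?_
  refine Finset.sum_congr rfl fun x _ => Finset.sum_congr rfl fun y _ => ?_
  ring

lemma form_cs (Ψ : ℚ × ℚ → ℝ)
    (hp : ∀ (s : Finset (ℚ × ℚ)) (c : ℚ × ℚ → ℝ),
      0 ≤ ∑ h ∈ s, ∑ h' ∈ s, c h * c h' * Ψ (h - h'))
    (hs : ∀ h, Ψ (-h) = Ψ h) (f g : (ℚ × ℚ) →₀ ℝ) :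
    (form Ψ f g) ^ 2 ≤ form Ψ f f * form Ψ g g := by
  have := (form Ψ).apply_mul_apply_le_of_forall_zero_le (form_nonneg Ψ hp) f g
  rw [form_comm Ψ hs g f] at this
  rw [sq]; exact this

/-- Invariant positive semidefinite kernels. -/
structure Inv (K : ℝ) (Ψ : ℚ × ℚ → ℝ) : Prop where
  psd : ∀ (s : Finset (ℚ × ℚ)) (c : ℚ × ℚ → ℝ),
    0 ≤ ∑ h ∈ s, ∑ h' ∈ s, c h * c h' * Ψ (h - h')
  symm : ∀ h, Ψ (-h) = Ψ h
  bdd : ∀ h, |Ψ h| ≤ K
  inv : ∀ j : ℕ, 0 < j → ∀ u v : ℚ, Ψ (j * u, v / j) = Ψ (u, v)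

namespace Inv

variable {K : ℝ} {Ψ : ℚ × ℚ → ℝ}

lemma K_nonneg (H : Inv K Ψ) : 0 ≤ K := (abs_nonneg _).trans (H.bdd 0)

lemma invq (H : Inv K Ψ) (q : ℚ) (hq : 0 < q) (u v : ℚ) : Ψ (q * u, v / q) = Ψ (u, v) := by
  have hnum : 0 < q.num := Rat.num_pos.mpr hq
  obtain ⟨a, ha⟩ : ∃ a : ℕ, (a : ℤ) = q.num := ⟨q.num.toNat, Int.toNat_of_nonneg hnum.le⟩
  have ha0 : 0 < a := by omega
  have hb0 : 0 < q.den := q.den_pos
  have hden : (q.den : ℚ) ≠ 0 := by exact_mod_cast hb0.ne'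
  have haq : (a : ℚ) ≠ 0 := by exact_mod_cast ha0.ne'
  have hqe : q = (a : ℚ) / q.den := by
    have h1 : ((a : ℤ) : ℚ) = (q.num : ℚ) := by rw [ha]
    have h2 : (a : ℚ) = (q.num : ℚ) := by exact_mod_cast h1
    rw [h2, Rat.num_div_den]
  have h1 := H.inv q.den hb0 (q * u) (v / q)
  have h2 := H.inv a ha0 u v
  rw [← h1, ← h2]
  have e1 : (q.den : ℚ) * (q * u) = a * u := by
    rw [← mul_assoc]; congr 1
    nth_rewrite 2 [hqe]
    field_simp
  have e2 : v / q / (q.den : ℚ) = v / a := by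
    rw [div_div]; congr 1
    nth_rewrite 1 [hqe]
    field_simp
  rw [e1, e2]

lemma psi (H : Inv K Ψ) (u v : ℚ) (hv : v ≠ 0) : Ψ (u, v) = Ψ (u * v, 1) := by
  rcases lt_or_gt_of_ne hv with h | h
  · have h1 := H.invq (-v) (by linarith) (-u) (-v)
    have h2 := H.symm (u, v)
    rw [Prod.neg_mk] at h2
    rw [← h2, ← h1]
    congr 1
    rw [div_self (neg_ne_zero.mpr hv)]
    ring_nf
  · have h1 := H.invq v h u v
    rw [← h1, div_self hv, mul_comm]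

lemma hor (H : Inv K Ψ) (u : ℚ) (hu : u ≠ 0) : Ψ (u, 0) = Ψ (1, 0) := by
  rcases lt_or_gt_of_ne hu with h | h
  · have h1 := H.invq (-u) (by linarith) 1 0
    have h2 := H.symm (u, 0)
    rw [Prod.neg_mk] at h2
    rw [← h2, ← h1]
    simp
  · have h1 := H.invq u h 1 0
    rw [← h1]; simp

lemma D_nonneg (H : Inv K Ψ) : 0 ≤ Ψ 0 - Ψ (1, 0) := by
  have h := form_nonneg Ψ H.psd (e (1, 0) - e 0)
  have h1 : Ψ (-(1, 0)) = Ψ (1, 0) := H.symm (1, 0)
  simp only [map_sub, LinearMap.sub_apply, form_e, sub_self, sub_zero, zero_sub, h1] at h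
  linarith

lemma bessel (H : Inv K Ψ) {α : Type} (P : Finset α) (x y : α → ℚ)
    (hx : Set.InjOn x P) (hy : Set.InjOn y P) :
    (∑ p ∈ P, (Ψ (x p, 1) - Ψ (y p, 1))) ^ 2 ≤ 4 * K ^ 2 * P.card := by
  classical
  set D := Ψ 0 - Ψ (1, 0) with hD
  have hD0 : 0 ≤ D := H.D_nonneg
  have key : ∀ u : ℚ, Ψ (u, 0) = Ψ (1, 0) + (if u = 0 then D else 0) := by
    intro u
    by_cases hu : u = 0
    · subst hu; simp only [if_true]; rw [hD]; 
      have : ((0 : ℚ), (0 : ℚ)) = 0 := rfl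
      rw [this]; ring
    · simp [hu, H.hor u hu]
  set f : (ℚ × ℚ) →₀ ℝ := ∑ p ∈ P, (e (x p, 0) - e (y p, 0)) with hf
  set g : (ℚ × ℚ) →₀ ℝ := e (0, -1) with hg
  have hfg : form Ψ f g = ∑ p ∈ P, (Ψ (x p, 1) - Ψ (y p, 1)) := by
    rw [hf, hg]
    simp only [map_sum, LinearMap.coe_sum, Finset.sum_apply, map_sub, LinearMap.sub_apply, form_e]
    simp
  have hgg : form Ψ g g ≤ K := by
    rw [hg, form_e, sub_self]
    exact (le_abs_self _).trans (H.bdd 0)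
  have hff : form Ψ f f ≤ 4 * K * P.card := by
    have h1 : form Ψ f f = ∑ p ∈ P, ∑ q ∈ P, (Ψ (x p - x q, 0) - Ψ (x p - y q, 0)
        - Ψ (y p - x q, 0) + Ψ (y p - y q, 0)) := by
      rw [hf]
      simp only [map_sum, LinearMap.coe_sum, Finset.sum_apply, map_sub, LinearMap.sub_apply, form_e]
      simp only [← Finset.sum_sub_distrib]
      rw [Finset.sum_comm]
      refine Finset.sum_congr rfl fun p _ => Finset.sum_congr rfl fun q _ => ?_
      simp only [Prod.mk_sub_mk, sub_self]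
      ring
    have h2 : ∀ p ∈ P, ∀ q ∈ P, (Ψ (x p - x q, 0) - Ψ (x p - y q, 0)
        - Ψ (y p - x q, 0) + Ψ (y p - y q, 0)) ≤ if p = q then 2 * D else 0 := by
      intro p hp q hq
      rw [key (x p - x q), key (x p - y q), key (y p - x q), key (y p - y q)]
      have a1 : (if x p - y q = 0 then D else 0) ≥ 0 := by split_ifs <;> linarith
      have a2 : (if y p - x q = 0 then D else 0) ≥ 0 := by split_ifs <;> linarith
      by_cases hpq : p = q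
      · subst hpq
        simp only [sub_self, if_true]
        linarith
      · have b1 : x p - x q ≠ 0 := fun h => hpq (hx hp hq (sub_eq_zero.mp h))
        have b2 : y p - y q ≠ 0 := fun h => hpq (hy hp hq (sub_eq_zero.mp h))
        rw [if_neg b1, if_neg b2, if_neg hpq]
        linarith
    have h3 : form Ψ f f ≤ ∑ p ∈ P, ∑ q ∈ P, (if p = q then 2 * D else 0) := by
      rw [h1]
      exact Finset.sum_le_sum fun p hp => Finset.sum_le_sum fun q hq => h2 p hp q hq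
    have h4 : ∑ p ∈ P, ∑ q ∈ P, (if p = q then 2 * D else 0) = 2 * D * P.card := by
      have : ∀ p ∈ P, ∑ q ∈ P, (if p = q then 2 * D else 0) = 2 * D := by
        intro p hp
        rw [Finset.sum_ite_eq]; simp [hp]
      rw [Finset.sum_congr rfl this]; simp; ring
    have h5 : D ≤ 2 * K := by
      have c1 := (abs_le.mp (H.bdd 0)).2
      have c2 := (abs_le.mp (H.bdd (1, 0))).1
      rw [hD]; linarith
    have h6 : 2 * D * P.card ≤ 4 * K * P.card := by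
      apply mul_le_mul_of_nonneg_right _ (Nat.cast_nonneg _); linarith
    linarith
  have cs := form_cs Ψ H.psd H.symm f g
  rw [hfg] at cs
  have hK := H.K_nonneg
  have hff0 : 0 ≤ form Ψ f f := form_nonneg Ψ H.psd f
  calc _ ≤ form Ψ f f * form Ψ g g := cs
    _ ≤ (4 * K * P.card) * K := by
        exact mul_le_mul hff hgg (form_nonneg Ψ H.psd g)
          (mul_nonneg (by linarith) (Nat.cast_nonneg _))
    _ = _ := by ring

lemma bessel' (H : Inv K Ψ) {α : Type} (P : Finset α) (x y : α → ℚ)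
    (hx : Set.InjOn x P) (hy : Set.InjOn y P) (N : ℕ) (hN : P.card ≤ N ^ 2) :
    ∑ p ∈ P, (Ψ (x p, 1) - Ψ (y p, 1)) ≤ 2 * K * N := by
  have h := H.bessel P x y hx hy
  have hK := H.K_nonneg
  have h2 : (P.card : ℝ) ≤ (N : ℝ) ^ 2 := by exact_mod_cast hN
  have h3 : (∑ p ∈ P, (Ψ (x p, 1) - Ψ (y p, 1))) ^ 2 ≤ (2 * K * N) ^ 2 := by
    refine h.trans ?_
    have : 4 * K ^ 2 * (P.card : ℝ) ≤ 4 * K ^ 2 * (N : ℝ) ^ 2 :=
      mul_le_mul_of_nonneg_left h2 (by positivity)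
    refine this.trans_eq (by ring)
  exact (le_abs_self _).trans (abs_le_of_sq_le_sq' h3 (by positivity) |> fun h => abs_le.mpr h)

lemma prime_ratio {p q p' q' : ℕ} (hp : p.Prime) (hq : q.Prime) (hp' : p'.Prime) (hq' : q'.Prime)
    (hpq : p < q) (hpq' : p' < q') (h : (p : ℚ) / q = p' / q') : p = p' ∧ q = q' := by
  have hq0 : (q : ℚ) ≠ 0 := by exact_mod_cast hq.ne_zero
  have hq0' : (q' : ℚ) ≠ 0 := by exact_mod_cast hq'.ne_zero
  rw [div_eq_div_iff hq0 hq0'] at h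
  have h' : p * q' = p' * q := by exact_mod_cast h
  have hd : p ∣ p' * q := ⟨q', h'.symm⟩
  rcases (Nat.Prime.dvd_mul hp).mp hd with h1 | h1
  · have h2 := (Nat.prime_dvd_prime_iff_eq hp hp').mp h1
    subst h2
    refine ⟨rfl, ?_⟩
    exact (Nat.eq_of_mul_eq_mul_left hp.pos h').symm
  · have h2 := (Nat.prime_dvd_prime_iff_eq hp hq).mp h1
    omega

lemma inj_aux (th : ℚ) (R S : ℚ) (hR : 0 < R) (hS : 0 < S) (hth : th < R * S)
    (h : R + th / R = S + th / S) : R = S := by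
  have hR' := hR.ne'
  have hS' := hS.ne'
  have h1 : (R - S) * (R * S - th) = 0 := by
    field_simp at h
    linarith
  rcases mul_eq_zero.mp h1 with h2 | h2
  · linarith
  · linarith

lemma sum_split (W : Finset ℕ) (G : ℕ → ℕ → ℝ) :
    ∑ p ∈ W, ∑ q ∈ W, G p q = ∑ p ∈ W, G p p +
      ∑ x ∈ (W ×ˢ W).filter (fun x => x.1 < x.2), (G x.1 x.2 + G x.2 x.1) := by
  have h1 : ∀ p q : ℕ, G p q = (if p = q then G p q else 0) + (if p < q then G p q else 0)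
      + (if q < p then G p q else 0) := by
    intro p q
    rcases lt_trichotomy p q with h | h | h
    · simp [h, h.ne, h.not_gt]
    · simp [h]
    · simp [h, h.ne', h.not_gt]
  have h2 : ∑ p ∈ W, ∑ q ∈ W, G p q = ∑ p ∈ W, ∑ q ∈ W, (if p = q then G p q else 0)
      + ∑ p ∈ W, ∑ q ∈ W, (if p < q then G p q else 0)
      + ∑ p ∈ W, ∑ q ∈ W, (if q < p then G p q else 0) := by
    rw [← Finset.sum_add_distrib, ← Finset.sum_add_distrib]
    refine Finset.sum_congr rfl fun p _ => ?_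
    rw [← Finset.sum_add_distrib, ← Finset.sum_add_distrib]
    exact Finset.sum_congr rfl fun q _ => h1 p q
  have h3 : ∑ p ∈ W, ∑ q ∈ W, (if p = q then G p q else 0) = ∑ p ∈ W, G p p := by
    refine Finset.sum_congr rfl fun p hp => ?_
    rw [Finset.sum_ite_eq]; simp [hp]
  have h4 : ∑ p ∈ W, ∑ q ∈ W, (if q < p then G p q else 0)
      = ∑ p ∈ W, ∑ q ∈ W, (if p < q then G q p else 0) := by
    rw [Finset.sum_comm]
  rw [h2, h3, h4, Finset.sum_filter, Finset.sum_product, add_assoc, ← Finset.sum_add_distrib]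
  congr 1
  refine Finset.sum_congr rfl fun p _ => ?_
  rw [← Finset.sum_add_distrib]
  refine Finset.sum_congr rfl fun q _ => ?_
  split_ifs <;> simp

lemma const_neg (H : Inv K Ψ) (th : ℚ) (hth : th < 0) : Ψ (1, 1) = Ψ (th, 1) := by
  have hK := H.K_nonneg
  have main : ∀ N : ℕ, (N : ℝ) ^ 2 * (Ψ (1, 1) - Ψ (th, 1)) ^ 2 ≤ 12 * K ^ 2 * N := by
    intro N
    obtain ⟨W, hW, hWc⟩ := Nat.infinite_setOfPred_prime.exists_subset_card_eq N
    have hWp : ∀ p ∈ W, p.Prime := fun p hp => hW hp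
    set X : (ℚ × ℚ) →₀ ℝ := ∑ p ∈ W, (e ((p : ℚ), (p : ℚ)⁻¹) - e (th * p, (p : ℚ)⁻¹)) with hX
    have h1 : form Ψ X (e 0) = N * (Ψ (1, 1) - Ψ (th, 1)) := by
      rw [hX]
      simp only [map_sum, LinearMap.coe_sum, Finset.sum_apply, map_sub, LinearMap.sub_apply,
        form_e, sub_zero]
      have : ∀ p ∈ W, Ψ ((p : ℚ), (p : ℚ)⁻¹) - Ψ (th * p, (p : ℚ)⁻¹) = Ψ (1, 1) - Ψ (th, 1) := by
        intro p hp
        have hp0 : (p : ℚ) ≠ 0 := by exact_mod_cast (hWp p hp).ne_zero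
        rw [H.psi _ _ (inv_ne_zero hp0), H.psi (th * p) _ (inv_ne_zero hp0)]
        rw [mul_inv_cancel₀ hp0, mul_assoc, mul_inv_cancel₀ hp0, mul_one]
      rw [Finset.sum_congr rfl this, Finset.sum_const, hWc, nsmul_eq_mul]
    set G : ℕ → ℕ → ℝ := fun p q => Ψ ((p : ℚ) - q, (p : ℚ)⁻¹ - (q : ℚ)⁻¹)
      - Ψ ((p : ℚ) - th * q, (p : ℚ)⁻¹ - (q : ℚ)⁻¹) - Ψ (th * p - q, (p : ℚ)⁻¹ - (q : ℚ)⁻¹)
      + Ψ (th * p - th * q, (p : ℚ)⁻¹ - (q : ℚ)⁻¹) with hG
    have h2 : form Ψ X X = ∑ p ∈ W, ∑ q ∈ W, G p q := by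
      rw [hX]
      simp only [map_sum, LinearMap.coe_sum, Finset.sum_apply, map_sub, LinearMap.sub_apply, form_e]
      simp only [← Finset.sum_sub_distrib]
      rw [Finset.sum_comm]
      refine Finset.sum_congr rfl fun p _ => Finset.sum_congr rfl fun q _ => ?_
      simp only [Prod.mk_sub_mk, hG]
      ring
    have hdiag : ∑ p ∈ W, G p p ≤ 4 * K * N := by
      have : ∀ p ∈ W, G p p ≤ 4 * K := by
        intro p _
        have c1 := (abs_le.mp (H.bdd ((p : ℚ) - p, (p : ℚ)⁻¹ - (p : ℚ)⁻¹))).2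
        have c2 := (abs_le.mp (H.bdd ((p : ℚ) - th * p, (p : ℚ)⁻¹ - (p : ℚ)⁻¹))).1
        have c3 := (abs_le.mp (H.bdd (th * p - p, (p : ℚ)⁻¹ - (p : ℚ)⁻¹))).1
        have c4 := (abs_le.mp (H.bdd (th * p - th * p, (p : ℚ)⁻¹ - (p : ℚ)⁻¹))).2
        simp only [hG]
        linarith
      refine (Finset.sum_le_card_nsmul _ _ _ this).trans_eq ?_
      rw [hWc, nsmul_eq_mul]; ring
    set P := (W ×ˢ W).filter (fun x => x.1 < x.2) with hP
    have hPmem : ∀ x ∈ P, x.1.Prime ∧ x.2.Prime ∧ x.1 < x.2 := by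
      intro x hx
      rw [hP, Finset.mem_filter, Finset.mem_product] at hx
      exact ⟨hWp _ hx.1.1, hWp _ hx.1.2, hx.2⟩
    have hPc : P.card ≤ N ^ 2 := by
      refine (Finset.card_filter_le _ _).trans ?_
      rw [Finset.card_product, hWc, sq]
    set t : ℕ × ℕ → ℚ := fun x => ((x.1 : ℚ) - x.2) * ((x.1 : ℚ)⁻¹ - (x.2 : ℚ)⁻¹) with ht
    set u : ℕ × ℕ → ℚ := fun x => ((x.1 : ℚ) - th * x.2) * ((x.1 : ℚ)⁻¹ - (x.2 : ℚ)⁻¹) with hu
    set w : ℕ × ℕ → ℚ := fun x => ((x.2 : ℚ) - th * x.1) * ((x.2 : ℚ)⁻¹ - (x.1 : ℚ)⁻¹) with hw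
    have hoff : ∀ x ∈ P, G x.1 x.2 + G x.2 x.1 =
        2 * (Ψ (t x, 1) - Ψ (u x, 1)) + 2 * (Ψ (th * t x, 1) - Ψ (w x, 1)) := by
      intro x hx
      obtain ⟨h1, h2, h3⟩ := hPmem x hx
      have p0 : (x.1 : ℚ) ≠ 0 := by exact_mod_cast h1.ne_zero
      have q0 : (x.2 : ℚ) ≠ 0 := by exact_mod_cast h2.ne_zero
      have pq : (x.1 : ℚ)⁻¹ - (x.2 : ℚ)⁻¹ ≠ 0 := by
        intro h
        have := inv_injective (sub_eq_zero.mp h)
        have : x.1 = x.2 := by exact_mod_cast this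
        omega
      have qp : (x.2 : ℚ)⁻¹ - (x.1 : ℚ)⁻¹ ≠ 0 := by
        intro h; apply pq; linarith
      simp only [hG]
      rw [H.psi ((x.1 : ℚ) - x.2) _ pq, H.psi ((x.1 : ℚ) - th * x.2) _ pq,
        H.psi (th * (x.1 : ℚ) - x.2) _ pq, H.psi (th * (x.1 : ℚ) - th * x.2) _ pq,
        H.psi ((x.2 : ℚ) - x.1) _ qp, H.psi ((x.2 : ℚ) - th * x.1) _ qp,
        H.psi (th * (x.2 : ℚ) - x.1) _ qp, H.psi (th * (x.2 : ℚ) - th * x.1) _ qp]
      have e1 : ((x.2 : ℚ) - x.1) * ((x.2 : ℚ)⁻¹ - (x.1 : ℚ)⁻¹) = t x := by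
        simp only [ht]; ring
      have e2 : (th * (x.1 : ℚ) - x.2) * ((x.1 : ℚ)⁻¹ - (x.2 : ℚ)⁻¹) = w x := by
        simp only [hw]; ring
      have e3 : (th * (x.2 : ℚ) - x.1) * ((x.2 : ℚ)⁻¹ - (x.1 : ℚ)⁻¹) = u x := by
        simp only [hu]; ring
      have e4 : (th * (x.1 : ℚ) - th * x.2) * ((x.1 : ℚ)⁻¹ - (x.2 : ℚ)⁻¹) = th * t x := by
        simp only [ht]; ring
      have e5 : (th * (x.2 : ℚ) - th * x.1) * ((x.2 : ℚ)⁻¹ - (x.1 : ℚ)⁻¹) = th * t x := by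
        simp only [ht]; ring
      rw [e1, e2, e3, e4, e5]
      simp only [ht, hu, hw]
      ring
    have hratio : ∀ x ∈ P, ∀ y ∈ P, (x.1 : ℚ) / x.2 = (y.1 : ℚ) / y.2 → x = y := by
      intro x hx y hy hxy
      obtain ⟨h1, h2, h3⟩ := hPmem x hx
      obtain ⟨h1', h2', h3'⟩ := hPmem y hy
      have := prime_ratio h1 h2 h1' h2' h3 h3' hxy
      exact Prod.ext this.1 this.2
    have hratio' : ∀ x ∈ P, ∀ y ∈ P, (x.2 : ℚ) / x.1 = (y.2 : ℚ) / y.1 → x = y := by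
      intro x hx y hy hxy
      apply hratio x hx y hy
      rw [← inv_div, hxy, inv_div]
    have hpos : ∀ x ∈ P, (0 : ℚ) < x.1 ∧ (0 : ℚ) < x.2 ∧ (x.1 : ℚ) < x.2 := by
      intro x hx
      obtain ⟨h1, h2, h3⟩ := hPmem x hx
      exact ⟨by exact_mod_cast h1.pos, by exact_mod_cast h2.pos, by exact_mod_cast h3⟩
    have hSpos : ∀ x ∈ P, (1 : ℚ) < (x.2 : ℚ) / x.1 := by
      intro x hx
      obtain ⟨h1, h2, h3⟩ := hpos x hx
      rw [one_lt_div h1]; exact h3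
    have tS : ∀ x ∈ P, t x = 2 - ((x.2 : ℚ) / x.1 + 1 / ((x.2 : ℚ) / x.1)) := by
      intro x hx
      obtain ⟨h1, h2, h3⟩ := hpos x hx
      have := h1.ne'; have := h2.ne'
      simp only [ht]; field_simp; ring
    have wS : ∀ x ∈ P, w x = 1 + th - ((x.2 : ℚ) / x.1 + th / ((x.2 : ℚ) / x.1)) := by
      intro x hx
      obtain ⟨h1, h2, h3⟩ := hpos x hx
      have := h1.ne'; have := h2.ne'
      simp only [hw]; field_simp; ring
    have uS : ∀ x ∈ P, u x = 1 + th - ((x.1 : ℚ) / x.2 + th / ((x.1 : ℚ) / x.2)) := by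
      intro x hx
      obtain ⟨h1, h2, h3⟩ := hpos x hx
      have := h1.ne'; have := h2.ne'
      simp only [hu]; field_simp; ring
    have tinj : Set.InjOn t P := by
      intro x hx y hy hxy
      apply hratio' x hx y hy
      rw [tS x hx, tS y hy] at hxy
      have hx1 := hSpos x hx
      have hy1 := hSpos y hy
      refine inj_aux 1 _ _ (by linarith) (by linarith) ?_ (by linarith)
      nlinarith
    have thinj : Set.InjOn (fun x => th * t x) P := by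
      intro x hx y hy hxy
      exact tinj hx hy (mul_left_cancel₀ hth.ne hxy)
    have uinj : Set.InjOn u P := by
      intro x hx y hy hxy
      apply hratio x hx y hy
      rw [uS x hx, uS y hy] at hxy
      obtain ⟨h1, h2, h3⟩ := hpos x hx
      obtain ⟨h1', h2', h3'⟩ := hpos y hy
      have a1 : 0 < (x.1 : ℚ) / x.2 := div_pos h1 h2
      have a2 : 0 < (y.1 : ℚ) / y.2 := div_pos h1' h2'
      exact inj_aux th _ _ a1 a2 (hth.trans (mul_pos a1 a2)) (by linarith)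
    have winj : Set.InjOn w P := by
      intro x hx y hy hxy
      apply hratio' x hx y hy
      rw [wS x hx, wS y hy] at hxy
      have hx1 := hSpos x hx
      have hy1 := hSpos y hy
      have a1 : 0 < (x.2 : ℚ) / x.1 := by linarith
      have a2 : 0 < (y.2 : ℚ) / y.1 := by linarith
      exact inj_aux th _ _ a1 a2 (hth.trans (mul_pos a1 a2)) (by linarith)
    have b1 := H.bessel' P t u tinj uinj N hPc
    have b2 := H.bessel' P (fun x => th * t x) w thinj winj N hPc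
    have h3 : form Ψ X X ≤ 12 * K * N := by
      have h6 : ∑ x ∈ P, (G x.1 x.2 + G x.2 x.1) = 2 * ∑ x ∈ P, (Ψ (t x, 1) - Ψ (u x, 1)) +
          2 * ∑ x ∈ P, (Ψ (th * t x, 1) - Ψ (w x, 1)) := by
        rw [Finset.sum_congr rfl hoff, Finset.mul_sum, Finset.mul_sum,
          ← Finset.sum_add_distrib]
      rw [h2, sum_split, ← hP, h6]
      linarith
    have cs := form_cs Ψ H.psd H.symm X (e 0)
    rw [h1, form_e, sub_zero] at cs
    have h4 : Ψ 0 ≤ K := (abs_le.mp (H.bdd 0)).2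
    have h5 : 0 ≤ Ψ 0 := by
      have := form_nonneg Ψ H.psd (e 0)
      rwa [form_e, sub_zero] at this
    calc (N : ℝ) ^ 2 * (Ψ (1, 1) - Ψ (th, 1)) ^ 2 = (N * (Ψ (1, 1) - Ψ (th, 1))) ^ 2 := by ring
      _ ≤ form Ψ X X * Ψ 0 := cs
      _ ≤ (12 * K * N) * K := mul_le_mul h3 h4 h5 (mul_nonneg (by linarith) (Nat.cast_nonneg _))
      _ = 12 * K ^ 2 * N := by ring
  by_contra hne
  have hpos : 0 < (Ψ (1, 1) - Ψ (th, 1)) ^ 2 := by
    have : Ψ (1, 1) - Ψ (th, 1) ≠ 0 := sub_ne_zero.mpr hne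
    positivity
  obtain ⟨N, hN⟩ := exists_nat_gt (12 * K ^ 2 / (Ψ (1, 1) - Ψ (th, 1)) ^ 2)
  rw [div_lt_iff₀ hpos] at hN
  have hN0 : (0 : ℝ) < N := by
    rcases Nat.eq_zero_or_pos N with h | h
    · subst h; simp at hN; nlinarith [sq_nonneg K]
    · exact_mod_cast h
  have := main N
  nlinarith

lemma nonneg (H : Inv K Ψ) : 0 ≤ Ψ (1, 1) := by
  have hK := H.K_nonneg
  have main : ∀ N : ℕ, 0 ≤ K * N + ((N : ℝ) ^ 2 - N) * Ψ (1, 1) := by
    intro N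
    obtain ⟨W, hW, hWc⟩ := Nat.infinite_setOfPred_prime.exists_subset_card_eq N
    have hWp : ∀ p ∈ W, p.Prime := fun p hp => hW hp
    set X : (ℚ × ℚ) →₀ ℝ := ∑ p ∈ W, e ((p : ℚ), (p : ℚ)⁻¹) with hX
    have h0 := form_nonneg Ψ H.psd X
    have h2 : form Ψ X X = ∑ p ∈ W, ∑ q ∈ W, Ψ ((p : ℚ) - q, (p : ℚ)⁻¹ - (q : ℚ)⁻¹) := by
      rw [hX]
      simp only [map_sum, LinearMap.coe_sum, Finset.sum_apply, form_e]
      rw [Finset.sum_comm]
      refine Finset.sum_congr rfl fun p _ => Finset.sum_congr rfl fun q _ => ?_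
      simp only [Prod.mk_sub_mk]
    have h3 : ∀ p ∈ W, ∀ q ∈ W, Ψ ((p : ℚ) - q, (p : ℚ)⁻¹ - (q : ℚ)⁻¹) =
        Ψ (1, 1) + if p = q then (Ψ 0 - Ψ (1, 1)) else 0 := by
      intro p hp q hq
      by_cases hpq : p = q
      · subst hpq
        simp only [sub_self, if_true]
        have : ((0 : ℚ), (0 : ℚ)) = 0 := rfl
        rw [this]; ring
      · rw [if_neg hpq, add_zero]
        have p0 : (0 : ℚ) < p := by exact_mod_cast (hWp p hp).pos
        have q0 : (0 : ℚ) < q := by exact_mod_cast (hWp q hq).pos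
        have pq : (p : ℚ) - q ≠ 0 := by
          intro h; apply hpq; exact_mod_cast sub_eq_zero.mp h
        have pq' : (p : ℚ)⁻¹ - (q : ℚ)⁻¹ ≠ 0 := by
          intro h; apply hpq; exact_mod_cast inv_injective (sub_eq_zero.mp h)
        rw [H.psi _ _ pq']
        symm
        apply H.const_neg
        have : ((p : ℚ) - q) * ((p : ℚ)⁻¹ - (q : ℚ)⁻¹) = - ((p - q) ^ 2 / (p * q)) := by
          have := p0.ne'; have := q0.ne'
          field_simp; ring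
        rw [this]
        have : 0 < ((p : ℚ) - q) ^ 2 / (p * q) := by positivity
        linarith
    have h4 : form Ψ X X = N ^ 2 * Ψ (1, 1) + N * (Ψ 0 - Ψ (1, 1)) := by
      rw [h2]
      have : ∑ p ∈ W, ∑ q ∈ W, Ψ ((p : ℚ) - q, (p : ℚ)⁻¹ - (q : ℚ)⁻¹) =
          ∑ p ∈ W, ∑ q ∈ W, (Ψ (1, 1) + if p = q then (Ψ 0 - Ψ (1, 1)) else 0) :=
        Finset.sum_congr rfl fun p hp => Finset.sum_congr rfl fun q hq => h3 p hp q hq
      rw [this]
      have : ∀ p ∈ W, ∑ q ∈ W, (Ψ (1, 1) + if p = q then (Ψ 0 - Ψ (1, 1)) else 0) =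
          N * Ψ (1, 1) + (Ψ 0 - Ψ (1, 1)) := by
        intro p hp
        rw [Finset.sum_add_distrib, Finset.sum_ite_eq]
        simp [hp, hWc]
      rw [Finset.sum_congr rfl this]
      simp [hWc]; ring
    have h5 : Ψ 0 ≤ K := (abs_le.mp (H.bdd 0)).2
    have hN : (0 : ℝ) ≤ N := Nat.cast_nonneg _
    rw [h4] at h0
    nlinarith
  by_contra hneg
  push Not at hneg
  obtain ⟨N, hN⟩ := exists_nat_gt (K / (-Ψ (1, 1)) + 1)
  have h1 := main N
  have hneg' : 0 < -Ψ (1, 1) := by linarith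
  have hN1 : K / (-Ψ (1, 1)) < (N : ℝ) - 1 := by linarith
  rw [div_lt_iff₀ hneg'] at hN1
  have hN0 : (0 : ℝ) < N := by
    have : 0 ≤ K / (-Ψ (1, 1)) := div_nonneg hK hneg'.le
    linarith
  nlinarith

end Inv

end Pool.Agent.Helper482.Hyp
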