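import Mathlib
import Pool.Agent.Helper482.HypKey

set_option autoImplicit false

namespace Pool.Agent.Helper482.Hyp

open Finset Filter Topology

lemma exists_ulim (F : ℕ → ℚ × ℚ → ℝ) (hF : ∀ n h, |F n h| ≤ 1) :
    ∃ Φ : ℚ × ℚ → ℝ, ∀ h, Tendsto (fun n => F n h) (hyperfilter ℕ : Filter ℕ) (𝓝 (Φ h)) := by
  have : ∀ h, ∃ x : ℝ, Tendsto (fun n => F n h) (hyperfilter ℕ : Filter ℕ) (𝓝 x) := by
    intro h
    have hc : IsCompact (Set.Icc (-1 : ℝ) 1) := isCompact_Icc
    obtain ⟨x, _, hx⟩ := hc.ultrafilter_le_nhds ((hyperfilter ℕ).map (fun n => F n h)) (by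
      rw [le_principal_iff, Ultrafilter.coe_map, Filter.mem_map]
      exact univ_mem' fun n => abs_le.mp (hF n h))
    exact ⟨x, hx⟩
  choose Φ hΦ using this
  exact ⟨Φ, hΦ⟩

lemma good_of_tendsto (η : ℝ) (F : ℕ → ℚ × ℚ → ℝ) (Φ : ℚ × ℚ → ℝ)
    (hΦ : ∀ h, Tendsto (fun n => F n h) (hyperfilter ℕ : Filter ℕ) (𝓝 (Φ h)))
    (h1 : ∀ (s : Finset (ℚ × ℚ)) (c : ℚ × ℚ → ℝ), ∀ᶠ n in (hyperfilter ℕ : Filter ℕ),
      η * (∑ h ∈ s, c h) ^ 2 ≤ ∑ h ∈ s, ∑ h' ∈ s, c h * c h' * F n (h - h'))
    (h2 : ∀ h, ∀ᶠ n in (hyperfilter ℕ : Filter ℕ), F n (-h) = F n h)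
    (h3 : ∀ n h, |F n h| ≤ 1)
    (h4 : ∀ q : ℚ, 0 < q → ∀ᶠ n in (hyperfilter ℕ : Filter ℕ), F n (q, q⁻¹) = 0) :
    Good η Φ where
  psd s c := by
    have : Tendsto (fun n => ∑ h ∈ s, ∑ h' ∈ s, c h * c h' * F n (h - h'))
        (hyperfilter ℕ : Filter ℕ) (𝓝 (∑ h ∈ s, ∑ h' ∈ s, c h * c h' * Φ (h - h'))) :=
      tendsto_finsetSum _ fun h _ => tendsto_finsetSum _ fun h' _ =>
        (hΦ (h - h')).const_mul _
    exact ge_of_tendsto this (h1 s c)
  symm h := by
    have a := hΦ (-h)
    have b := (hΦ h).congr' ((h2 h).mono fun n hn => hn.symm)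
    exact tendsto_nhds_unique a b
  bdd h := by
    have a := (hΦ h).abs
    exact le_of_tendsto a (Eventually.of_forall fun n => h3 n h)
  zero q hq := by
    have a := hΦ (q, q⁻¹)
    have b : Tendsto (fun n => F n (q, q⁻¹)) (hyperfilter ℕ : Filter ℕ) (𝓝 0) :=
      tendsto_const_nhds.congr' ((h4 q hq).mono fun n hn => hn.symm)
    exact tendsto_nhds_unique a b

lemma Good.act {η : ℝ} {Φ : ℚ × ℚ → ℝ} (G : Good η Φ) (q : ℚ) (hq : 0 < q) :
    Good η (fun h => Φ (q * h.1, h.2 / q)) where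
  psd s c := by
    classical
    have hq' : q ≠ 0 := hq.ne'
    let T : ℚ × ℚ → ℚ × ℚ := fun h => (q * h.1, h.2 / q)
    have hT : ∀ h, ((T h).1 / q, q * (T h).2) = h := by
      intro h
      simp only [T]
      ext
      · field_simp
      · field_simp
    have hinj : Function.Injective T := by
      intro a b hab
      rw [← hT a, ← hT b, hab]
    have := G.psd (s.image T) (fun h => c (h.1 / q, q * h.2))
    rw [Finset.sum_image (hinj.injOn)] at this
    simp only [Finset.sum_image (hinj.injOn)] at this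
    have e1 : ∀ h, c ((T h).1 / q, q * (T h).2) = c h := fun h => by
      rw [hT h]
    simp only [e1] at this
    have e2 : ∀ h h' : ℚ × ℚ, T h - T h' = (q * (h - h').1, (h - h').2 / q) := by
      intro h h'
      simp only [T, Prod.mk_sub_mk, Prod.fst_sub, Prod.snd_sub]
      ext
      · simp only; ring
      · simp only; ring
    simp only [e2] at this
    exact this
  symm h := by
    have := G.symm (q * h.1, h.2 / q)
    simp only [Prod.neg_mk] at this
    simp only [Prod.fst_neg, Prod.snd_neg, mul_neg, neg_div]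
    exact this
  bdd h := G.bdd _
  zero r hr := by
    have := G.zero (q * r) (mul_pos hq hr)
    simp only
    rw [← this]
    congr 1
    rw [mul_inv, div_eq_mul_inv, mul_comm q⁻¹]

lemma Good.avg {η : ℝ} {F : ℕ → ℚ × ℚ → ℝ} (G : ∀ i, Good η (F i)) (k : ℕ) :
    Good η (fun h => (∑ i ∈ range (k + 1), F i h) / ((k : ℝ) + 1)) where
  psd s c := by
    have hk : (0 : ℝ) < (k : ℝ) + 1 := by positivity
    have e1 : ∑ h ∈ s, ∑ h' ∈ s, c h * c h' * ((∑ i ∈ range (k + 1), F i (h - h')) / ((k : ℝ) + 1))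
        = (∑ i ∈ range (k + 1), ∑ h ∈ s, ∑ h' ∈ s, c h * c h' * F i (h - h')) / ((k : ℝ) + 1) := by
      rw [Finset.sum_comm (s := range (k + 1)), Finset.sum_div]
      refine Finset.sum_congr rfl fun h _ => ?_
      rw [Finset.sum_comm (s := range (k + 1)), Finset.sum_div]
      refine Finset.sum_congr rfl fun h' _ => ?_
      rw [← Finset.mul_sum]; ring
    rw [e1, le_div_iff₀ hk]
    have : ∑ i ∈ range (k + 1), η * (∑ h ∈ s, c h) ^ 2 ≤
        ∑ i ∈ range (k + 1), ∑ h ∈ s, ∑ h' ∈ s, c h * c h' * F i (h - h') :=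
      Finset.sum_le_sum fun i _ => (G i).psd s c
    rw [Finset.sum_const, card_range, nsmul_eq_mul] at this
    push_cast at this
    linarith
  symm h := by
    simp only [(G _).symm]
  bdd h := by
    have hk : (0 : ℝ) < (k : ℝ) + 1 := by positivity
    rw [abs_div, abs_of_pos hk, div_le_one hk]
    refine (Finset.abs_sum_le_sum_abs _ _).trans ?_
    refine (Finset.sum_le_sum fun i _ => (G i).bdd h).trans ?_
    simp
  zero q hq := by
    simp only [(G _).zero q hq, Finset.sum_const_zero, zero_div]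

lemma exists_inv_step {η : ℝ} {Φ : ℚ × ℚ → ℝ} (G : Good η Φ) (n : ℕ)
    (hinv : ∀ j : ℕ, 0 < j → j ≤ n → ∀ u v : ℚ, Φ (j * u, v / j) = Φ (u, v)) :
    ∃ Φ' : ℚ × ℚ → ℝ, Good η Φ' ∧
      ∀ j : ℕ, 0 < j → j ≤ n + 1 → ∀ u v : ℚ, Φ' (j * u, v / j) = Φ' (u, v) := by
  set J : ℚ := ((n + 1 : ℕ) : ℚ) with hJ
  have hJ0 : 0 < J := by rw [hJ]; exact_mod_cast Nat.succ_pos n
  let F : ℕ → ℚ × ℚ → ℝ := fun i h => Φ (J ^ i * h.1, h.2 / J ^ i)
  have hF : ∀ i, Good η (F i) := fun i => G.act (J ^ i) (pow_pos hJ0 i)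
  let C : ℕ → ℚ × ℚ → ℝ := fun k h => (∑ i ∈ range (k + 1), F i h) / ((k : ℝ) + 1)
  have hC : ∀ k, Good η (C k) := fun k => Good.avg hF k
  obtain ⟨Φ', hΦ'⟩ := exists_ulim C (fun k h => (hC k).bdd h)
  refine ⟨Φ', ?_, ?_⟩
  · exact good_of_tendsto η C Φ' hΦ' (fun s c => Eventually.of_forall fun k => (hC k).psd s c)
      (fun h => Eventually.of_forall fun k => (hC k).symm h) (fun k h => (hC k).bdd h)
      (fun q hq => Eventually.of_forall fun k => (hC k).zero q hq)
  · intro j hj0 hjn u v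
    rcases Nat.lt_or_ge n j with h | h
    · have hjn' : j = n + 1 := by omega
      subst hjn'
      rw [← hJ]
      have a := hΦ' (J * u, v / J)
      have b := hΦ' (u, v)
      have hd : Tendsto (fun k => C k (J * u, v / J) - C k (u, v))
          (hyperfilter ℕ : Filter ℕ) (𝓝 0) := by
        have e1 : ∀ k, C k (J * u, v / J) - C k (u, v) =
            (F (k + 1) (u, v) - F 0 (u, v)) / ((k : ℝ) + 1) := by
          intro k
          simp only [C]
          rw [← sub_div]
          congr 1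
          have : ∀ i, F i (J * u, v / J) = F (i + 1) (u, v) := by
            intro i
            simp only [F]
            congr 2
            · ring
            · rw [div_div, ← pow_succ']
          simp only [this]
          rw [← Finset.sum_sub_distrib]
          exact Finset.sum_range_sub (fun i => F i (u, v)) (k + 1)
        have e2 : Tendsto (fun k : ℕ => (2 : ℝ) / ((k : ℝ) + 1)) atTop (𝓝 0) :=
          (tendsto_const_nhds).div_atTop
            (tendsto_atTop_add_const_right _ _ tendsto_natCast_atTop_atTop)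
        have e3 : Tendsto (fun k => C k (J * u, v / J) - C k (u, v)) atTop (𝓝 0) := by
          refine squeeze_zero_norm (fun k => ?_) e2
          rw [e1 k, Real.norm_eq_abs, abs_div, abs_of_pos (by positivity : (0 : ℝ) < (k : ℝ) + 1)]
          apply div_le_div_of_nonneg_right _ (by positivity)
          have c1 := abs_le.mp ((hF (k + 1)).bdd (u, v))
          have c2 := abs_le.mp ((hF 0).bdd (u, v))
          rw [abs_le]
          constructor <;> linarith
        exact e3.mono_left Nat.hyperfilter_le_atTop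
      have := tendsto_nhds_unique (a.sub b) hd
      linarith
    · have a := hΦ' (j * u, v / j)
      have b := hΦ' (u, v)
      have e1 : ∀ k, C k (j * u, v / j) = C k (u, v) := by
        intro k
        simp only [C]
        congr 1
        refine Finset.sum_congr rfl fun i _ => ?_
        simp only [F]
        have := hinv j hj0 h (J ^ i * u) (v / J ^ i)
        rw [← this]
        congr 2
        · ring
        · rw [div_div, div_div, mul_comm]
      simp only [e1] at a
      exact tendsto_nhds_unique a b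

end Pool.Agent.Helper482.Hyp
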