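import Mathlib
import Pool.Agent.Helper482.HypLim

set_option autoImplicit false

namespace Pool.Agent.Helper482.Hyp

open Finset Filter Topology

lemma Good.eta_nonpos {η : ℝ} {Φ : ℚ × ℚ → ℝ} (G : Good η Φ) : η ≤ 0 := by
  have h1 : ∀ n : ℕ, ∃ Φ' : ℚ × ℚ → ℝ, Good η Φ' ∧
      ∀ j : ℕ, 0 < j → j ≤ n → ∀ u v : ℚ, Φ' (j * u, v / j) = Φ' (u, v) := by
    intro n
    induction n with
    | zero => exact ⟨Φ, G, fun j h1 h2 => by omega⟩
    | succ n ih =>
      obtain ⟨Φ₁, G₁, h₁⟩ := ih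
      exact exists_inv_step G₁ n h₁
  choose F hF hFinv using h1
  obtain ⟨Θ, hΘ⟩ := exists_ulim F (fun n h => (hF n).bdd h)
  have hG : Good η Θ := good_of_tendsto η F Θ hΘ
    (fun s c => Eventually.of_forall fun k => (hF k).psd s c)
    (fun h => Eventually.of_forall fun k => (hF k).symm h) (fun k h => (hF k).bdd h)
    (fun q hq => Eventually.of_forall fun k => (hF k).zero q hq)
  have hinv : ∀ j : ℕ, 0 < j → ∀ u v : ℚ, Θ (j * u, v / j) = Θ (u, v) := by
    intro j hj u v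
    have a := hΘ (j * u, v / j)
    have b := hΘ (u, v)
    refine tendsto_nhds_unique a (b.congr' ?_)
    have : ∀ᶠ n : ℕ in atTop, F n (u, v) = F n (j * u, v / j) := by
      filter_upwards [eventually_ge_atTop j] with n hn
      exact (hFinv n j hj hn u v).symm
    exact this.filter_mono Nat.hyperfilter_le_atTop
  have hI : Inv (1 + |η|) (fun h => Θ h - η) :=
    { psd := by
        intro s c
        have := hG.psd s c
        have e1 : ∑ h ∈ s, ∑ h' ∈ s, c h * c h' * (Θ (h - h') - η) =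
            (∑ h ∈ s, ∑ h' ∈ s, c h * c h' * Θ (h - h')) - η * (∑ h ∈ s, c h) ^ 2 := by
          rw [sq, Finset.sum_mul_sum, Finset.mul_sum, ← Finset.sum_sub_distrib]
          refine Finset.sum_congr rfl fun h _ => ?_
          rw [Finset.mul_sum, ← Finset.sum_sub_distrib]
          refine Finset.sum_congr rfl fun h' _ => ?_
          ring
        rw [e1]; linarith
      symm := by intro h; simp only [hG.symm]
      bdd := by
        intro h
        exact (abs_sub _ _).trans (add_le_add (hG.bdd h) le_rfl)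
      inv := by intro j hj u v; simp only [hinv j hj u v] }
  have := hI.nonneg
  have h0 := hG.zero 1 one_pos
  rw [inv_one] at h0
  simp only [h0] at this
  linarith

lemma corr (B X : Finset (ℤ × ℤ)) (z z' : ℤ × ℤ) (hX : ∀ y ∈ B, y - z' ∈ X) :
    ∑ x ∈ X, (if x + z ∈ B then (1 : ℝ) else 0) * (if x + z' ∈ B then (1 : ℝ) else 0) =
      ((B.filter (fun y => y + (z - z') ∈ B)).card : ℝ) := by
  have e1 : ∀ x ∈ X, (if x + z ∈ B then (1 : ℝ) else 0) * (if x + z' ∈ B then (1 : ℝ) else 0) =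
      if (x + z ∈ B ∧ x + z' ∈ B) then (1 : ℝ) else 0 := by
    intro x _
    by_cases h1 : x + z ∈ B <;> by_cases h2 : x + z' ∈ B <;> simp [h1, h2]
  rw [Finset.sum_congr rfl e1, Finset.sum_boole]
  congr 1
  refine Finset.card_bij' (fun x _ => x + z') (fun y _ => y - z') ?_ ?_ ?_ ?_
  · intro x hx
    rw [Finset.mem_filter] at hx ⊢
    refine ⟨hx.2.2, ?_⟩
    have : x + z' + (z - z') = x + z := by abel
    rw [this]; exact hx.2.1
  · intro y hy
    rw [Finset.mem_filter] at hy ⊢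
    refine ⟨hX y hy.1, ?_, ?_⟩
    · have : y - z' + z = y + (z - z') := by abel
      rw [this]; exact hy.2
    · rw [sub_add_cancel]; exact hy.1
  · intro x _; simp
  · intro y _; simp

lemma mass (B X : Finset (ℤ × ℤ)) (z : ℤ × ℤ) (hX : ∀ y ∈ B, y - z ∈ X) :
    ∑ x ∈ X, (if x + z ∈ B then (1 : ℝ) else 0) = (B.card : ℝ) := by
  rw [Finset.sum_boole]
  congr 1
  refine Finset.card_bij' (fun x _ => x + z) (fun y _ => y - z) ?_ ?_ ?_ ?_
  · intro x hx
    rw [Finset.mem_filter] at hx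
    exact hx.2
  · intro y hy
    rw [Finset.mem_filter]
    exact ⟨hX y hy, by rw [sub_add_cancel]; exact hy⟩
  · intro x _; simp
  · intro y _; simp

lemma psd_fin {ι : Type} (B : Finset (ℤ × ℤ)) (N R : ℕ)
    (hB : ∀ x ∈ B, 0 ≤ x.1 ∧ x.1 < N ∧ 0 ≤ x.2 ∧ x.2 < N)
    (hR : 2 * R ≤ N) (s : Finset ι) (c : ι → ℝ) (z : ι → ℤ × ℤ)
    (hz : ∀ i ∈ s, |(z i).1| ≤ R ∧ |(z i).2| ≤ R) :
    (∑ i ∈ s, c i) ^ 2 * (B.card : ℝ) ^ 2 ≤ 4 * (N : ℝ) ^ 2 *
      ∑ i ∈ s, ∑ j ∈ s, c i * c j * ((B.filter (fun y => y + (z i - z j) ∈ B)).card : ℝ) := by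
  classical
  set X : Finset (ℤ × ℤ) := Finset.Ico (-(R : ℤ)) (N + R) ×ˢ Finset.Ico (-(R : ℤ)) (N + R) with hXdef
  have hXc : (X.card : ℝ) ≤ 4 * (N : ℝ) ^ 2 := by
    rw [hXdef, Finset.card_product, Int.card_Ico]
    have : ((N : ℤ) + R - -(R : ℤ)).toNat = N + 2 * R := by omega
    rw [this]
    have h2 : ((N + 2 * R : ℕ) : ℝ) ≤ 2 * N := by
      have : N + 2 * R ≤ 2 * N := by omega
      exact_mod_cast this
    push_cast at h2 ⊢
    have h0 : (0 : ℝ) ≤ N + 2 * R := by positivity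
    nlinarith
  have hX : ∀ i ∈ s, ∀ y ∈ B, y - z i ∈ X := by
    intro i hi y hy
    obtain ⟨h1, h2⟩ := hz i hi
    rw [abs_le] at h1 h2
    obtain ⟨b1, b2, b3, b4⟩ := hB y hy
    rw [hXdef, Finset.mem_product, Finset.mem_Ico, Finset.mem_Ico, Prod.fst_sub, Prod.snd_sub]
    refine ⟨⟨?_, ?_⟩, ⟨?_, ?_⟩⟩ <;> linarith
  set g : ℤ × ℤ → ℝ := fun x => ∑ i ∈ s, c i * (if x + z i ∈ B then (1 : ℝ) else 0) with hg
  have h1 : ∑ x ∈ X, g x = (∑ i ∈ s, c i) * B.card := by
    rw [hg]; simp only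
    rw [Finset.sum_comm, Finset.sum_mul]
    refine Finset.sum_congr rfl fun i hi => ?_
    rw [← Finset.mul_sum, mass B X (z i) (hX i hi)]
  have h2 : ∑ x ∈ X, g x ^ 2 =
      ∑ i ∈ s, ∑ j ∈ s, c i * c j * ((B.filter (fun y => y + (z i - z j) ∈ B)).card : ℝ) := by
    have e1 : ∀ x ∈ X, g x ^ 2 = ∑ i ∈ s, ∑ j ∈ s, c i * c j *
        ((if x + z i ∈ B then (1 : ℝ) else 0) * (if x + z j ∈ B then (1 : ℝ) else 0)) := by
      intro x _
      rw [hg, sq, Finset.sum_mul_sum]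
      refine Finset.sum_congr rfl fun i _ => Finset.sum_congr rfl fun j _ => ?_
      ring
    rw [Finset.sum_congr rfl e1, Finset.sum_comm]
    refine Finset.sum_congr rfl fun i _ => ?_
    rw [Finset.sum_comm]
    refine Finset.sum_congr rfl fun j hj => ?_
    rw [← Finset.mul_sum, corr B X (z i) (z j) (hX j hj)]
  have h3 := sq_sum_le_card_mul_sum_sq (s := X) (f := g)
  rw [h1, h2, mul_pow] at h3
  refine h3.trans ?_
  have h4 : 0 ≤ ∑ i ∈ s, ∑ j ∈ s,
      c i * c j * ((B.filter (fun y => y + (z i - z j) ∈ B)).card : ℝ) := by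
    rw [← h2]; exact Finset.sum_nonneg fun x _ => sq_nonneg _
  exact mul_le_mul_of_nonneg_right hXc h4

end Pool.Agent.Helper482.Hyp
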