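import Mathlib
import Pool.Agent.Helper482.HypFin

set_option autoImplicit false

namespace Pool.Agent.Helper482.Hyp

open Finset Filter Topology

/-- integer point obtained from scaling by n! -/
noncomputable def zz (n : ℕ) (h : ℚ × ℚ) : ℤ × ℤ :=
  (⌊(n.factorial : ℚ) * h.1⌋, ⌊(n.factorial : ℚ) * h.2⌋)

lemma fact_int (q : ℚ) (n : ℕ) (hn : q.den ≤ n) :
    ((⌊(n.factorial : ℚ) * q⌋ : ℤ) : ℚ) = (n.factorial : ℚ) * q := by
  obtain ⟨k, hk⟩ := Nat.dvd_factorial q.den_pos hn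
  have h1 : (n.factorial : ℚ) * q = ((k * q.num : ℤ) : ℚ) := by
    rw [hk]
    push_cast
    have := Rat.mul_den_eq_num q
    calc (q.den : ℚ) * k * q = k * (q * q.den) := by ring
      _ = k * q.num := by rw [this]
  rw [h1, Int.floor_intCast]

lemma zz_ev (h : ℚ × ℚ) : ∀ᶠ n : ℕ in atTop,
    ((zz n h).1 : ℚ) = (n.factorial : ℚ) * h.1 ∧ ((zz n h).2 : ℚ) = (n.factorial : ℚ) * h.2 := by
  filter_upwards [eventually_ge_atTop h.1.den, eventually_ge_atTop h.2.den] with n h1 h2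
  exact ⟨fact_int _ _ h1, fact_int _ _ h2⟩

lemma zz_sub (h h' : ℚ × ℚ) : ∀ᶠ n : ℕ in atTop, zz n (h - h') = zz n h - zz n h' := by
  filter_upwards [zz_ev h, zz_ev h', zz_ev (h - h')] with n h1 h2 h3
  ext
  · have : (((zz n (h - h')).1 : ℤ) : ℚ) = (((zz n h - zz n h').1 : ℤ) : ℚ) := by
      rw [Prod.fst_sub, h3.1, Int.cast_sub, h1.1, h2.1, Prod.fst_sub]; ring
    exact_mod_cast this
  · have : (((zz n (h - h')).2 : ℤ) : ℚ) = (((zz n h - zz n h').2 : ℤ) : ℚ) := by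
      rw [Prod.snd_sub, h3.2, Int.cast_sub, h1.2, h2.2, Prod.snd_sub]; ring
    exact_mod_cast this

lemma zz_neg (h : ℚ × ℚ) : ∀ᶠ n : ℕ in atTop, zz n (-h) = - zz n h := by
  filter_upwards [zz_ev h, zz_ev (-h)] with n h1 h3
  ext
  · have : (((zz n (-h)).1 : ℤ) : ℚ) = (((-zz n h).1 : ℤ) : ℚ) := by
      rw [Prod.fst_neg, h3.1, Int.cast_neg, h1.1, Prod.fst_neg]; ring
    exact_mod_cast this
  · have : (((zz n (-h)).2 : ℤ) : ℚ) = (((-zz n h).2 : ℤ) : ℚ) := by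
      rw [Prod.snd_neg, h3.2, Int.cast_neg, h1.2, Prod.snd_neg]; ring
    exact_mod_cast this

/-- There is `m` depending only on `δ` such that dense subsets of large squares contain
two points whose coordinate differences multiply to `m`. -/
theorem finite_main (δ : ℝ) (hδ : 0 < δ) : ∃ m : ℕ, 0 < m ∧ ∃ N₀ : ℕ, ∀ N : ℕ, N₀ ≤ N →
    ∀ B : Finset (ℤ × ℤ), (∀ x ∈ B, 0 ≤ x.1 ∧ x.1 < N ∧ 0 ≤ x.2 ∧ x.2 < N) →
      δ * (N : ℝ) ^ 2 ≤ B.card →
      ∃ x ∈ B, ∃ y ∈ B, (x.1 - y.1) * (x.2 - y.2) = (m : ℤ) := by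
  by_contra hcon
  push Not at hcon
  have h1 : ∀ n : ℕ, ∃ N : ℕ, n * n.factorial + 1 ≤ N ∧ ∃ B : Finset (ℤ × ℤ),
      (∀ x ∈ B, 0 ≤ x.1 ∧ x.1 < N ∧ 0 ≤ x.2 ∧ x.2 < N) ∧ δ * (N : ℝ) ^ 2 ≤ B.card ∧
      ∀ x ∈ B, ∀ y ∈ B, (x.1 - y.1) * (x.2 - y.2) ≠ ((n.factorial ^ 2 : ℕ) : ℤ) := by
    intro n
    exact hcon (n.factorial ^ 2) (by have := n.factorial_pos; positivity) (n * n.factorial + 1)
  choose N hN B hB hBd hBz using h1
  have hNpos : ∀ n, 0 < N n := fun n => by have := hN n; omega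
  have hNR : ∀ n, (0 : ℝ) < (N n : ℝ) ^ 2 := fun n => by
    have : (0 : ℝ) < N n := by exact_mod_cast hNpos n
    positivity
  have hBc : ∀ n, ((B n).card : ℝ) ≤ (N n : ℝ) ^ 2 := by
    intro n
    have hsub : B n ⊆ Finset.Ico (0 : ℤ) (N n) ×ˢ Finset.Ico (0 : ℤ) (N n) := by
      intro x hx
      obtain ⟨a1, a2, a3, a4⟩ := hB n x hx
      rw [Finset.mem_product, Finset.mem_Ico, Finset.mem_Ico]
      exact ⟨⟨a1, a2⟩, ⟨a3, a4⟩⟩
    have := Finset.card_le_card hsub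
    rw [Finset.card_product, Int.card_Ico] at this
    simp only [sub_zero, Int.toNat_natCast] at this
    have h2 : ((B n).card : ℝ) ≤ ((N n * N n : ℕ) : ℝ) := by exact_mod_cast this
    push_cast at h2
    rw [sq]; exact h2
  let F : ℕ → ℚ × ℚ → ℝ := fun n h =>
    (((B n).filter (fun y => y + zz n h ∈ B n)).card : ℝ) / (N n : ℝ) ^ 2
  have hF : ∀ n h, |F n h| ≤ 1 := by
    intro n h
    have h0 : 0 ≤ F n h := by positivity
    rw [abs_of_nonneg h0]
    simp only [F]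
    rw [div_le_one (hNR n)]
    refine le_trans ?_ (hBc n)
    exact_mod_cast Finset.card_filter_le _ _
  obtain ⟨Φ, hΦ⟩ := exists_ulim F hF
  have hG : Good (δ ^ 2 / 4) Φ := by
    refine good_of_tendsto (δ ^ 2 / 4) F Φ hΦ ?_ ?_ hF ?_
    · intro s c
      refine Filter.Eventually.filter_mono Nat.hyperfilter_le_atTop ?_
      have e1 : ∀ᶠ n : ℕ in atTop, ∀ h ∈ s, ∀ h' ∈ s, zz n (h - h') = zz n h - zz n h' := by
        rw [Filter.eventually_all_finset]
        intro h _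
        rw [Filter.eventually_all_finset]
        intro h' _
        exact zz_sub h h'
      have e2 : ∀ᶠ n : ℕ in atTop, ∀ h ∈ s, ((zz n h).1 : ℚ) = (n.factorial : ℚ) * h.1 ∧
          ((zz n h).2 : ℚ) = (n.factorial : ℚ) * h.2 := by
        rw [Filter.eventually_all_finset]
        intro h _
        exact zz_ev h
      obtain ⟨M, hM⟩ : ∃ M : ℕ, ∀ h ∈ s, |h.1| ≤ M ∧ |h.2| ≤ M := by
        refine ⟨∑ h ∈ s, (⌈|h.1|⌉₊ + ⌈|h.2|⌉₊), fun h hh => ?_⟩
        have a1 : ⌈|h.1|⌉₊ + ⌈|h.2|⌉₊ ≤ ∑ h ∈ s, (⌈|h.1|⌉₊ + ⌈|h.2|⌉₊) :=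
          Finset.single_le_sum (f := fun h : ℚ × ℚ => ⌈|h.1|⌉₊ + ⌈|h.2|⌉₊)
            (fun _ _ => Nat.zero_le _) hh
        have a2 : ((⌈|h.1|⌉₊ + ⌈|h.2|⌉₊ : ℕ) : ℚ) ≤
            ((∑ h ∈ s, (⌈|h.1|⌉₊ + ⌈|h.2|⌉₊) : ℕ) : ℚ) := by exact_mod_cast a1
        rw [Nat.cast_add] at a2
        have a3 : |h.1| ≤ (⌈|h.1|⌉₊ : ℚ) := Nat.le_ceil _
        have a4 : |h.2| ≤ (⌈|h.2|⌉₊ : ℚ) := Nat.le_ceil _
        have a5 : (0 : ℚ) ≤ (⌈|h.1|⌉₊ : ℚ) := Nat.cast_nonneg _
        have a6 : (0 : ℚ) ≤ (⌈|h.2|⌉₊ : ℚ) := Nat.cast_nonneg _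
        constructor <;> linarith
      filter_upwards [e1, e2, eventually_ge_atTop (2 * M)] with n h1 h2 h3
      have hR : 2 * (M * n.factorial) ≤ N n := by
        have := hN n
        have h4 : 2 * M * n.factorial ≤ n * n.factorial := Nat.mul_le_mul_right _ h3
        calc 2 * (M * n.factorial) = 2 * M * n.factorial := by ring
          _ ≤ n * n.factorial := h4
          _ ≤ N n := by omega
      have hz : ∀ h ∈ s, |(zz n h).1| ≤ ((M * n.factorial : ℕ) : ℤ) ∧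
          |(zz n h).2| ≤ ((M * n.factorial : ℕ) : ℤ) := by
        intro h hh
        obtain ⟨b1, b2⟩ := h2 h hh
        obtain ⟨b3, b4⟩ := hM h hh
        have hf : (0 : ℚ) ≤ n.factorial := Nat.cast_nonneg _
        constructor
        · have : ((|(zz n h).1| : ℤ) : ℚ) ≤ ((M * n.factorial : ℕ) : ℤ) := by
            rw [Int.cast_abs, b1, abs_mul, abs_of_nonneg hf]
            push_cast
            nlinarith
          exact_mod_cast this
        · have : ((|(zz n h).2| : ℤ) : ℚ) ≤ ((M * n.factorial : ℕ) : ℤ) := by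
            rw [Int.cast_abs, b2, abs_mul, abs_of_nonneg hf]
            push_cast
            nlinarith
          exact_mod_cast this
      have key := psd_fin (B n) (N n) (M * n.factorial) (hB n) hR s c (zz n) hz
      have e3 : ∑ h ∈ s, ∑ h' ∈ s, c h * c h' * F n (h - h') =
          (∑ h ∈ s, ∑ h' ∈ s, c h * c h' *
            (((B n).filter (fun y => y + (zz n h - zz n h') ∈ B n)).card : ℝ)) / (N n : ℝ) ^ 2 := by
        rw [Finset.sum_div]
        refine Finset.sum_congr rfl fun h hh => ?_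
        rw [Finset.sum_div]
        refine Finset.sum_congr rfl fun h' hh' => ?_
        simp only [F]
        rw [h1 h hh h' hh']
        ring
      rw [e3, le_div_iff₀ (hNR n)]
      have h5 : (δ * (N n : ℝ) ^ 2) ^ 2 ≤ ((B n).card : ℝ) ^ 2 := by
        apply pow_le_pow_left₀ (by positivity) (hBd n)
      have h6 : (∑ i ∈ s, c i) ^ 2 * (δ * (N n : ℝ) ^ 2) ^ 2 ≤
          (∑ i ∈ s, c i) ^ 2 * ((B n).card : ℝ) ^ 2 :=
        mul_le_mul_of_nonneg_left h5 (sq_nonneg _)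
      have h7 := h6.trans key
      set S := ∑ h ∈ s, ∑ h' ∈ s, c h * c h' *
            (((B n).filter (fun y => y + (zz n h - zz n h') ∈ B n)).card : ℝ) with hS
      have h8 : (δ ^ 2 / 4 * (∑ i ∈ s, c i) ^ 2 * (N n : ℝ) ^ 2) * (4 * (N n : ℝ) ^ 2) ≤
          S * (4 * (N n : ℝ) ^ 2) := by
        calc _ = (∑ i ∈ s, c i) ^ 2 * (δ * (N n : ℝ) ^ 2) ^ 2 := by ring
          _ ≤ 4 * (N n : ℝ) ^ 2 * S := h7
          _ = _ := by ring
      exact le_of_mul_le_mul_right h8 (by have := hNR n; positivity)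
    · intro h
      refine Filter.Eventually.filter_mono Nat.hyperfilter_le_atTop ?_
      filter_upwards [zz_neg h] with n hn
      simp only [F]
      rw [hn]
      congr 2
      refine Finset.card_bij' (fun x _ => x + - zz n h) (fun y _ => y + zz n h) ?_ ?_ ?_ ?_
      · intro x hx
        rw [Finset.mem_filter] at hx ⊢
        refine ⟨hx.2, ?_⟩
        rw [neg_add_cancel_right]; exact hx.1
      · intro x hx
        rw [Finset.mem_filter] at hx ⊢
        refine ⟨hx.2, ?_⟩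
        rw [add_neg_cancel_right]; exact hx.1
      · intro x _; simp
      · intro x _; simp
    · intro q hq
      refine Filter.Eventually.filter_mono Nat.hyperfilter_le_atTop ?_
      filter_upwards [zz_ev (q, q⁻¹)] with n hn
      obtain ⟨h1, h2⟩ := hn
      have h3 : (zz n (q, q⁻¹)).1 * (zz n (q, q⁻¹)).2 = ((n.factorial ^ 2 : ℕ) : ℤ) := by
        have : (((zz n (q, q⁻¹)).1 * (zz n (q, q⁻¹)).2 : ℤ) : ℚ) =
            (((n.factorial ^ 2 : ℕ) : ℤ) : ℚ) := by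
          rw [Int.cast_mul, h1, h2]
          push_cast
          field_simp
        exact_mod_cast this
      simp only [F]
      have h4 : (B n).filter (fun y => y + zz n (q, q⁻¹) ∈ B n) = ∅ := by
        rw [Finset.filter_eq_empty_iff]
        intro y hy hy'
        apply hBz n _ hy' _ hy
        rw [Prod.fst_add, Prod.snd_add, add_sub_cancel_left, add_sub_cancel_left]
        exact h3
      rw [h4]; simp
  have := hG.eta_nonpos
  have : 0 < δ ^ 2 / 4 := by positivity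
  linarith

end Pool.Agent.Helper482.Hyp
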